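import Pool.Agent.LibDC56.TF
import Pool.Agent.LibDC29.Defs2

/-!
[DC56 TX] Symbols of the corner of a loop vertex: SM1, SM2, SM3; final statements of section 3.
-/

namespace DC56

open LPA74 Relation
open DC29 (LG NG Rch IsLp Mon Cl mv pw pz pl)
open LaurentPolynomial (T)
open Polynomial (X toLaurent)

variable {G : Gph} {e : G.Ed}

theorem pw_eq (e : G.Ed) (n : ℕ) : pw (vx (G.s e) : LA G) (ed e) n = sp e n := by
  induction n with
  | zero => rfl
  | succ n ih =>
    rw [sp_succ, ← ih]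
    rfl

theorem pz_nat (e : G.Ed) (n : ℕ) : pz (vx (G.s e) : LA G) (ed e) (n : ℤ) = sp e n := pw_eq e n

theorem pz_neg (e : G.Ed) (n : ℕ) :
    pz (vx (G.s e) : LA G) (ed e) (-(n : ℤ)) = star (sp e n) := by
  cases n with
  | zero =>
    change pw (vx (G.s e) : LA G) (ed e) 0 = star (vx (G.s e))
    rw [star_vx]
    rfl
  | succ n => exact congrArg star (pw_eq e (n + 1))

theorem pl_zero (e : G.Ed) : pl (vx (G.s e) : LA G) (ed e) 0 = 0 := by
  rw [pl, AddMonoidAlgebra.coeff_zero, Finsupp.sum_zero_index]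

theorem pl_add (e : G.Ed) (p q : LaurentPolynomial ℂ) :
    pl (vx (G.s e) : LA G) (ed e) (p + q) =
      pl (vx (G.s e)) (ed e) p + pl (vx (G.s e)) (ed e) q := by
  rw [pl, AddMonoidAlgebra.coeff_add]
  exact Finsupp.sum_add_index' (fun n => zero_smul _ _) (fun n a b => add_smul _ _ _)

theorem pl_smul (e : G.Ed) (c : ℂ) (p : LaurentPolynomial ℂ) :
    pl (vx (G.s e) : LA G) (ed e) (c • p) = c • pl (vx (G.s e)) (ed e) p := by
  rw [pl, AddMonoidAlgebra.coeff_smul, Finsupp.sum_smul_index'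
    (h := fun n l => l • pz (vx (G.s e) : LA G) (ed e) n) (fun n => zero_smul _ _), pl,
    Finsupp.smul_sum]
  refine Finsupp.sum_congr fun n _ => ?_
  rw [smul_eq_mul, mul_smul]

theorem pl_T (e : G.Ed) (n : ℤ) :
    pl (vx (G.s e) : LA G) (ed e) (T n) = pz (vx (G.s e)) (ed e) n := by
  change (Finsupp.single n (1 : ℂ)).sum (fun n l => l • pz (vx (G.s e) : LA G) (ed e) n) = _
  rw [Finsupp.sum_single_index (h := fun n l => l • pz (vx (G.s e) : LA G) (ed e) n)
    (zero_smul _ _), one_smul]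

theorem Sy.pz (he : G.r e = G.s e) (n : ℤ) : Sy e (pz (vx (G.s e)) (ed e) n) (T n) := by
  obtain ⟨m, rfl | rfl⟩ := n.eq_nat_or_neg
  · rw [pz_nat]
    have h := Sy.ev he (X ^ m)
    rwa [ev_X_pow, Polynomial.toLaurent_X_pow] at h
  · rw [pz_neg]
    exact Sy.star_sp he m

theorem Sy.smul {z : LA G} {p : LaurentPolynomial ℂ} (c : ℂ) (h : Sy e z p) :
    Sy e (c • z) (c • p) := by
  obtain ⟨N, q, h1, h2⟩ := h
  refine ⟨N, c • q, by rw [smul_mul_assoc, h1, ev_smul], ?_⟩
  rw [smul_mul_assoc, ← h2, Polynomial.smul_eq_C_mul, LaurentPolynomial.smul_eq_C_mul, map_mul,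
    Polynomial.toLaurent_C]

theorem Sy.pl (he : G.r e = G.s e) (p : LaurentPolynomial ℂ) :
    Sy e (pl (vx (G.s e)) (ed e) p) p := by
  have h := Sy.sum he p.coeff.support (z := fun n => p.coeff n • DC29.pz (vx (G.s e)) (ed e) n)
    (p := fun n => p.coeff n • (T n : LaurentPolynomial ℂ)) (fun n _ => (Sy.pz he n).smul _)
  have h2 : ∑ n ∈ p.coeff.support, p.coeff n • (T n : LaurentPolynomial ℂ) = p := by
    apply AddMonoidAlgebra.coeff_injective
    rw [AddMonoidAlgebra.coeff_sum]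
    conv_rhs => rw [← Finsupp.sum_single p.coeff]
    rw [Finsupp.sum]
    refine Finset.sum_congr rfl fun n _ => ?_
    rw [AddMonoidAlgebra.coeff_smul]
    change p.coeff n • Finsupp.single n (1 : ℂ) = _
    rw [Finsupp.smul_single, smul_eq_mul, mul_one]
  rw [h2] at h
  exact h

theorem kill_mono (he : G.r e = G.s e) {w : LA G} {N M : ℕ} (h : N ≤ M)
    (h1 : star (sp e N) * w = 0) : star (sp e M) * w = 0 := by
  obtain ⟨k, rfl⟩ := Nat.exists_eq_add_of_le h
  rw [sp_add he, star_mul, mul_assoc, h1, mul_zero]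

theorem kill_mono' (he : G.r e = G.s e) {w : LA G} {N M : ℕ} (h : N ≤ M)
    (h1 : w * sp e N = 0) : w * sp e M = 0 := by
  obtain ⟨k, rfl⟩ := Nat.exists_eq_add_of_le h
  rw [sp_add he, ← mul_assoc, h1, zero_mul]

/-- the elements which are, up to elements killed on both sides, Laurent polynomials -/
def SM (he : G.r e = G.s e) : Submodule ℂ (LA G) where
  carrier := {z | ∃ (p : LaurentPolynomial ℂ) (N : ℕ),
    star (sp e N) * (z - pl (vx (G.s e)) (ed e) p) = 0 ∧
    (z - pl (vx (G.s e)) (ed e) p) * sp e N = 0}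
  zero_mem' := ⟨0, 0, by rw [pl_zero, sub_zero, mul_zero], by rw [pl_zero, sub_zero, zero_mul]⟩
  add_mem' := by
    rintro x y ⟨p, N, h1, h2⟩ ⟨q, M, h3, h4⟩
    refine ⟨p + q, max N M, ?_, ?_⟩
    · rw [pl_add, add_sub_add_comm, mul_add, kill_mono he (le_max_left _ _) h1,
        kill_mono he (le_max_right _ _) h3, add_zero]
    · rw [pl_add, add_sub_add_comm, add_mul, kill_mono' he (le_max_left _ _) h2,
        kill_mono' he (le_max_right _ _) h4, add_zero]
  smul_mem' := by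
    rintro c x ⟨p, N, h1, h2⟩
    refine ⟨c • p, N, ?_, ?_⟩
    · rw [pl_smul, ← smul_sub, mul_smul_comm, h1, smul_zero]
    · rw [pl_smul, ← smul_sub, smul_mul_assoc, h2, smul_zero]

theorem sm2 (hG : LG G) (he : G.r e = G.s e) {z : LA G} (h1 : vx (G.s e) * z = z)
    (h2 : z * vx (G.s e) = z) : z ∈ SM he := by
  obtain ⟨R, _, hz⟩ := TS_exists z
  have h3 : vx (G.s e) * z * vx (G.s e) ∈ SM he := by
    refine TS_corner hz (G.s e) (G.s e) (SM he) fun l l' u hl hl' hs hs' => ?_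
    by_cases hu : u = G.s e
    · subst hu
      obtain ⟨a, rfl⟩ := TL_closed hG he hl.1 hs
      obtain ⟨b, rfl⟩ := TL_closed hG he hl'.1 hs'
      change sp e a * star (sp e b) ∈ SM he
      refine ⟨T ((a : ℤ) - b), max a b, ?_, ?_⟩
      · rw [pl_T]
        refine kill_mono he (le_max_left a b) ?_
        rw [mul_sub, ← mul_assoc, star_sp_mul_sp he, sub_eq_zero]
        have h4 : (vx (G.s e) : LA G) * star (sp e b) = star (sp e b) := by
          have h5 := congrArg star (sp_mul_vx e b)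
          rwa [star_mul, star_vx] at h5
        rw [h4]
        rcases le_total b a with h | h
        · obtain ⟨k, rfl⟩ := Nat.exists_eq_add_of_le h
          have h5 : (((b + k : ℕ) : ℤ) - b) = (k : ℤ) := by push_cast; ring
          rw [h5, pz_nat, add_comm b k, sp_add he, star_mul, mul_assoc, star_sp_mul_sp he]
          have h6 := congrArg star (vx_mul_sp he b)
          rwa [star_mul, star_vx, eq_comm] at h6
        · obtain ⟨k, rfl⟩ := Nat.exists_eq_add_of_le h
          have h5 : ((a : ℤ) - ((a + k : ℕ) : ℤ)) = -(k : ℤ) := by push_cast; ring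
          rw [h5, pz_neg, add_comm a k, sp_add he, star_mul]
      · rw [pl_T]
        refine kill_mono' he (le_max_right a b) ?_
        rw [sub_mul, mul_assoc, star_sp_mul_sp he, sp_mul_vx, sub_eq_zero]
        rcases le_total b a with h | h
        · obtain ⟨k, rfl⟩ := Nat.exists_eq_add_of_le h
          have h5 : (((b + k : ℕ) : ℤ) - b) = (k : ℤ) := by push_cast; ring
          rw [h5, pz_nat, add_comm b k, sp_add he]
        · obtain ⟨k, rfl⟩ := Nat.exists_eq_add_of_le h
          have h5 : ((a : ℤ) - ((a + k : ℕ) : ℤ)) = -(k : ℤ) := by push_cast; ring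
          rw [h5, pz_neg, add_comm a k, star_sp_mul_sp_add he]
    · have hn : ¬ Rch G u (G.s e) := by
        intro h
        have h4 := TL_rch hl.1
        rw [hs] at h4
        exact hu (hG.cyc _ _ h h4)
      have e1 : ∀ m : List G.Ed, vx u * star (pe m u) = star (pe m u) := by
        intro m
        have h5 := congrArg star (pe_mul_vx m u)
        rwa [star_mul, star_vx] at h5
      obtain ⟨N, hN⟩ := small_h hG he hn (e1 l')
      obtain ⟨M, hM⟩ := small_h hG he hn (e1 l)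
      have hM' := congrArg star hM
      rw [star_mul, star_star, star_zero] at hM'
      refine ⟨0, max N M, ?_, ?_⟩
      · rw [pl_zero, sub_zero, ← mul_assoc, kill_mono he (le_max_right N M) hM', zero_mul]
      · rw [pl_zero, sub_zero, mul_assoc, kill_mono' he (le_max_left N M) hN, mul_zero]
  rwa [h1, h2] at h3

end DC56

namespace DC29

open LPA74 Finsupp

theorem Cl.unique {G : Gph} (hG : NG G) {x x' : LA G} {m m' : Mon G} (h : Cl x m) (h' : Cl x' m')
    (he : Eqv x x') : m = m' := by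
  haveI := hG.cE
  exact DC56.Cl_unique hG.toLG h h' he

theorem exists_cl {G : Gph} (hG : NG G) {x : LA G} (hx : x * x = x) (Φ : Finset (LA G)) :
    ∃ (n : ℕ) (a : Fin n → G.V) (y z : Fin n → LA G), x = ∑ i, y i * z i ∧
    (∀ i j, z i * y j = if i = j then vx (a i) else 0) ∧ (∀ i, y i * vx (a i) = y i) ∧
    (∀ i, vx (a i) * z i = z i) ∧
    ∀ i, IsLp G (a i) ∨ ∀ f ∈ Φ, ∃ l : ℂ, z i * f * y i = l • vx (a i) := by
  haveI := hG.cE
  classical
  obtain ⟨n, a, y, z, h1, h2, h3, h4, h5⟩ := DC56.exists_cl hG.toLG hx Φ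
  refine ⟨n, a, y, z, h1, fun i j => ?_, h3, h4, h5⟩
  rw [h2 i j]

section
variable {G : Gph} (hG : NG G) {f : G.Ed} (hf : G.r f = G.s f)
include hG hf

theorem SM1 {z : LA G} {v : G.V} (h1 : vx (G.s f) * z = z) (h2 : z * vx v = z)
    (hv : ¬ Rch G v (G.s f)) : ∃ N, star (pw (vx (G.s f)) (ed f) N) * z = 0 := by
  have h3 := congrArg star h2
  rw [star_mul, star_vx] at h3
  obtain ⟨N, hN⟩ := DC56.small_h hG.toLG hf hv h3
  refine ⟨N, ?_⟩
  have h4 := congrArg star hN
  rw [star_mul, star_star, star_zero] at h4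
  rw [DC56.pw_eq, h4]

theorem SM2 {z : LA G} (h1 : vx (G.s f) * z = z) (h2 : z * vx (G.s f) = z) :
    ∃ (p : LaurentPolynomial ℂ) (N : ℕ),
      star (pw (vx (G.s f)) (ed f) N) * (z - pl (vx (G.s f)) (ed f) p) = 0 ∧
      (z - pl (vx (G.s f)) (ed f) p) * pw (vx (G.s f)) (ed f) N = 0 := by
  obtain ⟨p, N, h3, h4⟩ := DC56.sm2 hG.toLG hf h1 h2
  exact ⟨p, N, by rw [DC56.pw_eq, h3], by rw [DC56.pw_eq, h4]⟩

theorem SM3 : ∃ π : LA G → LaurentPolynomial ℂ, (∀ x y, π (x + y) = π x + π y) ∧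
    (∀ x y, vx (G.s f) * x * vx (G.s f) = x → vx (G.s f) * y * vx (G.s f) = y →
      π (x * y) = π x * π y) ∧
    (∀ p, π (pl (vx (G.s f)) (ed f) p) = p) ∧
    (∀ x, vx (G.s f) * x * vx (G.s f) = x → π x = 0 → ∃ N,
      star (pw (vx (G.s f)) (ed f) N) * x = 0 ∧ x * pw (vx (G.s f)) (ed f) N = 0) := by
  haveI := hG.cE
  have hex : ∀ x : LA G, ∃ p, DC56.Sy f (vx (G.s f) * x * vx (G.s f)) p := by
    intro x
    refine DC56.Sy.exists_c hG.toLG hf ?_
    rw [← mul_assoc, ← mul_assoc, vx_mul_self]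
  choose π hπ using hex
  have h1 : DC56.Sy f (vx (G.s f)) 1 := by
    have h := DC56.Sy.ev hf 1
    rwa [DC56.ev_one, map_one] at h
  refine ⟨π, fun x y => ?_, fun x y hx hy => ?_, fun p => ?_, fun x hx h0 => ?_⟩
  · refine DC56.Sy.unique hf (hπ (x + y)) ?_
    rw [mul_add, add_mul]
    exact (hπ x).add hf (hπ y)
  · refine DC56.Sy.unique hf (hπ (x * y)) ?_
    have h2 := hπ x
    have h3 := hπ y
    rw [hx] at h2
    rw [hy] at h3
    have h4 : vx (G.s f) * (x * y) * vx (G.s f) = x * y := by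
      have e1 : vx (G.s f) * x = x := by
        rw [← hx, ← mul_assoc, ← mul_assoc, vx_mul_self]
      have e2 : y * vx (G.s f) = y := by
        rw [← hy, mul_assoc, vx_mul_self]
      rw [← mul_assoc, e1, mul_assoc, e2]
    rw [h4]
    exact h2.mul hf h3
  · refine DC56.Sy.unique hf (hπ _) ?_
    have h2 := (h1.mul hf (DC56.Sy.pl hf p)).mul hf h1
    rwa [one_mul, mul_one] at h2
  · have e1 : vx (G.s f) * x = x := by
      rw [← hx, ← mul_assoc, ← mul_assoc, vx_mul_self]
    have e2 : x * vx (G.s f) = x := by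
      rw [← hx, mul_assoc, vx_mul_self]
    obtain ⟨p, N, h3, h4⟩ := DC56.sm2 hG.toLG hf e1 e2
    have h5 : DC56.Sy f x 0 := by
      have h6 := hπ x
      rwa [hx, h0] at h6
    have h6 : DC56.Sy f (x - pl (vx (G.s f)) (ed f) p) (0 - p) := h5.sub hf (DC56.Sy.pl hf p)
    have h7 := DC56.Sy.unique hf h6 (DC56.Sy.of_zero h4)
    rw [zero_sub, neg_eq_zero] at h7
    rw [h7, DC56.pl_zero, sub_zero] at h3 h4
    exact ⟨N, by rw [DC56.pw_eq, h3], by rw [DC56.pw_eq, h4]⟩

end

end DC29
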