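import Pool.Agent.LibDC29.Defs

/-!
# The monoid of a graph: definitions and first properties
-/

namespace DC56

open LPA74 Relation
open DC29 (LG Rch IsLp MRel Mon mv Le exs wm)

variable {G : Gph}

/-- the class of a formal sum of vertices -/
noncomputable abbrev mk : (G.V →₀ ℕ) →+ Mon G := DC29.mk G

theorem mk_surj (m : Mon G) : ∃ a, mk a = m := AddCon.mk'_surjective m

theorem mk_eq {a b : G.V →₀ ℕ} : mk a = mk b ↔ addConGen (MRel G) a b := AddCon.eq _

theorem mv_eq (v : G.V) (S : Finset G.Ed) (h0 : S.Nonempty) (h : ∀ f, f ∈ S ↔ G.s f = v) :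
    mv v = ∑ f ∈ S, mv (G.r f) := by
  have h1 : mk (Finsupp.single v 1) = mk (∑ f ∈ S, Finsupp.single (G.r f) 1) :=
    mk_eq.2 (AddConGen.Rel.of _ _ (MRel.mk v S h0 h))
  rw [mv, h1, map_sum]
  rfl

theorem mk_eq_sum (a : G.V →₀ ℕ) : mk a = a.sum fun v n => n • mv v := by
  induction a using Finsupp.induction_linear with
  | zero => rw [map_zero, Finsupp.sum_zero_index]
  | add a b h h' =>
    rw [map_add, h, h', Finsupp.sum_add_index' (h := fun v n => n • mv v)
      (fun _ => zero_nsmul _) (fun _ _ _ => add_nsmul _ _ _)]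
  | single v n =>
    rw [Finsupp.sum_single_index (h := fun v n => n • mv v) (zero_nsmul _), mv, ← map_nsmul]
    congr 1
    rw [Finsupp.smul_single, smul_eq_mul, mul_one]

section Le
variable {m n p q : Mon G}

theorem le_refl (m : Mon G) : Le m m := ⟨0, add_zero m⟩
theorem le_zero (m : Mon G) : Le 0 m := ⟨m, zero_add m⟩
theorem le_trans (h : Le m n) (h' : Le n p) : Le m p := by
  obtain ⟨a, rfl⟩ := h
  obtain ⟨b, rfl⟩ := h'
  exact ⟨a + b, (add_assoc _ _ _).symm⟩
theorem le_add (h : Le m n) (h' : Le p q) : Le (m + p) (n + q) := by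
  obtain ⟨a, rfl⟩ := h
  obtain ⟨b, rfl⟩ := h'
  exact ⟨a + b, add_add_add_comm _ _ _ _⟩
theorem le_left (m n : Mon G) : Le m (m + n) := ⟨n, rfl⟩
theorem le_right (m n : Mon G) : Le n (m + n) := ⟨m, add_comm _ _⟩
theorem le_nsmul (h : Le m n) (k : ℕ) : Le (k • m) (k • n) := by
  obtain ⟨a, rfl⟩ := h
  exact ⟨k • a, (nsmul_add _ _ _).symm⟩
theorem le_sum {ι : Type} (s : Finset ι) (f g : ι → Mon G) (h : ∀ i ∈ s, Le (f i) (g i)) :
    Le (∑ i ∈ s, f i) (∑ i ∈ s, g i) := by
  classical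
  induction s using Finset.induction_on with
  | empty => exact le_refl _
  | insert i s hi ih =>
    rw [Finset.sum_insert hi, Finset.sum_insert hi]
    exact le_add (h i (Finset.mem_insert_self _ _)) (ih fun j hj => h j (Finset.mem_insert_of_mem hj))
theorem le_nsmul_mono {k l : ℕ} (h : k ≤ l) (m : Mon G) : Le (k • m) (l • m) := by
  obtain ⟨j, rfl⟩ := Nat.exists_eq_add_of_le h
  exact ⟨j • m, (add_nsmul _ _ _).symm⟩
end Le

/-- an edge `f` gives `r f ≤ s f` -/
theorem mv_step (hG : LG G) {v w : G.V} (h : G.Step v w) : Le (mv w) (mv v) := by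
  classical
  obtain ⟨g, rfl, rfl⟩ := h
  have hf : ∀ f, f ∈ (hG.rf (G.s g)).toFinset ↔ G.s f = G.s g := fun f => by
    rw [Set.Finite.mem_toFinset, Set.mem_ofPred_eq]
  have h1 := mv_eq (G.s g) (hG.rf (G.s g)).toFinset ⟨g, (hf g).2 rfl⟩ hf
  rw [h1, ← Finset.add_sum_erase _ _ ((hf g).2 rfl)]
  exact le_left _ _

theorem mv_reach (hG : LG G) {v w : G.V} (h : ReflTransGen G.Step v w) : Le (mv w) (mv v) := by
  induction h with
  | refl => exact le_refl _
  | tail _ h ih => exact le_trans (mv_step hG h) ih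

end DC56
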