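import Pool.Agent.LibDC56.NF

/-!
# The properties M0 - M4 of the monoid
-/

namespace DC56

open LPA74 Relation
open DC29 (LG Rch IsLp MRel Mon mv Le exs wm)

variable {G : Gph}

/-- a maximal element of a finite set of vertices -/
theorem exists_top (hG : LG G) (A : Finset G.V) (h : A.Nonempty) :
    ∃ t ∈ A, ∀ s ∈ A, ReflTransGen G.Step s t → s = t := by
  classical
  obtain ⟨t, ht, hmax⟩ := Finset.exists_max_image A
    (fun s => (A.filter fun x => ReflTransGen G.Step s x).card) h
  refine ⟨t, ht, fun s hs hst => ?_⟩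
  have h1 : (A.filter fun x => ReflTransGen G.Step t x) ⊆
      A.filter fun x => ReflTransGen G.Step s x := by
    intro x hx
    rw [Finset.mem_filter] at hx ⊢
    exact ⟨hx.1, hst.trans hx.2⟩
  have h2 := Finset.eq_of_subset_of_card_le h1 (hmax s hs)
  have h3 : s ∈ A.filter fun x => ReflTransGen G.Step t x := by
    rw [h2, Finset.mem_filter]
    exact ⟨hs, ReflTransGen.refl⟩
  exact hG.cyc s t hst (Finset.mem_filter.1 h3).2

/-- M0 -/
theorem mon_zero (hG : LG G) {m z : Mon G} (h : m = m + m + z) : m = 0 := by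
  obtain ⟨a, rfl⟩ := mk_surj m
  obtain ⟨b, rfl⟩ := mk_surj z
  rw [← map_add, ← map_add] at h
  obtain ⟨R, hR, h1⟩ := mk_E hG h
  obtain ⟨S, hS⟩ := exists_St hG R hR
  have h2 := h1 S (hS ▸ Finset.Subset.refl _)
  rw [map_add, map_add] at h2
  have hb := h2.bel
  obtain ⟨k, k', hk, hk', he⟩ := h2
  have h0 : S.N a = 0 := by
    by_contra h0
    obtain ⟨t, ht, htop⟩ := exists_top hG (S.N a).support (Finsupp.support_nonempty_iff.2 h0)
    have e1 := St.om_top (S := S) hk htop
    have e2 := St.om_top (S := S) (fun c hc => (hb c).2 (hk' c hc)) htop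
    have e3 := DFunLike.congr_fun he t
    simp only [Finsupp.add_apply] at e3
    rw [e1, e2] at e3
    have e4 := Finsupp.mem_support_iff.1 ht
    omega
  rw [← mk_NF S.nf, h0, map_zero]

/-- a pointwise statement: refinement for formal sums -/
theorem fs_refine {x x' y y' : Fs G} (h : x + x' = y + y') : ∃ a b c d : Fs G,
    x = a + b ∧ x' = c + d ∧ y = a + c ∧ y' = b + d := by
  refine ⟨x - (x - y), x - y, y - (x - (x - y)), x' - (y - (x - (x - y))), ?_, ?_, ?_, ?_⟩ <;>
  · ext t
    have e := DFunLike.congr_fun h t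
    simp only [Finsupp.add_apply, Finsupp.tsub_apply] at e ⊢
    omega

/-- the split of the absorbed part -/
theorem om_split {hG : LG G} {S : St hG} {a a' k : Fs G} (h : ∀ c ∈ k.support, Bel (a + a') c) :
    ∃ x x' : Fs G, a + a' + S.Om k = x + x' ∧ mk x = mk a ∧ mk x' = mk a' := by
  classical
  let k1 := k.filter fun c => Bel a c
  let k2 := k.filter fun c => ¬ Bel a c
  have hk : k1 + k2 = k := Finsupp.filter_add_filter_not k _
  have h1 : ∀ c ∈ k1.support, Bel a c := fun c hc => (Finsupp.mem_support_iff.1 hc |>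
    fun h0 => by
      by_contra h2
      exact h0 (Finsupp.filter_apply_neg _ k h2))
  have h2 : ∀ c ∈ k2.support, Bel a' c := by
    intro c hc
    have h0 := Finsupp.mem_support_iff.1 hc
    have h3 : ¬ Bel a c := by
      intro h3
      exact h0 (Finsupp.filter_apply_neg _ k (not_not.2 h3))
    have h4 : k c ≠ 0 := by
      intro h4
      apply h0
      change (k.filter fun c => ¬ Bel a c) c = 0
      rw [Finsupp.filter_apply, h4, ite_self]
    exact (bel_add.1 (h c (Finsupp.mem_support_iff.2 h4))).resolve_left h3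
  refine ⟨a + S.Om k1, a' + S.Om k2, ?_, St.mk_om hG h1, St.mk_om hG h2⟩
  rw [← hk, map_add]
  abel

/-- M1, refinement -/
theorem mon_refine (hG : LG G) {m m' n n' : Mon G} (h : m + m' = n + n') :
    ∃ a b c d : Mon G, m = a + b ∧ m' = c + d ∧ n = a + c ∧ n' = b + d := by
  obtain ⟨a, rfl⟩ := mk_surj m
  obtain ⟨a', rfl⟩ := mk_surj m'
  obtain ⟨b, rfl⟩ := mk_surj n
  obtain ⟨b', rfl⟩ := mk_surj n'
  rw [← map_add, ← map_add] at h
  obtain ⟨R, hR, h1⟩ := mk_E hG h
  obtain ⟨S, hS⟩ := exists_St hG R hR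
  have h2 := h1 S (hS ▸ Finset.Subset.refl _)
  rw [map_add, map_add] at h2
  obtain ⟨k, k', hk, hk', he⟩ := h2
  obtain ⟨x, x', e1, e2, e3⟩ := om_split hk
  obtain ⟨y, y', f1, f2, f3⟩ := om_split hk'
  rw [e1, f1] at he
  obtain ⟨p, q, r, s, g1, g2, g3, g4⟩ := fs_refine he
  rw [mk_NF S.nf] at e2 e3 f2 f3
  refine ⟨mk p, mk q, mk r, mk s, ?_, ?_, ?_, ?_⟩
  · rw [← e2, g1, map_add]
  · rw [← e3, g2, map_add]
  · rw [← f2, g3, map_add]
  · rw [← f3, g4, map_add]

/-- M1 for several summands -/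
theorem mon_refine_sum (hG : LG G) {n : ℕ} {m m' : Mon G} (b : Fin n → Mon G)
    (h : m + m' = ∑ j, b j) : ∃ d : Fin n → Mon G, m = ∑ j, d j ∧ ∀ j, Le (d j) (b j) := by
  induction n generalizing m m' with
  | zero =>
    refine ⟨fun j => 0, ?_, fun j => j.elim0⟩
    rw [Finset.univ_eq_empty, Finset.sum_empty] at h ⊢
    refine mon_zero hG (z := m') ?_
    rw [add_assoc, h, add_zero]
  | succ n ih =>
    rw [Fin.sum_univ_succ] at h
    obtain ⟨p, q, r, s, g1, g2, g3, g4⟩ := mon_refine hG h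
    obtain ⟨d, hd, hd'⟩ := ih (fun j => b j.succ) g4.symm
    refine ⟨Fin.cons p d, ?_, ?_⟩
    · rw [Fin.sum_univ_succ, Fin.cons_zero, g1, hd]
      simp only [Fin.cons_succ]
    · intro j
      refine Fin.cases ?_ (fun i => ?_) j
      · rw [Fin.cons_zero, g3]
        exact le_left _ _
      · rw [Fin.cons_succ]
        exact hd' i

/-- M4, cancellation -/
theorem mon_cancel (hG : LG G) {p q : Mon G} {m n m' n' : ℕ} (h : p + m • q = n • q)
    (h' : q + m' • p = n' • p) : p = q := by
  classical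
  obtain ⟨a, rfl⟩ := mk_surj p
  obtain ⟨b, rfl⟩ := mk_surj q
  rw [← map_nsmul, ← map_nsmul, ← map_add] at h h'
  obtain ⟨R, hR, h1⟩ := mk_E hG h
  obtain ⟨R', hR', h1'⟩ := mk_E hG h'
  obtain ⟨S, hS⟩ := exists_St hG (R ∪ R') (fun v hv => by
    rcases Finset.mem_union.1 hv with h | h
    · exact hR v h
    · exact hR' v h)
  have h2 := h1 S (hS ▸ Finset.subset_union_left)
  have h2' := h1' S (hS ▸ Finset.subset_union_right)
  rw [map_add, map_nsmul, map_nsmul] at h2 h2'
  rw [← mk_NF S.nf a, ← mk_NF S.nf b]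
  generalize S.N a = P at h2 h2'
  generalize S.N b = Q at h2 h2'
  have hPQ : ∀ w, Bel P w → Bel Q w := fun w hw =>
    bel_nsmul ((h2.bel w).1 (bel_add.2 (Or.inl hw)))
  have hQP : ∀ w, Bel Q w → Bel P w := fun w hw =>
    bel_nsmul ((h2'.bel w).1 (bel_add.2 (Or.inl hw)))
  obtain ⟨k, k', hk, hk', he⟩ := h2
  obtain ⟨l, l', hl, hl', he'⟩ := h2'
  have kb : ∀ {x y : Fs G} {i : ℕ} {w}, Bel (x + i • y) w → Bel x w ∨ Bel y w :=
    fun {x y i w} hw => (bel_add.1 hw).imp_right bel_nsmul
  by_cases h0 : P + Q = 0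
  · have hP : P = 0 := by
      ext t
      have := DFunLike.congr_fun h0 t
      simp only [Finsupp.add_apply, Finsupp.coe_zero, Pi.zero_apply] at this ⊢
      omega
    have hQ : Q = 0 := by
      ext t
      have := DFunLike.congr_fun h0 t
      simp only [Finsupp.add_apply, Finsupp.coe_zero, Pi.zero_apply] at this ⊢
      omega
    rw [hP, hQ]
  · obtain ⟨t, ht, htop⟩ := exists_top hG (P + Q).support (Finsupp.support_nonempty_iff.2 h0)
    have i1 : ∀ c ∈ k.support, Bel (P + Q) c := fun c hc => bel_add.2 (kb (hk c hc))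
    have i2 : ∀ c ∈ k'.support, Bel (P + Q) c := fun c hc =>
      bel_add.2 (Or.inr (bel_nsmul (hk' c hc)))
    have i3 : ∀ c ∈ l.support, Bel (P + Q) c := fun c hc => bel_add.2 (kb (hl c hc)).symm
    have i4 : ∀ c ∈ l'.support, Bel (P + Q) c := fun c hc =>
      bel_add.2 (Or.inl (bel_nsmul (hl' c hc)))
    have e1 := DFunLike.congr_fun he t
    have e2 := DFunLike.congr_fun he' t
    simp only [Finsupp.add_apply, Finsupp.smul_apply, smul_eq_mul] at e1 e2
    rw [St.om_top i1 htop, St.om_top i2 htop] at e1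
    rw [St.om_top i3 htop, St.om_top i4 htop] at e2
    have e3 := Finsupp.mem_support_iff.1 ht
    rw [Finsupp.add_apply] at e3
    have hn : n = m + 1 := by
      have hQt : 0 < Q t := by
        rcases Nat.eq_zero_or_pos (Q t) with h5 | h5
        · rw [h5] at e1
          simp only [mul_zero, add_zero] at e1
          omega
        · exact h5
      have hPt : 0 < P t := by
        rcases Nat.eq_zero_or_pos (P t) with h5 | h5
        · rw [h5] at e2
          simp only [mul_zero, add_zero] at e2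
          omega
        · exact h5
      have hmn : m < n := by
        by_contra h5
        have h6 : n * Q t ≤ m * Q t := Nat.mul_le_mul_right _ (not_lt.1 h5)
        omega
      have hmn' : m' < n' := by
        by_contra h5
        have h6 : n' * P t ≤ m' * P t := Nat.mul_le_mul_right _ (not_lt.1 h5)
        omega
      obtain ⟨d, rfl⟩ := Nat.exists_eq_add_of_lt hmn
      obtain ⟨d', rfl⟩ := Nat.exists_eq_add_of_lt hmn'
      have h7 : P t = (d + 1) * Q t := by
        have : (m + d + 1) * Q t = m * Q t + (d + 1) * Q t := by ring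
        omega
      have h8 : Q t = (d' + 1) * P t := by
        have : (m' + d' + 1) * P t = m' * P t + (d' + 1) * P t := by ring
        omega
      have h9 : (d + 1) * (d' + 1) = 1 := by
        have h10 : P t * ((d + 1) * (d' + 1)) = P t * 1 := by
          rw [mul_one]
          conv_rhs => rw [h7, h8]
          ring
        exact Nat.eq_of_mul_eq_mul_left hPt h10
      have h11 := Nat.eq_one_of_mul_eq_one_right h9
      omega
    subst hn
    refine St.E.mk (S := S) ⟨k, k', ?_, ?_, ?_⟩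
    · intro c hc
      rcases kb (hk c hc) with h5 | h5
      · exact h5
      · exact hQP c h5
    · intro c hc
      exact bel_nsmul (hk' c hc)
    · have h5 : P + S.Om k + m • Q = Q + S.Om k' + m • Q := by
        calc P + S.Om k + m • Q = P + m • Q + S.Om k := by abel
          _ = (m + 1) • Q + S.Om k' := he
          _ = _ := by rw [add_nsmul, one_nsmul]; abel
      exact add_right_cancel h5

theorem bel_es_or {hG : LG G} {c t : G.V} (h : ReflTransGen G.Step c t) :
    t = c ∨ Bel (es hG c) t := by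
  classical
  induction h with
  | refl => exact Or.inl rfl
  | tail _ hst ih =>
    rename_i x y hx
    rcases ih with rfl | ih
    · by_cases hy : y = x
      · exact Or.inl hy
      · right
        obtain ⟨f, hf, rfl⟩ := hst
        refine bel_self ?_
        rw [Finsupp.mem_support_iff, es, Finsupp.finsetSum_apply]
        intro h0
        have h1 := (Finset.sum_eq_zero_iff.1 h0) f (mem_exs.2 ⟨hf, hy⟩)
        rw [Finsupp.single_eq_same] at h1
        exact one_ne_zero h1
    · exact Or.inr (ih.trans (ReflTransGen.single hst))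

theorem not_bel_es {hG : LG G} {c : G.V} : ¬ Bel (es hG c) c := by
  rintro ⟨v, hv, h⟩
  have h1 := mem_es hv
  exact h1.2 (hG.cyc v c h (ReflTransGen.single h1.1))

theorem mv_loop (hG : LG G) {c : G.V} (hc : IsLp G c) : mv c + mk (es hG c) = mv c := by
  have h4 := mk_rs hG (v := c) (by
    obtain ⟨f, hf, _⟩ := hc
    exact ⟨f, hf⟩)
  rw [rs_loop hG hc, map_add] at h4
  exact h4

theorem le_of_bel (hG : LG G) {a : Fs G} {t : G.V} (h : Bel a t) : Le (mv t) (mk a) := by
  classical
  obtain ⟨v, hv, h1⟩ := h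
  refine le_trans (mv_reach hG h1) ?_
  conv_rhs => rw [fs_eq_sum a, map_sum, ← Finset.add_sum_erase _ _ hv]
  refine le_trans ?_ (le_left _ _)
  rw [map_nsmul]
  obtain ⟨n, hn⟩ := Nat.exists_eq_succ_of_ne_zero (Finsupp.mem_support_iff.1 hv)
  rw [hn, succ_nsmul]
  exact le_right _ _

theorem le_of_supp (hG : LG G) {a b : Fs G} (h : ∀ t ∈ b.support, Bel a t) :
    ∃ n : ℕ, Le (mk b) (n • mk a) := by
  refine ⟨∑ t ∈ b.support, b t, ?_⟩
  conv_lhs => rw [fs_eq_sum b, map_sum]
  have h1 : (∑ t ∈ b.support, b t) • mk a = ∑ t ∈ b.support, b t • mk a :=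
    Finset.sum_smul
  rw [h1]
  refine le_sum _ _ _ fun t ht => ?_
  rw [map_nsmul]
  exact le_nsmul (le_of_bel hG (h t ht)) _

/-- M2, second part -/
theorem not_le_es (hG : LG G) {c : G.V} (hc : IsLp G c) (n : ℕ) :
    ¬ Le (mv c) (n • mk (es hG c)) := by
  rintro ⟨z, hz⟩
  obtain ⟨a, rfl⟩ := mk_surj z
  rw [mv, ← map_add, ← map_nsmul] at hz
  obtain ⟨R, hR, h1⟩ := mk_E hG hz
  obtain ⟨S, hS⟩ := exists_St hG R hR
  have h2 := h1 S (hS ▸ Finset.Subset.refl _)
  rw [map_add, map_nsmul, St.N_loop hc] at h2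
  have h3 := (h2.bel c).1 (bel_add.2 (Or.inl (bel_single.2 ReflTransGen.refl)))
  exact not_bel_es (bel_map S.nf.supp (bel_nsmul h3))

/-- M2, third part -/
theorem reach_of_le (hG : LG G) {c v : G.V} (hc : IsLp G c) (h : Le (mv c) (mv v)) :
    ReflTransGen G.Step v c := by
  obtain ⟨z, hz⟩ := h
  obtain ⟨a, rfl⟩ := mk_surj z
  rw [mv, mv, ← map_add] at hz
  obtain ⟨R, hR, h1⟩ := mk_E hG hz
  obtain ⟨S, hS⟩ := exists_St hG R hR
  have h2 := h1 S (hS ▸ Finset.Subset.refl _)
  rw [map_add, St.N_loop hc] at h2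
  have h3 := (h2.bel c).1 (bel_add.2 (Or.inl (bel_single.2 ReflTransGen.refl)))
  exact bel_single.1 (bel_map S.nf.supp h3)

/-- elements below `n w_c` -/
theorem bel_of_le (hG : LG G) {a b : Fs G} {n : ℕ} (h : Le (mk b) (n • mk a)) :
    ∃ R : Finset G.V, (∀ v ∈ R, IsReg G v) ∧ ∀ S : St hG, R ⊆ S.R →
      ∀ t, Bel (S.N b) t → Bel a t := by
  obtain ⟨z, hz⟩ := h
  obtain ⟨b', rfl⟩ := mk_surj z
  rw [← map_add, ← map_nsmul] at hz
  obtain ⟨R, hR, h1⟩ := mk_E hG hz
  refine ⟨R, hR, fun S hS t ht => ?_⟩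
  have h2 := h1 S hS
  rw [map_add, map_nsmul] at h2
  exact bel_map S.nf.supp (bel_nsmul ((h2.bel t).1 (bel_add.2 (Or.inl ht))))

/-- M2, first part -/
theorem mon_atom (hG : LG G) {c : G.V} (hc : IsLp G c) {i j p q : Mon G} {n : ℕ}
    (hi : Le i (n • mk (es hG c))) (hj : Le j (n • mk (es hG c)))
    (h : mv c + i = p + q + j) :
    (∃ n' : ℕ, Le p (n' • mk (es hG c))) ∨ ∃ n' : ℕ, Le q (n' • mk (es hG c)) := by
  classical
  obtain ⟨a, rfl⟩ := mk_surj p
  obtain ⟨b, rfl⟩ := mk_surj q
  obtain ⟨x, rfl⟩ := mk_surj i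
  obtain ⟨y, rfl⟩ := mk_surj j
  rw [mv, ← map_add, ← map_add, ← map_add] at h
  obtain ⟨R1, hR1, k1⟩ := mk_E hG h
  obtain ⟨R2, hR2, k2⟩ := bel_of_le hG hi
  obtain ⟨R3, hR3, k3⟩ := bel_of_le hG hj
  obtain ⟨S, hS⟩ := exists_St hG (R1 ∪ R2 ∪ R3) (fun v hv => by
    rcases Finset.mem_union.1 hv with h | h
    · rcases Finset.mem_union.1 h with h | h
      · exact hR1 v h
      · exact hR2 v h
    · exact hR3 v h)
  have h1 := k1 S (hS ▸ Finset.subset_union_left.trans Finset.subset_union_left)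
  have h2 := k2 S (hS ▸ Finset.subset_union_right.trans Finset.subset_union_left)
  have h3 := k3 S (hS ▸ Finset.subset_union_right)
  rw [map_add, map_add, map_add, St.N_loop hc] at h1
  have hb := h1.bel
  -- everything different from `c` is below `w_c`
  have hb2 : ∀ t, Bel (Finsupp.single c 1 + S.N x) t → t = c ∨ Bel (es hG c) t := by
    intro t ht
    rcases bel_add.1 ht with h | h
    · exact bel_es_or (bel_single.1 h)
    · exact Or.inr (h2 t h)
  have htop : ∀ s ∈ (Finsupp.single c 1 + S.N x).support,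
      ReflTransGen G.Step s c → s = c := by
    intro s hs hsc
    rcases hb2 s (bel_self hs) with h | h
    · exact h
    · exact absurd (h.trans hsc) not_bel_es
  obtain ⟨k, k', hk, hk', he⟩ := h1
  have e1 := DFunLike.congr_fun he c
  simp only [Finsupp.add_apply] at e1
  rw [St.om_top hk htop, St.om_top (fun t ht => (hb t).2 (hk' t ht)) htop,
    Finsupp.single_eq_same] at e1
  have e2 : S.N x c = 0 := by
    by_contra h0
    exact not_bel_es (h2 c (bel_self (Finsupp.mem_support_iff.2 h0)))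
  have e3 : S.N y c = 0 := by
    by_contra h0
    exact not_bel_es (h3 c (bel_self (Finsupp.mem_support_iff.2 h0)))
  rw [e2, e3] at e1
  have key : ∀ d : Fs G, (∀ t, Bel d t → Bel (Finsupp.single c 1 + S.N x) t) → d c = 0 →
      ∀ t ∈ d.support, Bel (es hG c) t := by
    intro d hd h0 t ht
    rcases hb2 t (hd t (bel_self ht)) with h | h
    · rw [h] at ht
      exact absurd h0 (Finsupp.mem_support_iff.1 ht)
    · exact h
  have e4 : S.N a c = 0 ∨ S.N b c = 0 := by omega
  rcases e4 with e4 | e4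
  · left
    have h5 := le_of_supp hG (key (S.N a) (fun t ht => (hb t).2
      (bel_add.2 (Or.inl (bel_add.2 (Or.inl ht))))) e4)
    rwa [mk_NF S.nf] at h5
  · right
    have h5 := le_of_supp hG (key (S.N b) (fun t ht => (hb t).2
      (bel_add.2 (Or.inl (bel_add.2 (Or.inr ht))))) e4)
    rwa [mk_NF S.nf] at h5

/-- the absorbed sums below `c` -/
theorem mk_om_es {hG : LG G} {S : St hG} {c : G.V} (hc : c ∈ S.R ∧ IsLp G c) (k : Fs G)
    (hk : ∀ t ∈ k.support, ReflTransGen G.Step c t) :
    mk (S.Om k) + mk (es hG c) = (k c + 1) • mk (es hG c) := by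
  classical
  have h1 : ∀ t, ReflTransGen G.Step c t → t ≠ c →
      mk (es hG c) + mk (S.Om (Finsupp.single t 1)) = mk (es hG c) := by
    intro t ht htc
    have h2 := (bel_es_or (hG := hG) ht).resolve_left htc
    rw [← map_add]
    refine St.mk_om hG fun s hs => ?_
    rw [Finsupp.mem_support_single] at hs
    rw [hs.1]
    exact h2
  have h2 : ∀ s : Finset G.V, (∀ t ∈ s, ReflTransGen G.Step c t) → c ∉ s →
      mk (es hG c) + ∑ t ∈ s, mk (S.Om (k t • Finsupp.single t 1)) = mk (es hG c) := by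
    intro s
    induction s using Finset.induction_on with
    | empty => intro _ _; rw [Finset.sum_empty, add_zero]
    | insert t s ht ih =>
      intro hs hcs
      rw [Finset.sum_insert ht, ← add_assoc, map_nsmul, map_nsmul]
      have h6 : mk (es hG c) + k t • mk (S.Om (Finsupp.single t 1)) = mk (es hG c) := by
        have h8 := h1 t (hs t (Finset.mem_insert_self _ _))
          (fun h => hcs (h ▸ Finset.mem_insert_self _ _))
        generalize k t = n
        induction n with
        | zero => rw [zero_nsmul, add_zero]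
        | succ n ih => rw [succ_nsmul, ← add_assoc, ih, h8]
      rw [h6]
      exact ih (fun t ht => hs t (Finset.mem_insert_of_mem ht))
        (fun h => hcs (Finset.mem_insert_of_mem h))
  have h3 : mk (S.Om k) = ∑ t ∈ k.support.erase c, mk (S.Om (k t • Finsupp.single t 1)) +
      k c • mk (es hG c) := by
    conv_lhs => rw [fs_eq_sum k, map_sum, map_sum]
    by_cases h4 : c ∈ k.support
    · rw [← Finset.add_sum_erase _ _ h4, map_nsmul, map_nsmul, S.om_pos hc, mk_NF S.nf, add_comm]
    · rw [Finset.erase_eq_of_notMem h4, Finsupp.notMem_support_iff.1 h4, zero_nsmul, add_zero]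
  have h4 := h2 (k.support.erase c) (fun t ht => hk t (Finset.mem_of_mem_erase ht))
    (Finset.notMem_erase _ _)
  rw [h3, add_nsmul, one_nsmul]
  calc _ = (mk (es hG c) + ∑ t ∈ k.support.erase c, mk (S.Om (k t • Finsupp.single t 1))) +
        k c • mk (es hG c) := by abel
    _ = _ := by rw [h4, add_comm]

/-- M3 -/
theorem mon_stab (hG : LG G) {c : G.V} (hc : IsLp G c) {y : Mon G} (h : mv c + y = mv c) :
    ∃ m n : ℕ, y + m • mk (es hG c) = n • mk (es hG c) := by
  classical
  obtain ⟨a, rfl⟩ := mk_surj y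
  rw [mv, ← map_add] at h
  obtain ⟨R, hR, h1⟩ := mk_E hG h
  have hcr : IsReg G c := by
    obtain ⟨f, hf, _⟩ := hc
    exact ⟨f, hf⟩
  obtain ⟨S, hS⟩ := exists_St hG (insert c R) (fun v hv => by
    rcases Finset.mem_insert.1 hv with h | h
    · rw [h]; exact hcr
    · exact hR v h)
  have hcS : c ∈ S.R := hS ▸ Finset.mem_insert_self _ _
  have h2 := h1 S (hS ▸ Finset.subset_insert _ _)
  rw [map_add, St.N_loop hc] at h2
  have hb := h2.bel
  obtain ⟨k, k', hk, hk', he⟩ := h2
  have h3 : S.N a + S.Om k = S.Om k' := by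
    have h5 : S.N a + S.Om k + Finsupp.single c 1 = S.Om k' + Finsupp.single c 1 := by
      calc _ = Finsupp.single c 1 + S.N a + S.Om k := by abel
        _ = _ := by rw [he]; abel
    exact add_right_cancel h5
  have h4 := congrArg mk h3
  rw [map_add, mk_NF S.nf] at h4
  refine ⟨k c + 1, k' c + 1, ?_⟩
  rw [← mk_om_es ⟨hcS, hc⟩ k (fun t ht => bel_single.1 ((hb t).1 (hk t ht))),
    ← mk_om_es ⟨hcS, hc⟩ k' (fun t ht => bel_single.1 (hk' t ht)), ← add_assoc, h4]

end DC56
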