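import Pool.Agent.LibDC56.MD

/-!
# Stages of the monoid: normal forms and the explicit congruence
-/

namespace DC56

open LPA74 Relation
open DC29 (LG Rch IsLp MRel Mon mv Le exs wm)

variable {G : Gph}

/-- formal sums of vertices -/
abbrev Fs (G : Gph) : Type := G.V →₀ ℕ

/-- a vertex which emits an edge -/
def IsReg (G : Gph) (v : G.V) : Prop := ∃ f, G.s f = v

/-- the edges out of `v` -/
noncomputable def oe (hG : LG G) (v : G.V) : Finset G.Ed := (hG.rf v).toFinset

theorem mem_oe {hG : LG G} {v : G.V} {f : G.Ed} : f ∈ oe hG v ↔ G.s f = v := by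
  rw [oe, Set.Finite.mem_toFinset, Set.mem_ofPred_eq]

/-- the sum of the ranges of the edges out of `v` -/
noncomputable def rs (hG : LG G) (v : G.V) : Fs G := ∑ f ∈ oe hG v, Finsupp.single (G.r f) 1

/-- the sum of the ranges of the edges out of `v` which are no loops -/
noncomputable def es (hG : LG G) (v : G.V) : Fs G := ∑ f ∈ exs hG v, Finsupp.single (G.r f) 1

theorem mem_exs {hG : LG G} {v : G.V} {f : G.Ed} : f ∈ exs hG v ↔ G.s f = v ∧ G.r f ≠ v := by
  classical
  rw [exs, Finset.mem_filter, Set.Finite.mem_toFinset, Set.mem_ofPred_eq]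

theorem mk_es (hG : LG G) (v : G.V) : mk (es hG v) = wm hG v := by
  rw [es, map_sum]
  rfl

theorem rs_loop (hG : LG G) {c : G.V} (hc : IsLp G c) :
    rs hG c = Finsupp.single c 1 + es hG c := by
  classical
  obtain ⟨f, hs, hr⟩ := hc
  have h1 : (oe hG c).filter (fun g => ¬ (G.r g ≠ c)) = {f} := by
    ext g
    rw [Finset.mem_filter, mem_oe, Finset.mem_singleton, not_not]
    refine ⟨fun h =>
      (hG.one f g (hs.trans hr.symm) (h.1.trans hs.symm) (h.2.trans hs.symm)).symm, ?_⟩
    rintro rfl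
    exact ⟨hs, hr⟩
  have h2 : (oe hG c).filter (fun g => G.r g ≠ c) = exs hG c := by
    ext g
    rw [Finset.mem_filter, mem_oe, mem_exs]
  rw [rs, ← Finset.sum_filter_add_sum_filter_not (oe hG c) (fun g => G.r g ≠ c), h1,
    Finset.sum_singleton, hr, add_comm, h2]
  rfl

theorem mk_rs (hG : LG G) {v : G.V} (hv : IsReg G v) : mk (rs hG v) = mv v := by
  obtain ⟨f, hf⟩ := hv
  rw [mv_eq v (oe hG v) ⟨f, mem_oe.2 hf⟩ (fun g => mem_oe), rs, map_sum]
  rfl

theorem mem_support_add {a b : Fs G} {w : G.V} :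
    w ∈ (a + b).support ↔ w ∈ a.support ∨ w ∈ b.support := by
  rw [Finsupp.mem_support_iff, Finsupp.mem_support_iff, Finsupp.mem_support_iff,
    Finsupp.add_apply]
  omega

theorem mem_support_nsmul {a : Fs G} {w : G.V} {n : ℕ} (h : w ∈ (n • a).support) :
    w ∈ a.support := by
  rw [Finsupp.mem_support_iff] at h ⊢
  intro h0
  apply h
  rw [Finsupp.smul_apply, h0, smul_zero]

theorem mem_support_sum {ι : Type} (s : Finset ι) (a : ι → Fs G) {w : G.V}
    (h : w ∈ (∑ i ∈ s, a i).support) : ∃ i ∈ s, w ∈ (a i).support := by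
  classical
  induction s using Finset.induction_on with
  | empty => simp at h
  | insert i s hi ih =>
    rw [Finset.sum_insert hi, mem_support_add] at h
    rcases h with h | h
    · exact ⟨i, Finset.mem_insert_self _ _, h⟩
    · obtain ⟨j, hj, h⟩ := ih h
      exact ⟨j, Finset.mem_insert_of_mem hj, h⟩

theorem fs_eq_sum (a : Fs G) : a = ∑ v ∈ a.support, a v • Finsupp.single v 1 := by
  conv_lhs => rw [← Finsupp.sum_single a]
  rw [Finsupp.sum]
  refine Finset.sum_congr rfl fun v _ => ?_
  rw [Finsupp.smul_single, smul_eq_mul, mul_one]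

/-- supports and additive maps -/
theorem supp_map (N : Fs G →+ Fs G) {a : Fs G} {w : G.V} (h : w ∈ (N a).support) :
    ∃ v ∈ a.support, w ∈ (N (Finsupp.single v 1)).support := by
  rw [fs_eq_sum a, map_sum] at h
  obtain ⟨v, hv, h⟩ := mem_support_sum _ _ h
  rw [map_nsmul] at h
  exact ⟨v, hv, mem_support_nsmul h⟩

theorem mem_rs {hG : LG G} {v w : G.V} (h : w ∈ (rs hG v).support) : G.Step v w := by
  obtain ⟨f, hf, h⟩ := mem_support_sum _ _ h
  rw [Finsupp.mem_support_single] at h
  exact ⟨f, mem_oe.1 hf, h.1.symm⟩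

theorem mem_es {hG : LG G} {v w : G.V} (h : w ∈ (es hG v).support) : G.Step v w ∧ w ≠ v := by
  classical
  obtain ⟨f, hf, h⟩ := mem_support_sum _ _ h
  rw [Finsupp.mem_support_single] at h
  rw [mem_exs] at hf
  exact ⟨⟨f, hf.1, h.1.symm⟩, by rw [h.1]; exact hf.2⟩

/-- normal forms: the vertices of `R` are replaced by their successors -/
structure NF (hG : LG G) (R : Finset G.V) (N : Fs G →+ Fs G) : Prop where
  fix : ∀ v, v ∉ R → N (Finsupp.single v 1) = Finsupp.single v 1
  step : ∀ v ∈ R, N (Finsupp.single v 1) = N (rs hG v)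
  supp : ∀ v w, w ∈ (N (Finsupp.single v 1)).support → ReflTransGen G.Step v w
  cls : ∀ v, mk (N (Finsupp.single v 1)) = mv v

theorem mk_NF {hG : LG G} {R : Finset G.V} {N : Fs G →+ Fs G} (h : NF hG R N) (a : Fs G) :
    mk (N a) = mk a := by
  have h1 : mk.comp N = mk := by
    refine Finsupp.addHom_ext' fun v => ?_
    refine AddMonoidHom.ext_nat ?_
    exact h.cls v
  exact DFunLike.congr_fun h1 a

theorem exists_nf (hG : LG G) (R : Finset G.V) (h1 : ∀ v ∈ R, IsReg G v)
    (h2 : ∀ v ∈ R, ¬ IsLp G v) : ∃ N, NF hG R N := by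
  classical
  induction R using Finset.induction_on with
  | empty =>
    refine ⟨AddMonoidHom.id _, fun v _ => rfl, fun v hv => absurd hv (Finset.notMem_empty v),
      fun v w h => ?_, fun v => rfl⟩
    rw [AddMonoidHom.id_apply, Finsupp.mem_support_single] at h
    rw [h.1]
  | insert u R hu ih =>
    obtain ⟨N, hN⟩ := ih (fun v hv => h1 v (Finset.mem_insert_of_mem hv))
      (fun v hv => h2 v (Finset.mem_insert_of_mem hv))
    let σ : Fs G →+ Fs G := Finsupp.liftAddHom fun v =>
      if v = u then multiplesHom _ (N (rs hG u)) else multiplesHom _ (Finsupp.single v 1)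
    have hσu : σ (Finsupp.single u 1) = N (rs hG u) := by
      rw [Finsupp.liftAddHom_apply_single, if_pos rfl]
      exact one_nsmul _
    have hσv : ∀ v, v ≠ u → σ (Finsupp.single v 1) = Finsupp.single v 1 := by
      intro v hv
      rw [Finsupp.liftAddHom_apply_single, if_neg hv]
      exact one_nsmul _
    have hσ : ∀ a : Fs G, u ∉ a.support → σ a = a := by
      intro a ha
      conv_lhs => rw [fs_eq_sum a, map_sum]
      conv_rhs => rw [fs_eq_sum a]
      refine Finset.sum_congr rfl fun v hv => ?_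
      rw [map_nsmul, hσv v]
      rintro rfl
      exact ha hv
    have hns : ∀ w, w ∈ (N (rs hG u)).support → ReflTransGen G.Step u w ∧ w ≠ u := by
      intro w hw
      obtain ⟨v, hv, h⟩ := supp_map N hw
      have h3 := hN.supp v w h
      have h4 := mem_rs hv
      refine ⟨ReflTransGen.head h4 h3, ?_⟩
      rintro rfl
      have h5 : v = w := hG.cyc v w h3 (ReflTransGen.single h4)
      subst h5
      exact h2 v (Finset.mem_insert_self _ _) h4
    have hun : σ (N (rs hG u)) = N (rs hG u) := hσ _ fun h => (hns u h).2 rfl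
    refine ⟨σ.comp N, ?_, ?_, ?_, ?_⟩
    · intro v hv
      rw [Finset.mem_insert, not_or] at hv
      rw [AddMonoidHom.comp_apply, hN.fix v hv.2, hσv v hv.1]
    · intro v hv
      rw [Finset.mem_insert] at hv
      rcases hv with rfl | hv
      · rw [AddMonoidHom.comp_apply, AddMonoidHom.comp_apply, hN.fix v hu, hσu, hun]
      · rw [AddMonoidHom.comp_apply, AddMonoidHom.comp_apply, hN.step v hv]
    · intro v w hw
      rw [AddMonoidHom.comp_apply] at hw
      obtain ⟨x, hx, h⟩ := supp_map σ hw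
      have h3 := hN.supp v x hx
      by_cases hxu : x = u
      · subst hxu
        rw [hσu] at h
        exact h3.trans (hns w h).1
      · rw [hσv x hxu, Finsupp.mem_support_single] at h
        rw [h.1]
        exact h3
    · intro v
      have h3 : mk.comp σ = mk := by
        refine Finsupp.addHom_ext' fun v => ?_
        refine AddMonoidHom.ext_nat ?_
        change mk (σ (Finsupp.single v 1)) = mk (Finsupp.single v 1)
        by_cases hv : v = u
        · subst hv
          rw [hσu, mk_NF hN, mk_rs hG (h1 v (Finset.mem_insert_self _ _))]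
          rfl
        · rw [hσv v hv]
      rw [AddMonoidHom.comp_apply]
      have h4 := DFunLike.congr_fun h3 (N (Finsupp.single v 1))
      rw [AddMonoidHom.comp_apply] at h4
      rw [h4, hN.cls]

open Classical in
/-- a stage: a finite set of regular vertices -/
structure St (hG : LG G) where
  R : Finset G.V
  N : Fs G →+ Fs G
  reg : ∀ v ∈ R, IsReg G v
  nf : NF hG (R.filter fun v => ¬ IsLp G v) N

theorem exists_St (hG : LG G) (R : Finset G.V) (hR : ∀ v ∈ R, IsReg G v) :
    ∃ S : St hG, S.R = R := by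
  classical
  obtain ⟨N, hN⟩ := exists_nf hG (R.filter fun v => ¬ IsLp G v)
    (fun v hv => hR v (Finset.mem_of_mem_filter v hv)) (fun v hv => (Finset.mem_filter.1 hv).2)
  exact ⟨⟨R, N, hR, hN⟩, rfl⟩

/-- `w` can be reached from the support of `a` -/
def Bel (a : Fs G) (w : G.V) : Prop := ∃ v ∈ a.support, ReflTransGen G.Step v w

theorem Bel.trans {a : Fs G} {v w : G.V} (h : Bel a v) (h' : ReflTransGen G.Step v w) :
    Bel a w := by
  obtain ⟨x, hx, h⟩ := h
  exact ⟨x, hx, h.trans h'⟩

theorem bel_add {a b : Fs G} {w : G.V} : Bel (a + b) w ↔ Bel a w ∨ Bel b w := by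
  constructor
  · rintro ⟨v, hv, h⟩
    rcases mem_support_add.1 hv with h1 | h1
    · exact Or.inl ⟨v, h1, h⟩
    · exact Or.inr ⟨v, h1, h⟩
  · rintro (⟨v, hv, h⟩ | ⟨v, hv, h⟩)
    · exact ⟨v, mem_support_add.2 (Or.inl hv), h⟩
    · exact ⟨v, mem_support_add.2 (Or.inr hv), h⟩

theorem bel_nsmul {a : Fs G} {w : G.V} {n : ℕ} (h : Bel (n • a) w) : Bel a w := by
  obtain ⟨v, hv, h⟩ := h
  exact ⟨v, mem_support_nsmul hv, h⟩

theorem bel_self {a : Fs G} {w : G.V} (h : w ∈ a.support) : Bel a w := ⟨w, h, ReflTransGen.refl⟩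

theorem bel_single {c w : G.V} : Bel (Finsupp.single c 1) w ↔ ReflTransGen G.Step c w := by
  constructor
  · rintro ⟨v, hv, h⟩
    rw [Finsupp.mem_support_single] at hv
    rw [← hv.1]
    exact h
  · intro h
    exact ⟨c, by rw [Finsupp.mem_support_single]; exact ⟨rfl, one_ne_zero⟩, h⟩

theorem bel_map {N : Fs G →+ Fs G}
    (hN : ∀ v w, w ∈ (N (Finsupp.single v 1)).support → ReflTransGen G.Step v w) {a : Fs G}
    {w : G.V} (h : Bel (N a) w) : Bel a w := by
  obtain ⟨v, hv, h⟩ := h
  obtain ⟨x, hx, h1⟩ := supp_map N hv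
  exact ⟨x, hx, (hN x v h1).trans h⟩

namespace St

variable {hG : LG G} (S : St hG)

open Classical in
/-- the sum of the elements `w_c` -/
noncomputable def Om : Fs G →+ Fs G := Finsupp.liftAddHom fun c =>
  if c ∈ S.R ∧ IsLp G c then multiplesHom _ (S.N (es hG c)) else 0

theorem om_pos {c : G.V} (h : c ∈ S.R ∧ IsLp G c) :
    S.Om (Finsupp.single c 1) = S.N (es hG c) := by
  rw [Om, Finsupp.liftAddHom_apply_single, if_pos h]
  exact one_nsmul _

theorem om_neg {c : G.V} (h : ¬ (c ∈ S.R ∧ IsLp G c)) : S.Om (Finsupp.single c 1) = 0 := by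
  rw [Om, Finsupp.liftAddHom_apply_single, if_neg h]
  rfl

theorem supp_om {c w : G.V} (h : w ∈ (S.Om (Finsupp.single c 1)).support) :
    ReflTransGen G.Step c w ∧ w ≠ c := by
  by_cases hc : c ∈ S.R ∧ IsLp G c
  · rw [S.om_pos hc] at h
    obtain ⟨v, hv, h⟩ := supp_map S.N h
    have h1 := S.nf.supp v w h
    have h2 := mem_es hv
    refine ⟨ReflTransGen.head h2.1 h1, ?_⟩
    rintro rfl
    exact h2.2 (hG.cyc v w h1 (ReflTransGen.single h2.1))
  · rw [S.om_neg hc] at h
    simp at h

/-- the explicit congruence -/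
def E (a b : Fs G) : Prop :=
  ∃ k k' : Fs G, (∀ c ∈ k.support, Bel a c) ∧ (∀ c ∈ k'.support, Bel b c) ∧
    a + S.Om k = b + S.Om k'

variable {S}

theorem bel_om {a k : Fs G} (h : ∀ c ∈ k.support, Bel a c) {w : G.V}
    (hw : w ∈ (S.Om k).support) : Bel a w := by
  obtain ⟨c, hc, h1⟩ := supp_map S.Om hw
  exact (h c hc).trans (S.supp_om h1).1

/-- the coefficient at a maximal vertex -/
theorem om_top {a k : Fs G} (h : ∀ c ∈ k.support, Bel a c) {t : G.V}
    (ht : ∀ s ∈ a.support, ReflTransGen G.Step s t → s = t) : S.Om k t = 0 := by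
  by_contra h0
  obtain ⟨c, hc, h1⟩ := supp_map S.Om (Finsupp.mem_support_iff.2 h0)
  have h2 := S.supp_om h1
  obtain ⟨s, hs, h3⟩ := h c hc
  have h4 := ht s hs (h3.trans h2.1)
  subst h4
  exact h2.2 (hG.cyc s c h3 h2.1)

theorem E.bel' {a b : Fs G} (h : S.E a b) {w : G.V} (hw : Bel b w) : Bel a w := by
  obtain ⟨k, k', hk, hk', he⟩ := h
  obtain ⟨v, hv, h1⟩ := hw
  have h2 : v ∈ (a + S.Om k).support := by
    rw [he]
    exact mem_support_add.2 (Or.inl hv)
  rcases mem_support_add.1 h2 with h3 | h3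
  · exact ⟨v, h3, h1⟩
  · exact (bel_om hk h3).trans h1

theorem E.symm {a b : Fs G} (h : S.E a b) : S.E b a := by
  obtain ⟨k, k', hk, hk', he⟩ := h
  exact ⟨k', k, hk', hk, he.symm⟩

theorem E.bel {a b : Fs G} (h : S.E a b) (w : G.V) : Bel a w ↔ Bel b w :=
  ⟨fun hw => h.symm.bel' hw, fun hw => h.bel' hw⟩

theorem E.refl (a : Fs G) : S.E a a := ⟨0, 0, fun c hc => by simp at hc,
  fun c hc => by simp at hc, rfl⟩

theorem E.trans {a b d : Fs G} (h : S.E a b) (h' : S.E b d) : S.E a d := by
  have hb := h.bel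
  have hb' := h'.bel
  obtain ⟨k, k', hk, hk', he⟩ := h
  obtain ⟨l, l', hl, hl', he'⟩ := h'
  refine ⟨k + l, l' + k', ?_, ?_, ?_⟩
  · intro c hc
    rcases mem_support_add.1 hc with h1 | h1
    · exact hk c h1
    · exact (hb c).2 (hl c h1)
  · intro c hc
    rcases mem_support_add.1 hc with h1 | h1
    · exact hl' c h1
    · exact (hb' c).1 (hk' c h1)
  · rw [map_add, map_add, ← add_assoc, he, ← add_assoc, ← he']
    abel

theorem E.add {a b a' b' : Fs G} (h : S.E a b) (h' : S.E a' b') : S.E (a + a') (b + b') := by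
  obtain ⟨k, k', hk, hk', he⟩ := h
  obtain ⟨l, l', hl, hl', he'⟩ := h'
  refine ⟨k + l, k' + l', ?_, ?_, ?_⟩
  · intro c hc
    rcases mem_support_add.1 hc with h1 | h1
    · exact bel_add.2 (Or.inl (hk c h1))
    · exact bel_add.2 (Or.inr (hl c h1))
  · intro c hc
    rcases mem_support_add.1 hc with h1 | h1
    · exact bel_add.2 (Or.inl (hk' c h1))
    · exact bel_add.2 (Or.inr (hl' c h1))
  · rw [map_add, map_add, add_add_add_comm, he, he', add_add_add_comm]

theorem N_loop {c : G.V} (hc : IsLp G c) : S.N (Finsupp.single c 1) = Finsupp.single c 1 := by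
  classical
  refine S.nf.fix c fun h => ?_
  exact (Finset.mem_filter.1 h).2 hc

/-- the absorption -/
theorem mk_om (hG : LG G) {S : St hG} {a k : Fs G} (h : ∀ c ∈ k.support, Bel a c) :
    DC56.mk (a + S.Om k) = DC56.mk a := by
  classical
  have key : ∀ c, Bel a c → IsLp G c → DC56.mk a + DC56.mk (S.N (es hG c)) = DC56.mk a := by
    intro c hc hl
    rw [mk_NF S.nf]
    obtain ⟨v, hv, h1⟩ := hc
    obtain ⟨z, hz⟩ := mv_reach hG h1
    have h2 : Le (mv v) (DC56.mk a) := by
      conv_rhs => rw [fs_eq_sum a, map_sum, ← Finset.add_sum_erase _ _ hv]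
      refine le_trans ?_ (le_left _ _)
      rw [map_nsmul]
      obtain ⟨n, hn⟩ := Nat.exists_eq_succ_of_ne_zero (Finsupp.mem_support_iff.1 hv)
      rw [hn, succ_nsmul]
      exact le_right _ _
    obtain ⟨y, hy⟩ := h2
    have h3 : mv c = mv c + DC56.mk (es hG c) := by
      have h4 := mk_rs hG (v := c) (by
        obtain ⟨f, hf, _⟩ := hl
        exact ⟨f, hf⟩)
      rw [rs_loop hG hl, map_add] at h4
      exact h4.symm
    rw [← hy, ← hz]
    calc mv c + z + y + DC56.mk (es hG c) = (mv c + DC56.mk (es hG c)) + z + y := by abel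
      _ = _ := by rw [← h3]
  have h2 : DC56.mk a + DC56.mk (S.Om k) = DC56.mk a := by
    have h5 : ∀ s : Finset G.V, (∀ c ∈ s, Bel a c) →
        DC56.mk a + ∑ c ∈ s, DC56.mk (S.Om (k c • Finsupp.single c 1)) = DC56.mk a := by
      classical
      intro s
      induction s using Finset.induction_on with
      | empty => intro _; rw [Finset.sum_empty, add_zero]
      | insert c s hc ih =>
        intro hs
        rw [Finset.sum_insert hc, ← add_assoc, map_nsmul, map_nsmul]
        have h6 : DC56.mk a + k c • DC56.mk (S.Om (Finsupp.single c 1)) = DC56.mk a := by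
          by_cases h7 : c ∈ S.R ∧ IsLp G c
          · rw [S.om_pos h7]
            have h8 := key c (hs c (Finset.mem_insert_self _ _)) h7.2
            generalize k c = n
            induction n with
            | zero => rw [zero_nsmul, add_zero]
            | succ n ih => rw [succ_nsmul, ← add_assoc, ih, h8]
          · rw [S.om_neg h7, map_zero, nsmul_zero, add_zero]
        rw [h6]
        exact ih fun c hc => hs c (Finset.mem_insert_of_mem hc)
    have h6 := h5 k.support h
    rw [← map_sum, ← map_sum, ← fs_eq_sum] at h6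
    exact h6
  rw [map_add, h2]

theorem E.mk {a b : Fs G} (h : S.E a b) : DC56.mk a = DC56.mk b := by
  obtain ⟨k, k', hk, hk', he⟩ := h
  rw [← mk_om hG hk, he, mk_om hG hk']

end St

theorem con_E (hG : LG G) {a b : Fs G} (h : addConGen (MRel G) a b) : ∃ R : Finset G.V,
    (∀ v ∈ R, IsReg G v) ∧ ∀ S : St hG, R ⊆ S.R → S.E (S.N a) (S.N b) := by
  classical
  have h1 : AddConGen.Rel (MRel G) a b := h
  clear h
  induction h1 with
  | of x y h =>
    obtain ⟨v, T, h0, hT⟩ := h
    obtain ⟨f, hf⟩ := h0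
    have hTe : T = oe hG v := by
      ext f
      rw [hT, mem_oe]
    refine ⟨{v}, ?_, ?_⟩
    · intro w hw
      rw [Finset.mem_singleton.1 hw]
      exact ⟨f, (hT f).1 hf⟩
    · intro S hS
      have hv : v ∈ S.R := hS (Finset.mem_singleton_self v)
      have h2 : (∑ f ∈ T, Finsupp.single (G.r f) 1) = rs hG v := by rw [hTe]; rfl
      rw [h2]
      by_cases hl : IsLp G v
      · rw [rs_loop hG hl, map_add, St.N_loop hl]
        refine ⟨Finsupp.single v 1, 0, ?_, ?_, ?_⟩
        · intro c hc
          exact bel_self hc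
        · intro c hc
          simp at hc
        · rw [S.om_pos ⟨hv, hl⟩, map_zero, add_zero]
      · rw [S.nf.step v (by rw [Finset.mem_filter]; exact ⟨hv, hl⟩)]
        exact St.E.refl _
  | refl x => exact ⟨∅, by simp, fun S _ => St.E.refl _⟩
  | symm _ ih =>
    obtain ⟨R, hR, h2⟩ := ih
    exact ⟨R, hR, fun S hS => (h2 S hS).symm⟩
  | trans _ _ ih1 ih2 =>
    obtain ⟨R, hR, h2⟩ := ih1
    obtain ⟨R', hR', h2'⟩ := ih2
    refine ⟨R ∪ R', ?_, fun S hS => ?_⟩
    · intro v hv
      rcases Finset.mem_union.1 hv with h | h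
      · exact hR v h
      · exact hR' v h
    · exact (h2 S (Finset.subset_union_left.trans hS)).trans
        (h2' S (Finset.subset_union_right.trans hS))
  | add _ _ ih1 ih2 =>
    obtain ⟨R, hR, h2⟩ := ih1
    obtain ⟨R', hR', h2'⟩ := ih2
    refine ⟨R ∪ R', ?_, fun S hS => ?_⟩
    · intro v hv
      rcases Finset.mem_union.1 hv with h | h
      · exact hR v h
      · exact hR' v h
    · rw [map_add, map_add]
      exact (h2 S (Finset.subset_union_left.trans hS)).add
        (h2' S (Finset.subset_union_right.trans hS))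

/-- equality in the monoid at some stage -/
theorem mk_E (hG : LG G) {a b : Fs G} (h : mk a = mk b) : ∃ R : Finset G.V,
    (∀ v ∈ R, IsReg G v) ∧ ∀ S : St hG, R ⊆ S.R → S.E (S.N a) (S.N b) :=
  con_E hG (mk_eq.1 h)

end DC56
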