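import Pool.Agent.LibDC56.TM

/-!
[DC56 TC] Compression: replace the vertex `u` by the ranges of a family of partial isometries. On the index set `Jx a u Λ`
(see TD.lean) let `U : Matrix ι (Jx a u Λ)` be `U i (inl j) = if i = j then vx (a i) else 0`,
`U i (inr (j, l)) = if i = j then w l else 0`. Then `Uᴴ * U = dg (bx a u r)` (conjugate transpose) and `U * Uᴴ` is diagonal with entries
`vx (a j)` (`a j ≠ u`) and `∑ l, w l * star (w l)` (`a j = u`). So `x * (U * Uᴴ) = x`, and `y = Uᴴ * x * U`, with `x * U` and `Uᴴ * x`, does it.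
Finally reindex `Jx a u Λ` by `Fintype.equivFin` (`Matrix.reindex`/`submatrix`). For `compress_dg` `U * Uᴴ = dg a`. For `pi_dg` use the index set
`ι × Λ`.
-/

namespace DC56

open LPA74 Relation Matrix
open DC29 (LG Rch IsLp MRel Mon mv Le exs wm Cl)

variable {G : Gph} {C : NonUnitalStarSubalgebra ℂ (LA G)} {ι Λ : Type} [Fintype ι]
  [DecidableEq ι] [Fintype Λ] {u : G.V} {w : Λ → LA G} {r : Λ → G.V}

open Classical in
/-- the matrix of the family -/
noncomputable def TC_U (a : ι → G.V) (u : G.V) (w : Λ → LA G) : Matrix ι (Jx a u Λ) (LA G) :=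
  fun i => Sum.elim (fun j => if i = j.1 then vx (a i) else 0)
    (fun p => if i = p.1.1 then w p.2 else 0)

open Classical in
/-- the entries of `U * Uᴴ` -/
noncomputable def TC_D (a : ι → G.V) (u : G.V) (w : Λ → LA G) (i : ι) : LA G :=
  if a i = u then ∑ l, w l * star (w l) else vx (a i)

theorem TC_mem (hw : PI C u w r) (hv : ∀ v, vx v ∈ C) (a : ι → G.V) (i : ι) (J : Jx a u Λ) :
    TC_U a u w i J ∈ C := by
  classical
  rcases J with j | p
  · show (if i = j.1 then vx (a i) else 0) ∈ C
    split_ifs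
    · exact hv _
    · exact zero_mem _
  · show (if i = p.1.1 then w p.2 else 0) ∈ C
    split_ifs
    · exact hw.mem _
    · exact zero_mem _

open Classical in
theorem TC_UU (a : ι → G.V) (u : G.V) (w : Λ → LA G) (i k : ι) :
    ∑ J, TC_U a u w i J * star (TC_U a u w k J) = if i = k then TC_D a u w i else 0 := by
  rw [Fintype.sum_sum_type]
  have h1 : ∑ j : {j // a j ≠ u}, TC_U a u w i (Sum.inl j) * star (TC_U a u w k (Sum.inl j)) =
      if i = k ∧ a i ≠ u then vx (a i) else 0 := by
    have e : ∀ j : {j // a j ≠ u}, TC_U a u w i (Sum.inl j) * star (TC_U a u w k (Sum.inl j)) =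
        if i = j.1 then (if k = j.1 then vx (a i) else 0) else 0 := by
      intro j
      show (if i = j.1 then vx (a i) else 0) * star (if k = j.1 then vx (a k) else 0) = _
      by_cases h1 : i = j.1
      · by_cases h2 : k = j.1
        · rw [if_pos h1, if_pos h2, if_pos h1, if_pos h2, star_vx, h1, h2, vx_mul_self]
        · rw [if_neg h2, star_zero, mul_zero, if_pos h1, if_neg h2]
      · rw [if_neg h1, if_neg h1, zero_mul]
    rw [Finset.sum_congr rfl fun j _ => e j]
    by_cases hu : a i = u
    · rw [if_neg (fun h => h.2 hu)]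
      apply Finset.sum_eq_zero
      intro j _
      rw [if_neg]
      intro h
      exact j.2 (h ▸ hu)
    · rw [Finset.sum_eq_single (⟨i, hu⟩ : {j // a j ≠ u})]
      · rw [if_pos rfl]
        by_cases hk : i = k
        · rw [if_pos hk.symm, if_pos ⟨hk, hu⟩]
        · rw [if_neg (fun h => hk h.symm), if_neg (fun h => hk h.1)]
      · intro j _ hj
        rw [if_neg]
        intro h
        exact hj (Subtype.ext h.symm)
      · intro h
        exact absurd (Finset.mem_univ _) h
  have h2 : ∑ p : {j // a j = u} × Λ, TC_U a u w i (Sum.inr p) * star (TC_U a u w k (Sum.inr p)) =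
      if i = k ∧ a i = u then ∑ l, w l * star (w l) else 0 := by
    rw [Fintype.sum_prod_type]
    have e : ∀ j : {j // a j = u}, ∑ l : Λ, TC_U a u w i (Sum.inr (j, l)) *
        star (TC_U a u w k (Sum.inr (j, l))) =
        if i = j.1 then (if k = j.1 then ∑ l, w l * star (w l) else 0) else 0 := by
      intro j
      by_cases h1 : i = j.1
      · by_cases h2 : k = j.1
        · rw [if_pos h1, if_pos h2]
          refine Finset.sum_congr rfl fun l _ => ?_
          show (if i = j.1 then w l else 0) * star (if k = j.1 then w l else 0) = _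
          rw [if_pos h1, if_pos h2]
        · rw [if_pos h1, if_neg h2]
          apply Finset.sum_eq_zero
          intro l _
          show (if i = j.1 then w l else 0) * star (if k = j.1 then w l else 0) = _
          rw [if_neg h2, star_zero, mul_zero]
      · rw [if_neg h1]
        apply Finset.sum_eq_zero
        intro l _
        show (if i = j.1 then w l else 0) * star (if k = j.1 then w l else 0) = _
        rw [if_neg h1, zero_mul]
    rw [Finset.sum_congr rfl fun j _ => e j]
    by_cases hu : a i = u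
    · rw [Finset.sum_eq_single (⟨i, hu⟩ : {j // a j = u})]
      · rw [if_pos rfl]
        by_cases hk : i = k
        · rw [if_pos hk.symm, if_pos ⟨hk, hu⟩]
        · rw [if_neg (fun h => hk h.symm), if_neg (fun h => hk h.1)]
      · intro j _ hj
        rw [if_neg]
        intro h
        exact hj (Subtype.ext h.symm)
      · intro h
        exact absurd (Finset.mem_univ _) h
    · rw [if_neg (fun h => hu h.2)]
      apply Finset.sum_eq_zero
      intro j _
      rw [if_neg]
      intro h
      exact hu (h ▸ j.2)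
  rw [h1, h2]
  unfold TC_D
  by_cases hk : i = k
  · by_cases hu : a i = u
    · rw [if_neg (fun h => h.2 hu), if_pos ⟨hk, hu⟩, if_pos hk, if_pos hu, zero_add]
    · rw [if_pos ⟨hk, hu⟩, if_neg (fun h => hu h.2), if_pos hk, if_neg hu, add_zero]
  · rw [if_neg (fun h => hk h.1), if_neg (fun h => hk h.1), if_neg hk, add_zero]

open Classical in
theorem TC_UsU (hw : PI C u w r) (a : ι → G.V) (J K : Jx a u Λ) :
    ∑ i, star (TC_U a u w i J) * TC_U a u w i K = if J = K then vx (bx a u r J) else 0 := by
  rcases J with j | ⟨j, l⟩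
  · rcases K with j' | ⟨j', l'⟩
    · have e : ∀ i, star (TC_U a u w i (Sum.inl j)) * TC_U a u w i (Sum.inl j') =
          if i = j.1 then (if i = j'.1 then vx (a i) else 0) else 0 := by
        intro i
        show star (if i = j.1 then vx (a i) else 0) * (if i = j'.1 then vx (a i) else 0) = _
        by_cases h1 : i = j.1
        · by_cases h2 : i = j'.1
          · rw [if_pos h1, if_pos h2, star_vx, vx_mul_self, if_pos h1]
          · rw [if_neg h2, mul_zero, if_pos h1]
        · rw [if_neg h1, star_zero, zero_mul, if_neg h1]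
      rw [Finset.sum_congr rfl fun i _ => e i, Finset.sum_ite_eq' Finset.univ j.1,
        if_pos (Finset.mem_univ _)]
      by_cases h : j = j'
      · rw [if_pos (congrArg Subtype.val h), if_pos (congrArg Sum.inl h)]
        rfl
      · rw [if_neg (fun h' => h (Subtype.ext h')), if_neg (fun h' => h (Sum.inl_injective h'))]
    · rw [if_neg (by simp)]
      apply Finset.sum_eq_zero
      intro i _
      show star (if i = j.1 then vx (a i) else 0) * (if i = j'.1 then w l' else 0) = _
      by_cases h1 : i = j.1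
      · rw [if_neg (fun h2 => j.2 (by rw [← h1, h2]; exact j'.2) : ¬ i = j'.1), mul_zero]
      · rw [if_neg h1, star_zero, zero_mul]
  · rcases K with j' | ⟨j', l'⟩
    · rw [if_neg (by simp)]
      apply Finset.sum_eq_zero
      intro i _
      show star (if i = j.1 then w l else 0) * (if i = j'.1 then vx (a i) else 0) = _
      by_cases h1 : i = j.1
      · rw [if_neg (fun h2 => j'.2 (by rw [← h2, h1]; exact j.2) : ¬ i = j'.1), mul_zero]
      · rw [if_neg h1, star_zero, zero_mul]
    · have e : ∀ i, star (TC_U a u w i (Sum.inr (j, l))) * TC_U a u w i (Sum.inr (j', l')) =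
          if i = j.1 then (if i = j'.1 then star (w l) * w l' else 0) else 0 := by
        intro i
        show star (if i = j.1 then w l else 0) * (if i = j'.1 then w l' else 0) = _
        by_cases h1 : i = j.1
        · by_cases h2 : i = j'.1
          · rw [if_pos h1, if_pos h2, if_pos h1, if_pos h2]
          · rw [if_neg h2, mul_zero, if_pos h1, if_neg h2]
        · rw [if_neg h1, star_zero, zero_mul, if_neg h1]
      rw [Finset.sum_congr rfl fun i _ => e i, Finset.sum_ite_eq' Finset.univ j.1,
        if_pos (Finset.mem_univ _), hw.orth]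
      by_cases h : j = j'
      · rw [if_pos (congrArg Subtype.val h)]
        by_cases hl : l = l'
        · rw [if_pos hl, if_pos (by rw [h, hl])]
          rfl
        · rw [if_neg hl, if_neg (fun h' => hl (congrArg Prod.snd (Sum.inr_injective h')))]
      · rw [if_neg (fun h' => h (Subtype.ext h')),
          if_neg (fun h' => h (congrArg Prod.fst (Sum.inr_injective h')))]

open Classical in
theorem TC_right (hw : PI C u w r) (a : ι → G.V) (i : ι) (J : Jx a u Λ) :
    TC_U a u w i J * vx (bx a u r J) = TC_U a u w i J := by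
  rcases J with j | ⟨j, l⟩
  · show (if i = j.1 then vx (a i) else 0) * vx (a j.1) = if i = j.1 then vx (a i) else 0
    by_cases h : i = j.1
    · rw [if_pos h, h, vx_mul_self]
    · rw [if_neg h, zero_mul]
  · show (if i = j.1 then w l else 0) * vx (r l) = if i = j.1 then w l else 0
    by_cases h : i = j.1
    · rw [if_pos h, hw.right]
    · rw [if_neg h, zero_mul]

open Classical in
theorem TC_sum (a : ι → G.V) (u : G.V) (r : Λ → G.V) : ∑ J, mv (bx a u r J) =
    ∑ i, if a i = u then ∑ l, mv (r l) else mv (a i) := by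
  rw [Fintype.sum_sum_type, Fintype.sum_prod_type,
    ← Fintype.sum_subtype_add_sum_subtype (fun i => a i = u), add_comm]
  congr 1
  · refine Finset.sum_congr rfl fun x _ => ?_
    show ∑ y : Λ, mv (r y) = if a x.1 = u then ∑ l, mv (r l) else mv (a x.1)
    rw [if_pos x.2]
  · refine Finset.sum_congr rfl fun x _ => ?_
    show mv (a x.1) = if a x.1 = u then ∑ l, mv (r l) else mv (a x.1)
    rw [if_neg x.2]

open Classical in
theorem TC_main (hw : PI C u w r) (hv : ∀ v, vx v ∈ C) (a : ι → G.V) :
    ∃ (n : ℕ) (b : Fin n → G.V) (U : Matrix ι (Fin n) (LA G)), MIn C U ∧ Uᴴ * U = dg b ∧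
      U * Uᴴ = Matrix.diagonal (TC_D a u w) ∧ U * dg b = U ∧
      (∀ j, (∃ i, a i ≠ u ∧ b j = a i) ∨ ∃ l, b j = r l) ∧
      ∑ j, mv (b j) = ∑ i, if a i = u then ∑ l, mv (r l) else mv (a i) := by
  set e := Fintype.equivFin (Jx a u Λ) with he
  refine ⟨_, fun j => bx a u r (e.symm j), (TC_U a u w).submatrix id e.symm, ?_, ?_, ?_, ?_,
    ?_, ?_⟩
  · intro i j
    exact TC_mem hw hv a i _
  · ext J K
    rw [Matrix.mul_apply]
    show ∑ i, star (TC_U a u w i (e.symm J)) * TC_U a u w i (e.symm K) = _
    rw [TC_UsU hw a]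
    unfold dg
    rw [Matrix.diagonal_apply]
    by_cases h : J = K
    · rw [if_pos h, if_pos (congrArg e.symm h)]
    · rw [if_neg h, if_neg (fun h' => h (e.symm.injective h'))]
  · ext i k
    rw [Matrix.mul_apply]
    show ∑ j, TC_U a u w i (e.symm j) * star (TC_U a u w k (e.symm j)) = _
    rw [Equiv.sum_comp e.symm (fun J => TC_U a u w i J * star (TC_U a u w k J)), TC_UU,
      Matrix.diagonal_apply]
  · ext i j
    rw [mul_dg_apply]
    exact TC_right hw a i _
  · intro j
    rcases h : e.symm j with k | ⟨k, l⟩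
    · left
      exact ⟨k.1, k.2, by dsimp only; rw [h]; rfl⟩
    · right
      exact ⟨l, by dsimp only; rw [h]; rfl⟩
  · rw [Equiv.sum_comp e.symm (fun J => mv (bx a u r J)), TC_sum]

theorem compress (hw : PI C u w r) (hv : ∀ v, vx v ∈ C) {a : ι → G.V} {x : Matrix ι ι (LA G)}
    (hx : MIn C x) (hxx : x * x = x) (h1 : dg a * x = x) (h2 : x * dg a = x)
    (h3 : ∀ i j, a j = u → x i j * ∑ l, w l * star (w l) = x i j) :
    ∃ (n : ℕ) (b : Fin n → G.V) (y : Matrix (Fin n) (Fin n) (LA G)),
      (∀ j, (∃ i, a i ≠ u ∧ b j = a i) ∨ ∃ l, b j = r l) ∧ MIn C y ∧ dg b * y = y ∧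
      y * dg b = y ∧ y * y = y ∧ ME C x y := by
  classical
  obtain ⟨n, b, U, hU, h4, h5, h6, h7, -⟩ := TC_main hw hv a
  have h8 : x * Matrix.diagonal (TC_D a u w) = x := by
    ext i j
    rw [Matrix.mul_diagonal]
    unfold TC_D
    by_cases h : a j = u
    · rw [if_pos h, h3 i j h]
    · rw [if_neg h, ← mul_dg_apply, h2]
  have h9 : dg b * Uᴴ = Uᴴ := by
    have e : (dg b)ᴴ = dg b := by
      unfold dg
      rw [Matrix.diagonal_conjTranspose]
      congr 1
      funext j
      exact star_vx _
    have := congrArg Matrix.conjTranspose h6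
    rwa [Matrix.conjTranspose_mul, e] at this
  have hUh : MIn C Uᴴ := hU.conj
  have hyy : (Uᴴ * x * U) * (Uᴴ * x * U) = Uᴴ * x * U := by
    calc (Uᴴ * x * U) * (Uᴴ * x * U) = Uᴴ * (x * (U * Uᴴ)) * x * U := by
          simp only [Matrix.mul_assoc]
      _ = Uᴴ * (x * x) * U := by rw [h5, h8]; simp only [Matrix.mul_assoc]
      _ = _ := by rw [hxx]
  refine ⟨n, b, Uᴴ * x * U, h7, (hUh.mul hx).mul hU, ?_, ?_, hyy, ?_⟩
  · rw [← Matrix.mul_assoc, ← Matrix.mul_assoc, h9]
  · rw [Matrix.mul_assoc, h6]
  · refine ME.mk' (y := x * U) (z := Uᴴ * x) (hx.mul hU) (hUh.mul hx) ?_ ?_ hxx hyy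
    · calc x * U * (Uᴴ * x) = x * (U * Uᴴ) * x := by simp only [Matrix.mul_assoc]
        _ = x := by rw [h5, h8, hxx]
    · calc Uᴴ * x * (x * U) = Uᴴ * (x * x) * U := by simp only [Matrix.mul_assoc]
        _ = _ := by rw [hxx]

open Classical in
theorem compress_dg (hw : PI C u w r) (hv : ∀ v, vx v ∈ C)
    (hu : vx u = ∑ l, w l * star (w l)) (a : ι → G.V) :
    ∃ (n : ℕ) (b : Fin n → G.V), (∀ j, (∃ i, a i ≠ u ∧ b j = a i) ∨ ∃ l, b j = r l) ∧
      ME C (dg a) (dg b) ∧
      ∑ j, mv (b j) = ∑ i, if a i = u then ∑ l, mv (r l) else mv (a i) := by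
  obtain ⟨n, b, U, hU, h4, h5, h6, h7, h8⟩ := TC_main hw hv a
  refine ⟨n, b, h7, ?_, h8⟩
  have h9 : Matrix.diagonal (TC_D a u w) = dg a := by
    unfold dg
    congr 1
    funext i
    unfold TC_D
    by_cases h : a i = u
    · rw [if_pos h, h, hu]
    · rw [if_neg h]
  rw [h9] at h5
  exact ME.mk' hU hU.conj h5 h4 (dg_mul_dg a) (dg_mul_dg b)

/-- the diagonal matrix of the projection `∑ w w*` -/
theorem pi_dg (hw : PI C u w r) (hv : ∀ v, vx v ∈ C) (ι : Type) [Fintype ι] [DecidableEq ι] :
    ∃ (n : ℕ) (b : Fin n → G.V), (∀ j, ∃ l, b j = r l) ∧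
      ME C (Matrix.diagonal fun _ : ι => ∑ l, w l * star (w l)) (dg b) ∧
      ∑ j, mv (b j) = Fintype.card ι • ∑ l, mv (r l) := by
  classical
  obtain ⟨n, b, U, hU, h4, h5, h6, h7, h8⟩ := TC_main hw hv (fun _ : ι => u)
  refine ⟨n, b, fun j => ?_, ?_, ?_⟩
  · rcases h7 j with ⟨i, hi, -⟩ | h
    · exact absurd rfl hi
    · exact h
  · have h9 : Matrix.diagonal (TC_D (fun _ : ι => u) u w) =
        Matrix.diagonal fun _ : ι => ∑ l, w l * star (w l) := by
      congr 1
      funext i
      unfold TC_D
      rw [if_pos rfl]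
    rw [h9] at h5
    refine ME.mk' hU hU.conj h5 h4 ?_ (dg_mul_dg b)
    rw [← h5]
    calc U * Uᴴ * (U * Uᴴ) = U * (Uᴴ * U) * Uᴴ := by simp only [Matrix.mul_assoc]
      _ = U * Uᴴ := by rw [h4, h6]
  · rw [h8]
    simp only [if_true, Finset.sum_const, Finset.card_univ]

/-- separation of the indices with vertex `u` -/
theorem split_dg (hv : ∀ v, vx v ∈ C) (a : ι → G.V) (u : G.V) :
    ∃ (k m : ℕ) (d : Fin m → G.V), (∀ j, ∃ i, a i ≠ u ∧ d j = a i) ∧
      ME C (dg a) (dg (Sum.elim (fun _ : Fin k => u) d)) ∧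
      ∑ i, mv (a i) = k • mv u + ∑ j, mv (d j) := by
  classical
  set e1 := Fintype.equivFin {i // a i = u} with he1
  set e2 := Fintype.equivFin {i // ¬ a i = u} with he2
  set e : ι ≃ Fin (Fintype.card {i // a i = u}) ⊕ Fin (Fintype.card {i // ¬ a i = u}) :=
    (Equiv.sumCompl fun i => a i = u).symm.trans (Equiv.sumCongr e1 e2) with he
  set d : Fin (Fintype.card {i // ¬ a i = u}) → G.V := fun j => a (e2.symm j).1 with hd
  have hc : ∀ i, a i = Sum.elim (fun _ : Fin (Fintype.card {i // a i = u}) => u) d (e i) := by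
    intro i
    by_cases h : a i = u
    · have : e i = Sum.inl (e1 ⟨i, h⟩) := by
        rw [he, Equiv.trans_apply, Equiv.sumCompl_symm_apply_of_pos (p := fun i => a i = u) (a := i) h]
        rfl
      rw [this, Sum.elim_inl, h]
    · have : e i = Sum.inr (e2 ⟨i, h⟩) := by
        rw [he, Equiv.trans_apply, Equiv.sumCompl_symm_apply_of_neg (p := fun i => a i = u) (a := i) h]
        rfl
      rw [this, Sum.elim_inr, hd]
      simp
  refine ⟨_, _, d, fun j => ⟨(e2.symm j).1, (e2.symm j).2, rfl⟩,
    ME.dg_equiv e hc (fun i => hv _), ?_⟩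
  have h1 : ∑ i, mv (a i) = ∑ s, mv (Sum.elim (fun _ : Fin (Fintype.card {i // a i = u}) => u)
      d s) := by
    rw [← Equiv.sum_comp e]
    exact Finset.sum_congr rfl fun i _ => by rw [← hc]
  rw [h1, Fintype.sum_sum_type]
  simp only [Sum.elim_inl, Sum.elim_inr, Finset.sum_const, Finset.card_univ, Fintype.card_fin]

end DC56
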