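import Pool.Agent.LibDC56.MM
import Pool.Agent.LibLPA74.B1

/-!
# Section 3: stages, equivalence of idempotent matrices, powers of a loop. Definitions
-/

namespace DC56

open LPA74 Relation
open DC29 (LG Rch IsLp MRel Mon mv Le exs wm Cl)

variable {G : Gph}

/-- the algebra generated by all vertices and the edges with source in `R` -/
noncomputable def StA (R : Finset G.V) : NonUnitalStarSubalgebra ℂ (LA G) :=
  NonUnitalStarAlgebra.adjoin ℂ (Set.range (vx : G.V → LA G) ∪ ed '' {f | G.s f ∈ R})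

/-- `l` is a path ending at `u`, and its edges have their sources in `R` -/
def PR (R : Finset G.V) (l : List G.Ed) (u : G.V) : Prop := G.IsP l u ∧ ∀ f ∈ l, G.s f ∈ R

/-- `R` is a set of regular vertices in `X`, and the successors of its elements are in `X` -/
structure Clo (X R : Finset G.V) : Prop where
  sub : R ⊆ X
  succ : ∀ f, G.s f ∈ R → G.r f ∈ X
  reg : ∀ v ∈ R, IsReg G v

/-- `u` is maximal in `X` -/
def Tp (X : Finset G.V) (u : G.V) : Prop := u ∈ X ∧ ∀ v ∈ X, Rch G v u → v = u

/-- the diagonal matrix of the vertices of a family -/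
noncomputable def dg {ι : Type} [DecidableEq ι] (a : ι → G.V) : Matrix ι ι (LA G) :=
  Matrix.diagonal fun i => vx (a i)

/-- the entries of the matrix are in `C` -/
def MIn (C : NonUnitalStarSubalgebra ℂ (LA G)) {ι κ : Type} (x : Matrix ι κ (LA G)) : Prop :=
  ∀ i j, x i j ∈ C

/-- equivalence of idempotent matrices over `C` -/
def ME (C : NonUnitalStarSubalgebra ℂ (LA G)) {ι κ : Type} [Fintype ι] [Fintype κ]
    (x : Matrix ι ι (LA G)) (x' : Matrix κ κ (LA G)) : Prop :=
  ∃ (y : Matrix ι κ (LA G)) (z : Matrix κ ι (LA G)), MIn C y ∧ MIn C z ∧ y * z = x ∧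
    z * y = x' ∧ x * y = y ∧ y * x' = y ∧ x' * z = z ∧ z * x = z

/-- the statement GEN at the stage `(X, R)` -/
def GEN (X R : Finset G.V) : Prop :=
  ∀ (ι : Type) [Fintype ι] [DecidableEq ι] (a : ι → G.V) (x : Matrix ι ι (LA G)),
    (∀ i, a i ∈ X) → MIn (StA R) x → dg a * x = x → x * dg a = x → x * x = x →
    ∃ (n : ℕ) (b : Fin n → G.V), (∀ j, b j ∈ X ∧ (b j ∉ R ∨ IsLp G (b j))) ∧
      ME (StA R) x (dg b)

/-- the statement INJ at the stage `(X, R)` -/
def INJ (X R : Finset G.V) : Prop :=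
  ∀ (ι κ : Type) [Fintype ι] [DecidableEq ι] [Fintype κ] [DecidableEq κ] (a : ι → G.V)
    (b : κ → G.V), (∀ i, a i ∈ X) → (∀ j, b j ∈ X) → ME (StA R) (dg a) (dg b) →
    ∑ i, mv (a i) = ∑ j, mv (b j)

/-- the powers of the loop `e` -/
noncomputable def sp (e : G.Ed) (n : ℕ) : LA G := pe (List.replicate n e) (G.s e)

/-- evaluation of polynomials at the loop `e` -/
noncomputable def ev (e : G.Ed) (q : Polynomial ℂ) : LA G := q.sum fun n a => a • sp e n

/-- `p` is the symbol of `z`: `z s ^ N = q(s)`, `q = p T ^ N` -/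
def Sy (e : G.Ed) (z : LA G) (p : LaurentPolynomial ℂ) : Prop :=
  ∃ (N : ℕ) (q : Polynomial ℂ), z * sp e N = ev e q ∧
    Polynomial.toLaurent q = p * LaurentPolynomial.T (N : ℤ)

/-- the index set after replacing the vertex `u` by the ranges of a family -/
abbrev Jx {ι : Type} (a : ι → G.V) (u : G.V) (Λ : Type) : Type :=
  {j // a j ≠ u} ⊕ ({j // a j = u} × Λ)

/-- the family of vertices on `Jx` -/
def bx {ι : Type} (a : ι → G.V) (u : G.V) {Λ : Type} (r : Λ → G.V) : Jx a u Λ → G.V :=
  Sum.elim (fun j => a j.1) fun p => r p.2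

open Classical in
/-- a family of partial isometries with ranges in `u` and initial projections the vertices `r` -/
structure PI {Λ : Type} (C : NonUnitalStarSubalgebra ℂ (LA G)) (u : G.V)
    (w : Λ → LA G) (r : Λ → G.V) : Prop where
  mem : ∀ l, w l ∈ C
  orth : ∀ l l', star (w l) * w l' = if l = l' then vx (r l) else 0
  right : ∀ l, w l * vx (r l) = w l
  left : ∀ l, vx u * w l = w l

end DC56
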