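import Pool.Agent.LibDC56.TD

/-!
[DC56 TE] Powers of a loop `e` at `c = s e = r e` and polynomials in it. `sp e (n+1) = ed e * sp e n` (definition of `pe`),
induction; `star_pe_mul_pe`. `ev_mul`: both sides additive, monomials (`Polynomial.induction_on'` twice).
-/

namespace DC56

open LPA74 Relation Polynomial
open DC29 (LG Rch IsLp MRel Mon mv Le exs wm Cl)

variable {G : Gph} {e : G.Ed}

theorem sp_zero (e : G.Ed) : sp e 0 = vx (G.s e) := rfl

theorem sp_succ (e : G.Ed) (n : ℕ) : sp e (n + 1) = ed e * sp e n := rfl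

theorem vx_mul_sp (he : G.r e = G.s e) (n : ℕ) : vx (G.s e) * sp e n = sp e n := by
  cases n with
  | zero => rw [sp_zero, vx_mul_self]
  | succ n => rw [sp_succ, ← mul_assoc, vx_mul_ed]

theorem sp_mul_vx (e : G.Ed) (n : ℕ) : sp e n * vx (G.s e) = sp e n := pe_mul_vx _ _

theorem sp_add (he : G.r e = G.s e) (m n : ℕ) : sp e (m + n) = sp e m * sp e n := by
  induction m with
  | zero => rw [Nat.zero_add, sp_zero, vx_mul_sp he]
  | succ m ih => rw [Nat.succ_add, sp_succ, ih, sp_succ, mul_assoc]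

theorem TE_isP (he : G.r e = G.s e) (n : ℕ) : G.IsP (List.replicate n e) (G.s e) := by
  induction n with
  | zero => exact trivial
  | succ n ih =>
    refine ⟨?_, ih⟩
    cases n with
    | zero => exact he
    | succ n => exact he

theorem star_sp_mul_sp (he : G.r e = G.s e) (n : ℕ) : star (sp e n) * sp e n = vx (G.s e) :=
  star_pe_mul_pe (TE_isP he n)

theorem star_sp_mul_sp_add (he : G.r e = G.s e) (m n : ℕ) :
    star (sp e m) * sp e (m + n) = sp e n := by
  rw [sp_add he, ← mul_assoc, star_sp_mul_sp he, vx_mul_sp he]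

theorem sp_mem {C : NonUnitalStarSubalgebra ℂ (LA G)} (h : ed e ∈ C) (h' : vx (G.s e) ∈ C)
    (n : ℕ) : sp e n ∈ C := by
  refine pe_mem ?_ h'
  intro g hg
  rw [List.eq_of_mem_replicate hg]
  exact h

theorem ev_zero (e : G.Ed) : ev e 0 = 0 := Polynomial.sum_zero_index _

theorem ev_add (e : G.Ed) (p q : ℂ[X]) : ev e (p + q) = ev e p + ev e q :=
  Polynomial.sum_add_index p q _ (fun _ => zero_smul ℂ _) (fun _ _ _ => add_smul _ _ _)

theorem ev_sum (e : G.Ed) {ι : Type} (s : Finset ι) (p : ι → ℂ[X]) :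
    ev e (∑ i ∈ s, p i) = ∑ i ∈ s, ev e (p i) := by
  classical
  induction s using Finset.induction_on with
  | empty => rw [Finset.sum_empty, Finset.sum_empty, ev_zero]
  | insert i s hi ih => rw [Finset.sum_insert hi, Finset.sum_insert hi, ev_add, ih]

theorem ev_smul (e : G.Ed) (k : ℂ) (p : ℂ[X]) : ev e (k • p) = k • ev e p := by
  rw [ev, Polynomial.sum_smul_index p k (fun n a => a • sp e n) (fun _ => zero_smul ℂ _), ev,
    Polynomial.sum_def, Polynomial.sum_def, Finset.smul_sum]
  exact Finset.sum_congr rfl fun i _ => mul_smul _ _ _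

theorem TE_ev_monomial (e : G.Ed) (n : ℕ) (a : ℂ) : ev e (monomial n a) = a • sp e n :=
  Polynomial.sum_monomial_index _ _ (zero_smul ℂ _)

theorem ev_X_pow (e : G.Ed) (n : ℕ) : ev e (X ^ n) = sp e n := by
  rw [← monomial_one_right_eq_X_pow, TE_ev_monomial, one_smul]

theorem ev_one (e : G.Ed) : ev e 1 = vx (G.s e) := by
  rw [← pow_zero (X : ℂ[X]), ev_X_pow, sp_zero]

theorem ev_mul (he : G.r e = G.s e) (p q : ℂ[X]) : ev e (p * q) = ev e p * ev e q := by
  induction p using Polynomial.induction_on' with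
  | add p p' h h' => rw [add_mul, ev_add, h, h', ev_add, add_mul]
  | monomial m a =>
    induction q using Polynomial.induction_on' with
    | add q q' h h' => rw [mul_add, ev_add, h, h', ev_add, mul_add]
    | monomial n b =>
      rw [monomial_mul_monomial, TE_ev_monomial, TE_ev_monomial, TE_ev_monomial, sp_add he,
        smul_mul_smul_comm]

theorem vx_mul_ev (he : G.r e = G.s e) (p : ℂ[X]) : vx (G.s e) * ev e p = ev e p := by
  rw [ev, Polynomial.sum_def, Finset.mul_sum]
  refine Finset.sum_congr rfl fun i _ => ?_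
  rw [mul_smul_comm, vx_mul_sp he]

theorem ev_mul_vx (e : G.Ed) (p : ℂ[X]) : ev e p * vx (G.s e) = ev e p := by
  rw [ev, Polynomial.sum_def, Finset.sum_mul]
  refine Finset.sum_congr rfl fun i _ => ?_
  rw [smul_mul_assoc, sp_mul_vx]

theorem ev_mem {C : NonUnitalStarSubalgebra ℂ (LA G)} (h : ed e ∈ C) (h' : vx (G.s e) ∈ C)
    (p : ℂ[X]) : ev e p ∈ C := by
  rw [ev, Polynomial.sum_def]
  exact sum_mem fun i _ => SMulMemClass.smul_mem _ (sp_mem h h' i)

theorem TE_mem_exs {hG : LG G} {c : G.V} {f : G.Ed} :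
    f ∈ exs hG c ↔ G.s f = c ∧ G.r f ≠ c := by
  classical
  rw [exs, Finset.mem_filter, Set.Finite.mem_toFinset]
  exact Iff.rfl

/-- `c - s s*` is the sum over the exits -/
theorem TE_vx_sub (hG : LG G) (he : G.r e = G.s e) :
    vx (G.s e) - ed e * star (ed e) = ∑ f ∈ exs hG (G.s e), ed f * star (ed f) := by
  classical
  have h1 : e ∉ exs hG (G.s e) := fun h => (TE_mem_exs.1 h).2 he
  rw [sub_eq_iff_eq_add', ← Finset.sum_insert h1 (f := fun f => ed f * star (ed f))]
  refine vx_eq_sum _ _ ⟨e, Finset.mem_insert_self _ _⟩ fun f => ?_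
  rw [Finset.mem_insert, TE_mem_exs]
  constructor
  · rintro (rfl | h)
    · rfl
    · exact h.1
  · intro h
    by_cases h2 : G.r f = G.s e
    · left
      exact (hG.one e f he.symm h h2).symm
    · exact Or.inr ⟨h, h2⟩

/-- `c - s ^ N s* ^ N` -/
theorem vx_sub_sp (hG : LG G) (he : G.r e = G.s e) (N : ℕ) :
    vx (G.s e) - sp e N * star (sp e N) =
      ∑ m ∈ Finset.range N, ∑ f ∈ exs hG (G.s e), sp e m * ed f * star (sp e m * ed f) := by
  induction N with
  | zero => rw [Finset.range_zero, Finset.sum_empty, sp_zero, star_vx, vx_mul_self, sub_self]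
  | succ N ih =>
    rw [Finset.sum_range_succ, ← ih]
    have h1 : sp e (N + 1) = sp e N * ed e := by
      rw [sp_add he]
      congr 1
      rw [sp_succ, sp_zero, ← he, ed_mul_vx]
    have h2 : ∑ f ∈ exs hG (G.s e), sp e N * ed f * star (sp e N * ed f) =
        sp e N * (vx (G.s e) - ed e * star (ed e)) * star (sp e N) := by
      rw [TE_vx_sub hG he, Finset.mul_sum, Finset.sum_mul]
      refine Finset.sum_congr rfl fun f _ => ?_
      rw [star_mul]
      simp only [mul_assoc]
    rw [h2, h1, mul_sub, sub_mul, sp_mul_vx, star_mul]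
    simp only [mul_assoc]
    abel

theorem TE_orth (hG : LG G) (he : G.r e = G.s e) {m m' : ℕ} (h : m < m') {f f' : G.Ed}
    (hf : f ∈ exs hG (G.s e)) : star (sp e m * ed f) * (sp e m' * ed f') = 0 := by
  obtain ⟨k, rfl⟩ := Nat.exists_eq_add_of_lt h
  have hne : f ≠ e := by
    rintro rfl
    exact (TE_mem_exs.1 hf).2 he
  rw [star_mul]
  calc star (ed f) * star (sp e m) * (sp e (m + k + 1) * ed f')
      = star (ed f) * (star (sp e m) * sp e (m + (k + 1))) * ed f' := by
        simp only [mul_assoc]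
        rfl
    _ = star (ed f) * ed e * sp e k * ed f' := by
        rw [star_sp_mul_sp_add he, sp_succ]
        simp only [mul_assoc]
    _ = 0 := by rw [star_ed_mul_ed_ne hne, zero_mul, zero_mul]

/-- the partial isometries `s ^ m f`, `m < N`, `f` an exit -/
theorem pi_sp (hG : LG G) (he : G.r e = G.s e) (N : ℕ) {R : Finset G.V} (hR : G.s e ∈ R) :
    PI (StA R) (G.s e) (fun p : Fin N × {f // f ∈ exs hG (G.s e)} => sp e p.1 * ed p.2.1)
      (fun p => G.r p.2.1) := by
  have hv : (vx (G.s e) : LA G) ∈ StA R :=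
    NonUnitalStarAlgebra.subset_adjoin ℂ _ (Or.inl ⟨_, rfl⟩)
  have hed : ∀ f, G.s f = G.s e → (ed f : LA G) ∈ StA R := fun f hf =>
    NonUnitalStarAlgebra.subset_adjoin ℂ _ (Or.inr ⟨f, by
      change G.s f ∈ R
      rw [hf]
      exact hR, rfl⟩)
  refine ⟨?_, ?_, ?_, ?_⟩
  · rintro ⟨m, f, hf⟩
    exact mul_mem (sp_mem (hed e rfl) hv m) (hed f (TE_mem_exs.1 hf).1)
  · rintro ⟨m, f, hf⟩ ⟨m', f', hf'⟩
    change star (sp e m * ed f) * (sp e m' * ed f') = _
    rcases lt_trichotomy m.1 m'.1 with h | h | h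
    · rw [TE_orth hG he h hf, if_neg]
      intro h1
      rw [Prod.mk.injEq] at h1
      rw [h1.1] at h
      exact lt_irrefl _ h
    · have h0 : m = m' := Fin.ext h
      subst h0
      have h1 : star (sp e m * ed f) * (sp e m * ed f') = star (ed f) * ed f' := by
        rw [star_mul]
        calc star (ed f) * star (sp e m) * (sp e m * ed f')
            = star (ed f) * (star (sp e m) * sp e m) * ed f' := by simp only [mul_assoc]
          _ = star (ed f) * (vx (G.s f') * ed f') := by
              rw [star_sp_mul_sp he, (TE_mem_exs.1 hf').1, mul_assoc]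
          _ = star (ed f) * ed f' := by rw [vx_mul_ed]
      rw [h1]
      by_cases h2 : f = f'
      · subst h2
        rw [star_ed_mul_ed, if_pos rfl]
      · rw [star_ed_mul_ed_ne h2, if_neg]
        intro h3
        rw [Prod.mk.injEq, Subtype.mk.injEq] at h3
        exact h2 h3.2
    · rw [if_neg]
      · have h1 := congrArg star (TE_orth hG he h hf' (f' := f))
        rwa [star_mul, star_star, star_zero] at h1
      · intro h1
        rw [Prod.mk.injEq] at h1
        rw [h1.1] at h
        exact lt_irrefl _ h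
  · rintro ⟨m, f, hf⟩
    change sp e m * ed f * vx (G.r f) = sp e m * ed f
    rw [mul_assoc, ed_mul_vx]
  · rintro ⟨m, f, hf⟩
    change vx (G.s e) * (sp e m * ed f) = sp e m * ed f
    rw [← mul_assoc, vx_mul_sp he]

end DC56
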