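import Mathlib

/-!
[DC56 TPa] ONLY MATHLIB. `split_idem`: the proof of `idem_matrix` in LibLPA74/PM.lean constructs such `M` and `N` (copy it).
`clear_den`: `LaurentPolynomial.exists_T_pow` for each entry and the maximum of the exponents. `card_eq_of_inv`: e.g. `Matrix.square_of_invertible`
or ranks (invariant basis number).
-/

namespace DC56

open Polynomial LaurentPolynomial Matrix

theorem split_idem {R : Type} [CommRing R] [IsDomain R] [IsPrincipalIdealRing R] {ι : Type}
    [Fintype ι] [DecidableEq ι] (P : Matrix ι ι R) (hP : P * P = P) :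
    ∃ (k : ℕ) (M : Matrix ι (Fin k) R) (N : Matrix (Fin k) ι R), M * N = P ∧ N * M = 1 := by
  obtain ⟨n, b⟩ := Submodule.basisOfPid (Pi.basisFun R ι) (LinearMap.range P.mulVecLin)
  have hmem : ∀ v : ι → R, P.mulVec v ∈ LinearMap.range P.mulVecLin := fun v => ⟨v, rfl⟩
  -- `P` is the identity on its range
  have hid : ∀ v : ι → R, v ∈ LinearMap.range P.mulVecLin → P.mulVec v = v := by
    rintro _ ⟨u, rfl⟩
    rw [Matrix.mulVecLin_apply, Matrix.mulVec_mulVec, hP]
  let M : Matrix ι (Fin n) R := Matrix.of fun i j => (b j : ι → R) i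
  let N : Matrix (Fin n) ι R := Matrix.of fun j k =>
    b.repr ⟨P.mulVec (Pi.single k 1), hmem _⟩ j
  have hMN : M * N = P := by
    ext i k
    rw [Matrix.mul_apply]
    have h1 := b.sum_repr ⟨P.mulVec (Pi.single k 1), hmem _⟩
    have h2 := congrArg (fun v : LinearMap.range P.mulVecLin => (v : ι → R) i) h1
    simp only [Submodule.coe_sum, Submodule.coe_smul, Finset.sum_apply, Pi.smul_apply,
      smul_eq_mul] at h2
    have h3 : P.mulVec (Pi.single k 1) i = P i k := by
      rw [Matrix.mulVec_single_one]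
      rfl
    rw [← h3, ← h2]
    refine Finset.sum_congr rfl fun j _ => ?_
    simp only [M, N, Matrix.of_apply]
    rw [mul_comm]
  have hNM : N * M = 1 := by
    ext j k
    rw [Matrix.mul_apply]
    have h1 : (b k) = ∑ i, (b k : ι → R) i • (⟨P.mulVec (Pi.single i 1), hmem _⟩ :
        LinearMap.range P.mulVecLin) := by
      apply Subtype.ext
      rw [Submodule.coe_sum]
      simp only [Submodule.coe_smul]
      have h2 := hid _ (b k).2
      conv_lhs => rw [← h2]
      have h3 : (b k : ι → R) = ∑ i, (b k : ι → R) i • (Pi.single i 1 : ι → R) := by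
        funext i
        simp [Finset.sum_apply, Pi.single_apply]
      conv_lhs => rw [h3]
      rw [Matrix.mulVec_sum]
      refine Finset.sum_congr rfl fun i _ => ?_
      rw [Matrix.mulVec_smul]
    have h4 : b.repr (b k) j = ∑ i, (b k : ι → R) i *
        b.repr ⟨P.mulVec (Pi.single i 1), hmem _⟩ j := by
      conv_lhs => rw [h1]
      rw [map_sum, Finsupp.finsetSum_apply]
      refine Finset.sum_congr rfl fun i _ => ?_
      rw [map_smul, Finsupp.smul_apply, smul_eq_mul]
    rw [b.repr_self, Finsupp.single_apply] at h4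
    rw [Matrix.one_apply]
    have h5 : (if j = k then (1 : R) else 0) = if k = j then 1 else 0 := by
      by_cases h : j = k
      · rw [if_pos h, if_pos h.symm]
      · rw [if_neg h, if_neg (fun h' => h h'.symm)]
    rw [h5, h4]
    refine Finset.sum_congr rfl fun i _ => ?_
    simp only [M, N, Matrix.of_apply]
    rw [mul_comm]
  exact ⟨n, M, N, hMN, hNM⟩

theorem clear_den {ι κ : Type} [Fintype ι] [Fintype κ] (M : Matrix ι κ ℂ[T;T⁻¹]) :
    ∃ (n : ℕ) (M' : Matrix ι κ ℂ[X]), ∀ i j, toLaurent (M' i j) = M i j * T (n : ℤ) := by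
  have h1 : ∀ i j, ∃ (n : ℕ) (f' : ℂ[X]), toLaurent f' = M i j * T (n : ℤ) := fun i j =>
    LaurentPolynomial.exists_T_pow (M i j)
  choose n f' hf using h1
  have h2 : ∃ N : ℕ, ∀ i j, n i j ≤ N := by
    refine ⟨Finset.univ.sup fun i => Finset.univ.sup fun j => n i j, fun i j => ?_⟩
    exact (Finset.le_sup (f := fun j => n i j) (Finset.mem_univ j)).trans
      (Finset.le_sup (f := fun i => Finset.univ.sup fun j => n i j) (Finset.mem_univ i))
  obtain ⟨N, hN⟩ := h2
  refine ⟨N, Matrix.of fun i j => f' i j * X ^ (N - n i j), fun i j => ?_⟩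
  rw [Matrix.of_apply, map_mul, hf, Polynomial.toLaurent_X_pow, mul_assoc, ← T_add]
  congr 2
  have := hN i j
  omega

theorem card_eq_of_inv {R : Type} [CommRing R] [Nontrivial R] {k l : ℕ}
    {P : Matrix (Fin k) (Fin l) R} {Q : Matrix (Fin l) (Fin k) R} (h : P * Q = 1)
    (h' : Q * P = 1) : k = l := by
  exact (eq_of_fin_equiv R (Matrix.toLin'OfInv h h'))

end DC56
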