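import Pool.Agent.LibDC56.TE

/-!
[DC56 TL] Smallness. `small`: the property is linear in `z`, so it is enough to consider `z = pe l u * star (pe l' u)`
(as in `StA_le`; or prove the span statement for all of `LA G` by `LA.induction`), `l'` a path ending at `u`. If all edges
of `l'` are `e` (`l' = replicate j e`, `u = s e`) take `N = j`; if `l' = replicate j e ++ f :: l''`, `f ≠ e`, then
`star (pe l' u) * sp e (j + 1) = 0`. `small_c`: multiply by `vx (s e)` on the left; a path from `s e` to `s e` is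
`replicate n e` (`hG.cyc`, `hG.one`).
-/

namespace DC56

open LPA74 Relation Polynomial
open DC29 (LG Rch IsLp MRel Mon mv Le exs wm Cl)

variable {G : Gph} {e : G.Ed}

/-- the span of the paths ending at `s e` -/
noncomputable def TL_S (e : G.Ed) : Submodule ℂ (LA G) :=
  Submodule.span ℂ {x | ∃ l, G.IsP l (G.s e) ∧ x = pe l (G.s e)}

theorem TL_pe_mem {l : List G.Ed} (h : G.IsP l (G.s e)) : pe l (G.s e) ∈ TL_S e :=
  Submodule.subset_span ⟨l, h, rfl⟩

theorem TL_st_append (l l' : List G.Ed) (u : G.V) : G.st (l ++ l') u = G.st l (G.st l' u) := by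
  cases l with
  | nil => rfl
  | cons g l => rfl

theorem TL_isP_append {l l' : List G.Ed} {u : G.V} (h : G.IsP l (G.st l' u)) (h' : G.IsP l' u) :
    G.IsP (l ++ l') u := by
  induction l with
  | nil => exact h'
  | cons g l ih =>
    refine ⟨?_, ih h.2⟩
    exact h.1.trans (TL_st_append l l' u).symm

theorem TL_pe_append (l l' : List G.Ed) (u : G.V) :
    pe (l ++ l') u = pe l (G.st l' u) * pe l' u := by
  induction l with
  | nil => exact (vx_mul_pe l' u).symm
  | cons g l ih =>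
    change ed g * pe (l ++ l') u = ed g * pe l (G.st l' u) * pe l' u
    rw [ih, mul_assoc]

theorem TL_isP_rep (he : G.r e = G.s e) (k : ℕ) :
    G.IsP (List.replicate k e) (G.s e) ∧ G.st (List.replicate k e) (G.s e) = G.s e := by
  induction k with
  | zero => exact ⟨trivial, rfl⟩
  | succ k ih =>
    rw [List.replicate_succ]
    exact ⟨⟨he.trans ih.2.symm, ih.1⟩, rfl⟩

theorem TL_S_mul_sp (he : G.r e = G.s e) {w : LA G} (hw : w ∈ TL_S e) (k : ℕ) :
    w * sp e k ∈ TL_S e := by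
  refine Submodule.span_induction (p := fun w _ => w * sp e k ∈ TL_S e) ?_ ?_ ?_ ?_ hw
  · rintro w ⟨l, hl, rfl⟩
    have h1 := TL_isP_rep (G := G) he k
    have h2 : pe l (G.s e) * sp e k = pe (l ++ List.replicate k e) (G.s e) := by
      rw [TL_pe_append, h1.2]
      rfl
    rw [h2]
    refine TL_pe_mem (TL_isP_append ?_ h1.1)
    rw [h1.2]
    exact hl
  · rw [zero_mul]
    exact Submodule.zero_mem _
  · intro x y _ _ hx hy
    rw [add_mul]
    exact Submodule.add_mem _ hx hy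
  · intro c x _ hx
    rw [smul_mul_assoc]
    exact Submodule.smul_mem _ _ hx

/-- the property proved by induction on `z` -/
def TL_p (e : G.Ed) (z : LA G) : Prop := ∀ w ∈ TL_S e, ∃ N, z * w * sp e N ∈ TL_S e

theorem TL_mono (he : G.r e = G.s e) {x : LA G} {N M : ℕ} (h : N ≤ M)
    (hx : x * sp e N ∈ TL_S e) : x * sp e M ∈ TL_S e := by
  obtain ⟨k, rfl⟩ := Nat.exists_eq_add_of_le h
  rw [sp_add he, ← mul_assoc]
  exact TL_S_mul_sp he hx k

theorem TL_p_of (he : G.r e = G.s e) {z : LA G}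
    (h : ∀ l, G.IsP l (G.s e) → ∃ N, z * pe l (G.s e) * sp e N ∈ TL_S e) : TL_p e z := by
  intro w hw
  refine Submodule.span_induction (p := fun w _ => ∃ N, z * w * sp e N ∈ TL_S e) ?_ ?_ ?_ ?_ hw
  · rintro w ⟨l, hl, rfl⟩
    exact h l hl
  · refine ⟨0, ?_⟩
    rw [mul_zero, zero_mul]
    exact Submodule.zero_mem _
  · rintro x y _ _ ⟨N, hN⟩ ⟨M, hM⟩
    refine ⟨max N M, ?_⟩
    rw [mul_add, add_mul]
    exact Submodule.add_mem _ (TL_mono he (le_max_left _ _) hN) (TL_mono he (le_max_right _ _) hM)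
  · rintro c x _ ⟨N, hN⟩
    refine ⟨N, ?_⟩
    rw [mul_smul_comm, smul_mul_assoc]
    exact Submodule.smul_mem _ _ hN

theorem TL_add (he : G.r e = G.s e) {x y : LA G} (hx : TL_p e x) (hy : TL_p e y) :
    TL_p e (x + y) := by
  intro w hw
  obtain ⟨N, hN⟩ := hx w hw
  obtain ⟨M, hM⟩ := hy w hw
  refine ⟨max N M, ?_⟩
  rw [add_mul, add_mul]
  exact Submodule.add_mem _ (TL_mono he (le_max_left _ _) hN) (TL_mono he (le_max_right _ _) hM)

theorem TL_mul (he : G.r e = G.s e) {x y : LA G} (hx : TL_p e x) (hy : TL_p e y) :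
    TL_p e (x * y) := by
  intro w hw
  obtain ⟨N, hN⟩ := hy w hw
  obtain ⟨M, hM⟩ := hx _ hN
  refine ⟨N + M, ?_⟩
  have : x * y * w * sp e (N + M) = x * (y * w * sp e N) * sp e M := by
    rw [sp_add he]
    simp only [mul_assoc]
  rw [this]
  exact hM

theorem TL_smul {x : LA G} (c : ℂ) (hx : TL_p e x) : TL_p e (c • x) := by
  intro w hw
  obtain ⟨N, hN⟩ := hx w hw
  refine ⟨N, ?_⟩
  rw [smul_mul_assoc, smul_mul_assoc]
  exact Submodule.smul_mem _ _ hN

theorem TL_vx (he : G.r e = G.s e) (a : G.V) : TL_p e (vx a) := by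
  refine TL_p_of he fun l hl => ⟨0, ?_⟩
  by_cases h : a = G.st l (G.s e)
  · rw [h, vx_mul_pe]
    exact TL_S_mul_sp he (TL_pe_mem hl) 0
  · rw [vx_mul_pe_ne h, zero_mul]
    exact Submodule.zero_mem _

theorem TL_ed (he : G.r e = G.s e) (f : G.Ed) : TL_p e (ed f) := by
  refine TL_p_of he fun l hl => ⟨0, ?_⟩
  by_cases h : G.r f = G.st l (G.s e)
  · exact TL_S_mul_sp he (TL_pe_mem (l := f :: l) ⟨h, hl⟩) 0
  · rw [ed_mul_pe_ne h, zero_mul]
    exact Submodule.zero_mem _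

theorem TL_star_ed_pe (f : G.Ed) {l : List G.Ed} (hl : G.IsP l (G.s e)) (hne : l ≠ []) :
    star (ed f) * pe l (G.s e) ∈ TL_S e := by
  cases l with
  | nil => exact absurd rfl hne
  | cons g l =>
    change star (ed f) * (ed g * pe l (G.s e)) ∈ TL_S e
    by_cases h : f = g
    · subst h
      rw [← mul_assoc, star_ed_mul_ed, hl.1, vx_mul_pe]
      exact TL_pe_mem hl.2
    · rw [← mul_assoc, star_ed_mul_ed_ne h, zero_mul]
      exact Submodule.zero_mem _

theorem TL_star_ed (he : G.r e = G.s e) (f : G.Ed) : TL_p e (star (ed f)) := by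
  refine TL_p_of he fun l hl => ⟨1, ?_⟩
  have h1 := TL_isP_rep (G := G) he 1
  have h2 : pe l (G.s e) * sp e 1 = pe (l ++ List.replicate 1 e) (G.s e) := by
    rw [TL_pe_append, h1.2]
    rfl
  rw [mul_assoc, h2]
  refine TL_star_ed_pe f (TL_isP_append ?_ h1.1) (by simp)
  rw [h1.2]
  exact hl

theorem TL_all (he : G.r e = G.s e) (z : LA G) : TL_p e z ∧ TL_p e (star z) := by
  refine LA.induction (p := fun z => TL_p e z ∧ TL_p e (star z)) ?_ ?_ ?_ ?_ ?_ ?_ ?_ z
  · intro a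
    rw [star_vx]
    exact ⟨TL_vx he a, TL_vx he a⟩
  · intro f
    exact ⟨TL_ed he f, TL_star_ed he f⟩
  · have h0 : TL_p e (0 : LA G) := fun w _ => ⟨0, by
      rw [zero_mul, zero_mul]
      exact Submodule.zero_mem _⟩
    rw [star_zero]
    exact ⟨h0, h0⟩
  · intro x y hx hy
    rw [star_add]
    exact ⟨TL_add he hx.1 hy.1, TL_add he hx.2 hy.2⟩
  · intro x y hx hy
    rw [star_mul]
    exact ⟨TL_mul he hx.1 hy.1, TL_mul he hy.2 hx.2⟩
  · intro c x hx
    rw [star_smul]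
    exact ⟨TL_smul c hx.1, TL_smul _ hx.2⟩
  · intro x hx
    rw [star_star]
    exact ⟨hx.2, hx.1⟩

theorem TL_small (he : G.r e = G.s e) (z : LA G) : ∃ N, z * sp e N ∈ TL_S e := by
  obtain ⟨N, hN⟩ := (TL_all he z).1 (vx (G.s e)) (TL_pe_mem (l := []) trivial)
  refine ⟨N, ?_⟩
  rw [mul_assoc, vx_mul_sp he] at hN
  exact hN

theorem TL_rch {l : List G.Ed} {u : G.V} (h : G.IsP l u) : Rch G (G.st l u) u := by
  induction l with
  | nil => exact ReflTransGen.refl
  | cons g l ih => exact ReflTransGen.head ⟨g, rfl, h.1⟩ (ih h.2)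

theorem TL_closed (hG : LG G) (he : G.r e = G.s e) {l : List G.Ed} (h : G.IsP l (G.s e))
    (hs : G.st l (G.s e) = G.s e) : ∃ n, l = List.replicate n e := by
  induction l with
  | nil => exact ⟨0, rfl⟩
  | cons g l ih =>
    have h1 : G.s g = G.s e := hs
    have h2 : Rch G (G.r g) (G.s e) := by
      rw [h.1]
      exact TL_rch h.2
    have h3 : Rch G (G.s e) (G.r g) := ReflTransGen.single ⟨g, h1, rfl⟩
    have h4 : G.r g = G.s e := (hG.cyc _ _ h3 h2).symm
    have h5 : e = g := hG.one e g he.symm h1 h4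
    obtain ⟨n, hn⟩ := ih h.2 (h.1.symm.trans h4)
    exact ⟨n + 1, by rw [List.replicate_succ, ← hn, ← h5]⟩

theorem small (hG : LG G) (he : G.r e = G.s e) (z : LA G) : ∃ N, z * sp e N ∈
    Submodule.span ℂ {x | ∃ l, G.IsP l (G.s e) ∧ x = pe l (G.s e)} :=
  TL_small he z

theorem small_c (hG : LG G) (he : G.r e = G.s e) {z : LA G} (h : vx (G.s e) * z = z) :
    ∃ (N : ℕ) (q : ℂ[X]), z * sp e N = ev e q := by
  obtain ⟨N, hN⟩ := TL_small he z
  have key : ∀ w ∈ TL_S e, ∃ q : ℂ[X], vx (G.s e) * w = ev e q := by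
    intro w hw
    refine Submodule.span_induction (p := fun w _ => ∃ q : ℂ[X], vx (G.s e) * w = ev e q)
      ?_ ?_ ?_ ?_ hw
    · rintro w ⟨l, hl, rfl⟩
      by_cases hs : G.s e = G.st l (G.s e)
      · obtain ⟨n, rfl⟩ := TL_closed hG he hl hs.symm
        exact ⟨X ^ n, by rw [ev_X_pow]; exact vx_mul_sp he n⟩
      · exact ⟨0, by rw [vx_mul_pe_ne hs, ev_zero]⟩
    · exact ⟨0, by rw [mul_zero, ev_zero]⟩
    · rintro x y _ _ ⟨p, hp⟩ ⟨q, hq⟩
      exact ⟨p + q, by rw [mul_add, hp, hq, ev_add]⟩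
    · rintro c x _ ⟨p, hp⟩
      exact ⟨c • p, by rw [mul_smul_comm, hp, ev_smul]⟩
  obtain ⟨q, hq⟩ := key _ hN
  exact ⟨N, q, by rw [← hq, ← mul_assoc, h]⟩

theorem small_h (hG : LG G) (he : G.r e = G.s e) {h : G.V} (hh : ¬ Rch G h (G.s e)) {z : LA G}
    (hz : vx h * z = z) : ∃ N, z * sp e N = 0 := by
  obtain ⟨N, hN⟩ := TL_small he z
  have key : ∀ w ∈ TL_S e, vx h * w = 0 := by
    intro w hw
    refine Submodule.span_induction (p := fun w _ => vx h * w = 0) ?_ ?_ ?_ ?_ hw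
    · rintro w ⟨l, hl, rfl⟩
      refine vx_mul_pe_ne fun hs => hh ?_
      rw [hs]
      exact TL_rch hl
    · rw [mul_zero]
    · intro x y _ _ hx hy
      rw [mul_add, hx, hy, add_zero]
    · intro c x _ hx
      rw [mul_smul_comm, hx, smul_zero]
  exact ⟨N, by rw [← hz, mul_assoc]; exact key _ hN⟩

end DC56
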