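import Pool.Agent.LibDC56.TI
import Pool.Agent.LibDC56.TL

/-!
[DC56 TY] Calculus of the symbol. `Sy.up`: `z * sp e (N + k) = ev e (q * X ^ k)`. `Sy.unique`: `ev e (q * X ^ N' - q' * X ^ N) = 0`,
`ev_inj`. `Sy.mul`: `z * z' * sp e (N' + N) = z * ev e q' * sp e N = z * sp e N * ev e q'` (powers commute with polynomials).
-/

namespace DC56

open LPA74 Relation Polynomial LaurentPolynomial
open DC29 (LG Rch IsLp MRel Mon mv Le exs wm Cl)

variable {G : Gph} {e : G.Ed}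

theorem TY_toLaurent_mul_X_pow (q : ℂ[X]) (k : ℕ) :
    toLaurent (q * X ^ k) = toLaurent q * T (k : ℤ) := by
  rw [map_mul, Polynomial.toLaurent_X_pow]

theorem TY_T_cancel {p p' : ℂ[T;T⁻¹]} {n : ℤ} (h : p * T n = p' * T n) : p = p' := by
  have h1 := congrArg (fun x => x * T (-n)) h
  simp only [mul_assoc, ← T_add, add_neg_cancel, T_zero, mul_one] at h1
  exact h1

theorem TY_ev_sub (e : G.Ed) (p q : ℂ[X]) : DC56.ev e (p - q) = DC56.ev e p - DC56.ev e q := by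
  have h : DC56.ev e (p - q) + DC56.ev e q = DC56.ev e p := by rw [← ev_add, sub_add_cancel]
  rw [← h, add_sub_cancel_right]

theorem Sy.up (he : G.r e = G.s e) {z : LA G} {p : ℂ[T;T⁻¹]} (h : Sy e z p) :
    ∃ N₀ : ℕ, ∀ N, N₀ ≤ N → ∃ q : ℂ[X], z * sp e N = ev e q ∧ toLaurent q = p * T (N : ℤ) := by
  obtain ⟨N₀, q, h1, h2⟩ := h
  refine ⟨N₀, fun N hN => ?_⟩
  obtain ⟨k, rfl⟩ := Nat.exists_eq_add_of_le hN
  refine ⟨q * X ^ k, ?_, ?_⟩
  · rw [sp_add he, ← mul_assoc, h1, ev_mul he, ev_X_pow]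
  · rw [TY_toLaurent_mul_X_pow, h2, mul_assoc, ← T_add]
    push_cast
    rfl

theorem Sy.unique [Countable G.Ed] (he : G.r e = G.s e) {z : LA G} {p p' : ℂ[T;T⁻¹]}
    (h : Sy e z p) (h' : Sy e z p') : p = p' := by
  obtain ⟨N, hN⟩ := h.up he
  obtain ⟨M, hM⟩ := h'.up he
  obtain ⟨q, h1, h2⟩ := hN (max N M) (le_max_left _ _)
  obtain ⟨q', h1', h2'⟩ := hM (max N M) (le_max_right _ _)
  have h3 : q - q' = 0 := ev_inj he (by rw [TY_ev_sub, ← h1, ← h1', sub_self])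
  rw [sub_eq_zero] at h3
  subst h3
  exact TY_T_cancel (h2.symm.trans h2')

theorem Sy.zero (e : G.Ed) : Sy e 0 0 :=
  ⟨0, 0, by rw [zero_mul, ev_zero], by rw [map_zero, zero_mul]⟩

theorem Sy.of_zero {z : LA G} {N : ℕ} (h : z * sp e N = 0) : Sy e z 0 :=
  ⟨N, 0, by rw [h, ev_zero], by rw [map_zero, zero_mul]⟩

/-- an element with symbol zero is killed by a power -/
theorem Sy.killed (he : G.r e = G.s e) {z : LA G} (h : Sy e z 0) :
    ∃ N₀ : ℕ, ∀ N, N₀ ≤ N → z * sp e N = 0 := by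
  obtain ⟨N₀, hN₀⟩ := h.up he
  refine ⟨N₀, fun N hN => ?_⟩
  obtain ⟨q, h1, h2⟩ := hN₀ N hN
  rw [zero_mul] at h2
  have h3 : q = 0 := Polynomial.toLaurent_injective (by rw [h2, map_zero])
  rw [h1, h3, ev_zero]

theorem Sy.add (he : G.r e = G.s e) {z z' : LA G} {p p' : ℂ[T;T⁻¹]} (h : Sy e z p)
    (h' : Sy e z' p') : Sy e (z + z') (p + p') := by
  obtain ⟨N, hN⟩ := h.up he
  obtain ⟨M, hM⟩ := h'.up he
  obtain ⟨q, h1, h2⟩ := hN (max N M) (le_max_left _ _)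
  obtain ⟨q', h1', h2'⟩ := hM (max N M) (le_max_right _ _)
  exact ⟨max N M, q + q', by rw [add_mul, h1, h1', ev_add], by rw [map_add, h2, h2', add_mul]⟩

theorem Sy.sub (he : G.r e = G.s e) {z z' : LA G} {p p' : ℂ[T;T⁻¹]} (h : Sy e z p)
    (h' : Sy e z' p') : Sy e (z - z') (p - p') := by
  obtain ⟨N, hN⟩ := h.up he
  obtain ⟨M, hM⟩ := h'.up he
  obtain ⟨q, h1, h2⟩ := hN (max N M) (le_max_left _ _)
  obtain ⟨q', h1', h2'⟩ := hM (max N M) (le_max_right _ _)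
  exact ⟨max N M, q - q', by rw [sub_mul, h1, h1', TY_ev_sub],
    by rw [map_sub, h2, h2', sub_mul]⟩

theorem Sy.sum (he : G.r e = G.s e) {ι : Type} (s : Finset ι) {z : ι → LA G}
    {p : ι → ℂ[T;T⁻¹]} (h : ∀ i ∈ s, Sy e (z i) (p i)) : Sy e (∑ i ∈ s, z i) (∑ i ∈ s, p i) := by
  classical
  induction s using Finset.induction_on with
  | empty =>
    rw [Finset.sum_empty, Finset.sum_empty]
    exact Sy.zero e
  | insert a s ha ih =>
    rw [Finset.sum_insert ha, Finset.sum_insert ha]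
    exact Sy.add he (h a (Finset.mem_insert_self _ _))
      (ih fun i hi => h i (Finset.mem_insert_of_mem hi))

theorem Sy.mul (he : G.r e = G.s e) {z z' : LA G} {p p' : ℂ[T;T⁻¹]} (h : Sy e z p)
    (h' : Sy e z' p') : Sy e (z * z') (p * p') := by
  obtain ⟨N, q, h1, h2⟩ := h
  obtain ⟨M, q', h1', h2'⟩ := h'
  refine ⟨M + N, q * q', ?_, ?_⟩
  · have hc : DC56.ev e q' * sp e N = sp e N * DC56.ev e q' := by
      rw [← ev_X_pow, ← ev_mul he, ← ev_mul he, mul_comm]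
    calc z * z' * sp e (M + N) = z * (z' * sp e M * sp e N) := by
          rw [sp_add he]
          simp only [mul_assoc]
      _ = z * (sp e N * DC56.ev e q') := by rw [h1', hc]
      _ = DC56.ev e q * DC56.ev e q' := by rw [← mul_assoc, h1]
      _ = DC56.ev e (q * q') := (ev_mul he q q').symm
  · rw [map_mul, h2, h2']
    push_cast
    rw [T_add]
    ring

/-- if `z'` is killed then so is `z z'` -/
theorem Sy.mul_zero {z z' : LA G} (h' : Sy e z' 0) (he : G.r e = G.s e) : Sy e (z * z') 0 := by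
  obtain ⟨N, hN⟩ := h'.killed he
  refine Sy.of_zero (N := N) ?_
  rw [mul_assoc, hN N le_rfl, MulZeroClass.mul_zero]

theorem Sy.ev (he : G.r e = G.s e) (q : ℂ[X]) : Sy e (DC56.ev e q) (toLaurent q) := by
  refine ⟨0, q, ?_, ?_⟩
  · rw [sp_zero, ev_mul_vx]
  · rw [Nat.cast_zero, T_zero, mul_one]

theorem Sy.star_sp (he : G.r e = G.s e) (n : ℕ) : Sy e (star (sp e n)) (T (-(n : ℤ))) := by
  refine ⟨n, 1, ?_, ?_⟩
  · rw [star_sp_mul_sp he, ev_one]
  · rw [map_one, ← T_add, neg_add_cancel, T_zero]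

theorem Sy.exists_c (hG : LG G) (he : G.r e = G.s e) {z : LA G} (h : vx (G.s e) * z = z) :
    ∃ p, Sy e z p := by
  obtain ⟨N, q, h1⟩ := small_c hG he h
  refine ⟨toLaurent q * T (-(N : ℤ)), N, q, h1, ?_⟩
  rw [mul_assoc, ← T_add, neg_add_cancel, T_zero, mul_one]

theorem Sy.h (hG : LG G) (he : G.r e = G.s e) {h : G.V} (hh : ¬ Rch G h (G.s e)) {z : LA G}
    (hz : vx h * z = z) : Sy e z 0 := by
  obtain ⟨N, hN⟩ := small_h hG he hh hz
  exact Sy.of_zero hN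

end DC56
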