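import Pool.Agent.LibDC56.TG0
import Pool.Agent.LibDC56.TPa
import Pool.Agent.LibDC56.TY
import Pool.Agent.LibLPA74.PI

/-!
[DC56 TG3] GEN, `u` a loop vertex.
-/

namespace DC56

open LPA74 Relation Matrix
open DC29 (LG Rch IsLp MRel Mon mv Le exs wm Cl)
open LaurentPolynomial (T)

variable {G : Gph}

/-- the scalar matrix `T n` -/
noncomputable abbrev DT (κ : Type) [DecidableEq κ] (n : ℤ) :
    Matrix κ κ (LaurentPolynomial ℂ) := diagonal fun _ => T n

/-- the scalar matrix `z` -/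
noncomputable abbrev DS (κ : Type) [DecidableEq κ] (z : LA G) : Matrix κ κ (LA G) :=
  diagonal fun _ => z

theorem DT_apply (κ : Type) [DecidableEq κ] (n : ℤ) (i j : κ) :
    DT κ n i j = if i = j then T n else 0 := diagonal_apply _ _ _

theorem DS_apply (κ : Type) [DecidableEq κ] (z : LA G) (i j : κ) :
    DS κ z i j = if i = j then z else 0 := diagonal_apply _ _ _

/-- the sum of the projections `w w*` of the family `pi_sp` -/
theorem sum_pi_sp (hG : LG G) {e : G.Ed} (he : G.r e = G.s e) (K : ℕ) :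
    ∑ p : Fin K × {f // f ∈ exs hG (G.s e)},
      (sp e p.1 * ed p.2.1) * star (sp e p.1 * ed p.2.1) =
      vx (G.s e) - sp e K * star (sp e K) := by
  rw [vx_sub_sp hG he K, Fintype.sum_prod_type, Finset.sum_range]
  refine Finset.sum_congr rfl fun m _ => ?_
  exact Finset.sum_coe_sort (exs hG (G.s e)) fun f => sp e m * ed f * star (sp e m * ed f)

/-- symbols of matrix products -/
theorem Sy.matMul {e : G.Ed} (he : G.r e = G.s e) {ι κ ρ : Type} [Fintype κ]
    {x : Matrix ι κ (LA G)} {y : Matrix κ ρ (LA G)} {P : Matrix ι κ (LaurentPolynomial ℂ)}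
    {Q : Matrix κ ρ (LaurentPolynomial ℂ)} (hx : ∀ i j, Sy e (x i j) (P i j))
    (hy : ∀ i j, Sy e (y i j) (Q i j)) (i : ι) (j : ρ) : Sy e ((x * y) i j) ((P * Q) i j) := by
  rw [Matrix.mul_apply, Matrix.mul_apply]
  exact Sy.sum he _ fun l _ => Sy.mul he (hx i l) (hy l j)

theorem exists_max {ι κ : Type} [Fintype ι] [Fintype κ] {p : ι → κ → ℕ → Prop}
    (h : ∀ i j, ∃ N₀ : ℕ, ∀ N, N₀ ≤ N → p i j N) : ∃ N : ℕ, ∀ i j, p i j N := by
  choose f hf using h
  refine ⟨Finset.univ.sup fun i => Finset.univ.sup fun j => f i j, fun i j => hf i j _ ?_⟩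
  exact (Finset.le_sup (f := fun j => f i j) (Finset.mem_univ j)).trans
    (Finset.le_sup (f := fun i => Finset.univ.sup fun j => f i j) (Finset.mem_univ i))

/-- `u` is a loop vertex -/
theorem gen3 [DecidableEq G.V] [Countable G.Ed] (hG : LG G) {X R : Finset G.V} (hC : Clo X R)
    {u : G.V} (hu : Tp X u) (ih : GEN (X.erase u) (R.erase u)) (huR : u ∈ R) (hl : IsLp G u) :
    GEN X R := by
  obtain ⟨e, rfl, he⟩ := hl
  intro ι _ _ a x ha hx h1 h2 hxx
  have hce : ed e ∈ StA R := ed_mem_StA huR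
  have hcv : vx (G.s e) ∈ StA R := vx_mem_StA R _
  have hx1 : ∀ i j, vx (a i) * x i j = x i j := fun i j => by rw [← dg_mul_apply, h1]
  have hx2 : ∀ i j, x i j * vx (a j) = x i j := fun i j => by rw [← mul_dg_apply, h2]
  -- the symbols
  have hsy : ∀ i j, ∃ p, Sy e (x i j) p := by
    intro i j
    by_cases hi : a i = G.s e
    · exact Sy.exists_c hG he (by rw [← hi]; exact hx1 i j)
    · exact ⟨0, Sy.h hG he (fun h => hi (hu.2 _ (ha i) h)) (hx1 i j)⟩
  obtain ⟨P, hP⟩ : ∃ P : Matrix ι ι (LaurentPolynomial ℂ), ∀ i j, Sy e (x i j) (P i j) := by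
    choose P hP using hsy
    exact ⟨P, hP⟩
  have hPP : P * P = P := by
    ext1 i j
    have e1 := Sy.matMul he hP hP i j
    rw [hxx] at e1
    exact Sy.unique he e1 (hP i j)
  haveI := laurent_pid
  obtain ⟨k, M, N, hMN, hNM⟩ := split_idem P hPP
  obtain ⟨α, M', hM'⟩ := clear_den M
  obtain ⟨β, N', hN'⟩ := clear_den N
  -- the first lifts
  set φ₀ : Matrix ι (Fin k) (LA G) := x * M'.map (ev e) with hφ₀
  set ψ₀ : Matrix (Fin k) ι (LA G) := N'.map (ev e) * x with hψ₀
  have sM : ∀ i j, Sy e ((M'.map (ev e)) i j) ((M'.map Polynomial.toLaurent) i j) :=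
    fun i j => Sy.ev he _
  have sN : ∀ i j, Sy e ((N'.map (ev e)) i j) ((N'.map Polynomial.toLaurent) i j) :=
    fun i j => Sy.ev he _
  have tM : M'.map Polynomial.toLaurent = M * DT (Fin k) α := by
    ext1 i j
    rw [Matrix.map_apply, hM', Matrix.mul_diagonal]
  have tN : N'.map Polynomial.toLaurent = DT (Fin k) β * N := by
    ext1 i j
    rw [Matrix.map_apply, hN', Matrix.diagonal_mul, mul_comm]
  have sφ : ∀ i j, Sy e (φ₀ i j) ((M * DT (Fin k) α) i j) := by
    intro i j
    have e1 := Sy.matMul he hP sM i j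
    rwa [tM, ← Matrix.mul_assoc, ← hMN, Matrix.mul_assoc M, hNM, Matrix.mul_one] at e1
  have sψ : ∀ i j, Sy e (ψ₀ i j) ((DT (Fin k) β * N) i j) := by
    intro i j
    have e1 := Sy.matMul he sN hP i j
    rwa [tN, Matrix.mul_assoc, ← hMN, ← Matrix.mul_assoc N, hNM, Matrix.one_mul] at e1
  -- the product
  have sψφ : ∀ i j, Sy e ((ψ₀ * φ₀) i j)
      ((1 : Matrix (Fin k) (Fin k) (LaurentPolynomial ℂ)) i j * T ((α + β : ℕ) : ℤ)) := by
    intro i j
    have e1 := Sy.matMul he sψ sφ i j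
    have e2 : (DT (Fin k) β * N *
        (M * DT (Fin k) α)) i j =
        (1 : Matrix (Fin k) (Fin k) (LaurentPolynomial ℂ)) i j * T ((α + β : ℕ) : ℤ) := by
      rw [Matrix.mul_assoc, ← Matrix.mul_assoc N, hNM, Matrix.one_mul, Matrix.diagonal_mul,
        DT_apply, Matrix.one_apply]
      split_ifs
      · rw [one_mul, ← LaurentPolynomial.T_add]
        congr 1
        push_cast
        ring
      · rw [mul_zero, zero_mul]
    rwa [e2] at e1
  obtain ⟨L, hL⟩ := exists_max fun i j => (sψφ i j).up he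
  have hLz : ∀ i j, (ψ₀ * φ₀) i j * sp e L = if i = j then sp e (α + β + L) else 0 := by
    intro i j
    obtain ⟨q, hq, hq'⟩ := hL i j
    rw [hq]
    rw [Matrix.one_apply] at hq'
    split_ifs at hq' ⊢ with hij
    · have e1 : q = Polynomial.X ^ (α + β + L) := by
        apply Polynomial.toLaurent_injective
        rw [hq', Polynomial.toLaurent_X_pow, one_mul, ← LaurentPolynomial.T_add]
        push_cast
        rfl
      rw [e1, ev_X_pow]
    · have e1 : q = 0 := by
        apply Polynomial.toLaurent_injective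
        rw [hq', map_zero, zero_mul, zero_mul]
      rw [e1, ev_zero]
  set K : ℕ := α + β + L with hK
  set φ : Matrix ι (Fin k) (LA G) := φ₀ * DS (Fin k) (sp e L) with hφ
  set ψ : Matrix (Fin k) ι (LA G) := DS (Fin k) (star (sp e K)) * ψ₀ with hψ
  have hsp : ∀ n, sp e n ∈ StA R := sp_mem hce hcv
  have dmem : ∀ (κ : Type) [DecidableEq κ] (z : LA G), z ∈ StA R →
      MIn (StA R) (DS κ z) := by
    intro κ _ z hz i j
    rw [DS_apply]
    split_ifs
    · exact hz
    · exact zero_mem _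
  have mφ : MIn (StA R) φ :=
    (hx.mul (fun i j => ev_mem hce hcv _)).mul (dmem _ _ (hsp L))
  have mψ : MIn (StA R) ψ :=
    (dmem _ _ (star_mem (hsp K))).mul (MIn.mul (x := N'.map (ev e))
      (fun i j => ev_mem hce hcv _) hx)
  have e1 : ψ * φ = dg (fun _ : Fin k => G.s e) := by
    rw [hψ, hφ, Matrix.mul_assoc, ← Matrix.mul_assoc ψ₀]
    have e3 : ψ₀ * φ₀ * DS (Fin k) (sp e L) = DS (Fin k) (sp e K) := by
      ext1 i j
      rw [Matrix.mul_diagonal, hLz, DS_apply]
    rw [e3, Matrix.diagonal_mul_diagonal, dg]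
    congr 1
    funext i
    exact star_sp_mul_sp he K
  have e2 : x * φ = φ := by
    rw [hφ, hφ₀, ← Matrix.mul_assoc, ← Matrix.mul_assoc, hxx]
  have e3 : ψ * x = ψ := by
    rw [hψ, hψ₀, Matrix.mul_assoc, Matrix.mul_assoc, hxx]
  have e4 : φ * dg (fun _ : Fin k => G.s e) = φ := by
    rw [hφ, Matrix.mul_assoc, dg, Matrix.diagonal_mul_diagonal]
    congr 2
    funext i
    exact sp_mul_vx e L
  have e5 : dg (fun _ : Fin k => G.s e) * ψ = ψ := by
    rw [hψ, ← Matrix.mul_assoc, dg, Matrix.diagonal_mul_diagonal]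
    congr 2
    funext i
    have e6 := congrArg star (sp_mul_vx e K)
    rwa [star_mul, star_vx] at e6
  -- the rest is killed
  have sd : ∀ (κ : Type) [DecidableEq κ] (n : ℕ) (i j : κ),
      Sy e (DS κ (sp e n) i j)
        (DT κ n i j) := by
    intro κ _ n i j
    rw [DS_apply, DT_apply]
    split_ifs
    · have e6 := Sy.ev he ((Polynomial.X : Polynomial ℂ) ^ n)
      rwa [ev_X_pow, Polynomial.toLaurent_X_pow] at e6
    · exact Sy.zero e
  have sd' : ∀ (κ : Type) [DecidableEq κ] (n : ℕ) (i j : κ),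
      Sy e (DS κ (star (sp e n)) i j)
        (DT κ (-(n : ℤ)) i j) := by
    intro κ _ n i j
    rw [DS_apply, DT_apply]
    split_ifs
    · exact Sy.star_sp he n
    · exact Sy.zero e
  have s1 : ∀ i j, Sy e ((φ * ψ) i j) (P i j) := by
    intro i j
    have e6 := Sy.matMul he (Sy.matMul he sφ (sd (Fin k) L)) (Sy.matMul he (sd' (Fin k) K) sψ) i j
    have e7 : M * DT (Fin k) α * DT (Fin k) L *
        (DT (Fin k) (-(K : ℤ)) * (DT (Fin k) β * N)) = P := by
      rw [← hMN]
      simp only [Matrix.mul_assoc]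
      congr 1
      simp only [← Matrix.mul_assoc, Matrix.diagonal_mul_diagonal]
      have e8 : (diagonal fun _ : Fin k =>
          T (α : ℤ) * (T (L : ℤ) * (T (-(K : ℤ)) * T (β : ℤ))) :
          Matrix _ _ (LaurentPolynomial ℂ)) = 1 := by
        rw [← Matrix.diagonal_one]
        congr 1
        funext i
        rw [← LaurentPolynomial.T_add, ← LaurentPolynomial.T_add, ← LaurentPolynomial.T_add,
          ← LaurentPolynomial.T_zero]
        congr 1
        rw [hK]
        push_cast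
        ring
      rw [e8, Matrix.one_mul]
    rw [e7] at e6
    exact e6
  have s2 : ∀ i j, ∃ N₀ : ℕ, ∀ N, N₀ ≤ N → (x - φ * ψ) i j * sp e N = 0 := by
    intro i j
    refine Sy.killed he ?_
    have e6 := Sy.sub he (hP i j) (s1 i j)
    rwa [sub_self] at e6
  obtain ⟨m, hm⟩ := exists_max s2
  refine gen_step hG hC hu ih ha hx h1 h2 hxx mφ mψ e1 e2 e3 e4 e5 (pi_sp hG he m huR) ?_ ?_
    (Or.inr (Or.inr ⟨e, rfl, he⟩))
  · rintro ⟨p, f, hf⟩
    rw [mem_exs] at hf
    exact Finset.mem_erase.2 ⟨hf.2, hC.succ f (by rw [hf.1]; exact huR)⟩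
  · intro i j hj
    rw [sum_pi_sp hG he m, mul_sub, ← mul_assoc, hm i j, zero_mul, sub_zero]
    have hψa : ψ * dg a = ψ := by
      rw [← e3, Matrix.mul_assoc, h2]
    have e6 : (x - φ * ψ) * dg a = x - φ * ψ := by
      rw [Matrix.sub_mul, h2, Matrix.mul_assoc, hψa]
    have e7 := mul_dg_apply a (x - φ * ψ) i j
    rw [e6, hj] at e7
    exact e7.symm

end DC56
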