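import Pool.Agent.LibDC56.TJ0
import Pool.Agent.LibDC56.TPa
import Pool.Agent.LibLPA74.R1

/-!
[DC56 TJ1] INJ, no edges out of `u`. `inj_red`. Let `y`, `z` be as in the definition of `ME`. By `StA_scalar` the entries
`y (inl i) (inl j)` (`= vx u * y _ _ * vx u`) are `P i j • vx u`, similarly `z`, `Q`; by `StA_off` the off-diagonal blocks are zero. So `P Q = 1`, `Q P = 1`
(`vx_ne_zero`), `k = l` (`card_eq_of_inv`), and the blocks on the `inr` indices give `ME (StA R) (dg d) (dg d')`; `ME_erase`, `ih`.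
-/

namespace DC56

open LPA74 Relation Matrix
open DC29 (LG Rch IsLp MRel Mon mv Le exs wm Cl)

variable {G : Gph}

theorem TJ1_smul (u : G.V) (p q : ℂ) :
    (p • vx u : LA G) * (q • vx u) = (p * q) • (vx u : LA G) := by
  rw [smul_mul_assoc, mul_smul_comm, smul_smul, vx_mul_self]

theorem TJ1_c {ι κ : Type} [Fintype ι] [DecidableEq ι] [Fintype κ] [DecidableEq κ]
    {a : ι → G.V} {b : κ → G.V} {y : Matrix ι κ (LA G)} (h3 : dg a * y = y)
    (h4 : y * dg b = y) (i : ι) (j : κ) : y i j = vx (a i) * y i j * vx (b j) := by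
  rw [← dg_mul_apply, h3, ← mul_dg_apply, h4]

/-- the corner at `u` of a product -/
theorem TJ1_prod [Countable G.Ed] {u : G.V} {k l m n : ℕ} {d : Fin m → G.V}
    {y : Matrix (Fin k ⊕ Fin m) (Fin l ⊕ Fin n) (LA G)}
    {z : Matrix (Fin l ⊕ Fin n) (Fin k ⊕ Fin m) (LA G)}
    (h : y * z = dg (Sum.elim (fun _ : Fin k => u) d)) {P : Matrix (Fin k) (Fin l) ℂ}
    {Q : Matrix (Fin l) (Fin k) ℂ}
    (hP : ∀ i j, y (Sum.inl i) (Sum.inl j) = P i j • vx u)
    (hQ : ∀ i j, z (Sum.inl i) (Sum.inl j) = Q i j • vx u)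
    (h0 : ∀ i j, y (Sum.inl i) (Sum.inr j) = 0) : P * Q = 1 := by
  ext i j
  have h1 := congrFun (congrFun h (Sum.inl i)) (Sum.inl j)
  rw [Matrix.mul_apply, Fintype.sum_sum_type] at h1
  have h2 : ∑ x : Fin n, y (Sum.inl i) (Sum.inr x) * z (Sum.inr x) (Sum.inl j) = 0 :=
    Finset.sum_eq_zero fun x _ => by rw [h0, zero_mul]
  have h3 : ∑ x : Fin l, y (Sum.inl i) (Sum.inl x) * z (Sum.inl x) (Sum.inl j) =
      (P * Q) i j • (vx u : LA G) := by
    rw [Matrix.mul_apply, Finset.sum_smul]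
    exact Finset.sum_congr rfl fun x _ => by rw [hP, hQ, TJ1_smul]
  rw [h2, h3, add_zero] at h1
  have h4 : dg (Sum.elim (fun _ : Fin k => u) d) (Sum.inl i) (Sum.inl j) =
      ((1 : Matrix (Fin k) (Fin k) ℂ) i j) • (vx u : LA G) := by
    by_cases hij : i = j
    · subst hij
      rw [Matrix.one_apply_eq, one_smul]
      exact Matrix.diagonal_apply_eq _ _
    · rw [Matrix.one_apply_ne hij, zero_smul]
      exact Matrix.diagonal_apply_ne _ fun h => hij (Sum.inl_injective h)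
  rw [h4] at h1
  have h5 : ((P * Q) i j - (1 : Matrix (Fin k) (Fin k) ℂ) i j) • (vx u : LA G) = 0 := by
    rw [sub_smul, h1, sub_self]
  rcases smul_eq_zero.1 h5 with h6 | h6
  · exact sub_eq_zero.1 h6
  · exact absurd h6 (vx_ne_zero u)

/-- the other corner of a product -/
theorem TJ1_block {u : G.V} {k l m n : ℕ} {d : Fin m → G.V}
    {y : Matrix (Fin k ⊕ Fin m) (Fin l ⊕ Fin n) (LA G)}
    {z : Matrix (Fin l ⊕ Fin n) (Fin k ⊕ Fin m) (LA G)}
    (h : y * z = dg (Sum.elim (fun _ : Fin k => u) d))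
    (h0 : ∀ i j, y (Sum.inr i) (Sum.inl j) = 0) :
    (Matrix.of fun i j => y (Sum.inr i) (Sum.inr j)) *
      (Matrix.of fun i j => z (Sum.inr i) (Sum.inr j)) = dg d := by
  ext i j
  have h1 := congrFun (congrFun h (Sum.inr i)) (Sum.inr j)
  rw [Matrix.mul_apply, Fintype.sum_sum_type] at h1
  have h2 : ∑ x : Fin l, y (Sum.inr i) (Sum.inl x) * z (Sum.inl x) (Sum.inr j) = 0 :=
    Finset.sum_eq_zero fun x _ => by rw [h0, zero_mul]
  rw [h2, zero_add] at h1
  rw [Matrix.mul_apply]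
  refine h1.trans ?_
  by_cases hij : i = j
  · subst hij
    have e1 : dg d i i = vx (d i) := Matrix.diagonal_apply_eq _ _
    have e2 : dg (Sum.elim (fun _ : Fin k => u) d) (Sum.inr i) (Sum.inr i) = vx (d i) :=
      Matrix.diagonal_apply_eq _ _
    rw [e1, e2]
  · exact (Matrix.diagonal_apply_ne _ fun h => hij (Sum.inr_injective h)).trans
      (Matrix.diagonal_apply_ne _ hij).symm

/-- no edges out of `u` in the stage -/
theorem inj1 [DecidableEq G.V] [Countable G.Ed] (hG : LG G) {X R : Finset G.V} (hC : Clo X R)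
    {u : G.V} (hu : Tp X u) (ih : INJ (X.erase u) (R.erase u)) (huR : u ∉ R) : INJ X R := by
  refine inj_red (u := u) fun k l m n d d' hd hd' h => ?_
  obtain ⟨y, z, hy, hz, h1, h2, h3, h4, h5, h6⟩ := h
  have hP : ∀ i j, ∃ p : ℂ, y (Sum.inl i) (Sum.inl j) = p • vx u := by
    intro i j
    obtain ⟨p, hp⟩ := StA_scalar huR (hy (Sum.inl i) (Sum.inl j))
    exact ⟨p, (TJ1_c h3 h4 (Sum.inl i) (Sum.inl j)).trans hp⟩
  have hQ : ∀ i j, ∃ p : ℂ, z (Sum.inl i) (Sum.inl j) = p • vx u := by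
    intro i j
    obtain ⟨p, hp⟩ := StA_scalar huR (hz (Sum.inl i) (Sum.inl j))
    exact ⟨p, (TJ1_c h5 h6 (Sum.inl i) (Sum.inl j)).trans hp⟩
  choose P hP using hP
  choose Q hQ using hQ
  have hy0 : ∀ i j, y (Sum.inl i) (Sum.inr j) = 0 := fun i j =>
    (TJ1_c h3 h4 (Sum.inl i) (Sum.inr j)).trans
      (StA_off hG hu huR (hy _ _) (hd' j).1 (hd' j).2).1
  have hy0' : ∀ i j, y (Sum.inr i) (Sum.inl j) = 0 := fun i j =>
    (TJ1_c h3 h4 (Sum.inr i) (Sum.inl j)).trans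
      (StA_off hG hu huR (hy _ _) (hd i).1 (hd i).2).2
  have hz0 : ∀ i j, z (Sum.inl i) (Sum.inr j) = 0 := fun i j =>
    (TJ1_c h5 h6 (Sum.inl i) (Sum.inr j)).trans
      (StA_off hG hu huR (hz _ _) (hd j).1 (hd j).2).1
  have hz0' : ∀ i j, z (Sum.inr i) (Sum.inl j) = 0 := fun i j =>
    (TJ1_c h5 h6 (Sum.inr i) (Sum.inl j)).trans
      (StA_off hG hu huR (hz _ _) (hd' i).1 (hd' i).2).2
  have hPQ : (Matrix.of P) * (Matrix.of Q) = 1 :=
    TJ1_prod (P := Matrix.of P) (Q := Matrix.of Q) h1 hP hQ hy0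
  have hQP : (Matrix.of Q) * (Matrix.of P) = 1 :=
    TJ1_prod (P := Matrix.of Q) (Q := Matrix.of P) h2 hQ hP hz0
  have hkl := card_eq_of_inv hPQ hQP
  have hME : ME (StA R) (dg d) (dg d') := by
    refine ⟨Matrix.of fun i j => y (Sum.inr i) (Sum.inr j),
      Matrix.of fun i j => z (Sum.inr i) (Sum.inr j), fun i j => hy _ _, fun i j => hz _ _,
      TJ1_block h1 hy0', TJ1_block h2 hz0', ?_, ?_, ?_, ?_⟩
    · ext i j
      have h7 := congrFun (congrFun h3 (Sum.inr i)) (Sum.inr j)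
      rw [dg_mul_apply] at h7 ⊢
      exact h7
    · ext i j
      have h7 := congrFun (congrFun h4 (Sum.inr i)) (Sum.inr j)
      rw [mul_dg_apply] at h7 ⊢
      exact h7
    · ext i j
      have h7 := congrFun (congrFun h5 (Sum.inr i)) (Sum.inr j)
      rw [dg_mul_apply] at h7 ⊢
      exact h7
    · ext i j
      have h7 := congrFun (congrFun h6 (Sum.inr i)) (Sum.inr j)
      rw [mul_dg_apply] at h7 ⊢
      exact h7
  have ha : ∀ i, d i ∈ X.erase u := fun i => Finset.mem_erase.2 ⟨(hd i).2, (hd i).1⟩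
  have hb : ∀ i, d' i ∈ X.erase u := fun i => Finset.mem_erase.2 ⟨(hd' i).2, (hd' i).1⟩
  have h8 := ih (Fin m) (Fin n) d d' ha hb (ME_erase hG hu ha hb hME)
  rw [hkl, h8]

end DC56
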