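import Pool.Agent.LibDC56.TG0

/-!
[DC56 TG2] GEN, `u` regular without loop. `gen_step` with `k = 0`, `Λ = {f // f ∈ oe hG u}`, `w f = ed f`, `r f = G.r f`,
`vx u = ∑ f, ed f * star (ed f)` (`vx_eq_sum`, LibLPA74/Api; `mem_oe`).
-/

namespace DC56

open LPA74 Relation Matrix
open DC29 (LG Rch IsLp MRel Mon mv Le exs wm Cl)

variable {G : Gph}

/-- the edges out of a vertex of `R` as a family of partial isometries -/
theorem pi_oe (hG : LG G) {R : Finset G.V} {u : G.V} (hu : u ∈ R) :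
    PI (StA R) u (fun f : {f // f ∈ oe hG u} => ed f.1) (fun f => G.r f.1) := by
  constructor
  · intro f
    apply ed_mem_StA
    rw [mem_oe.1 f.2]
    exact hu
  · intro f f'
    by_cases h : f = f'
    · rw [if_pos h, ← h]
      exact star_ed_mul_ed f.1
    · rw [if_neg h]
      exact star_ed_mul_ed_ne fun h' => h (Subtype.ext h')
  · intro f
    exact ed_mul_vx f.1
  · intro f
    have h := vx_mul_ed f.1
    rwa [mem_oe.1 f.2] at h

theorem sum_oe (hG : LG G) {u : G.V} (hu : IsReg G u) :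
    vx u = ∑ f : {f // f ∈ oe hG u}, (ed f.1 : LA G) * star (ed f.1) := by
  have h0 : (oe hG u).Nonempty := by
    obtain ⟨f, hf⟩ := hu
    exact ⟨f, mem_oe.2 hf⟩
  rw [vx_eq_sum u (oe hG u) h0 fun f => mem_oe]
  exact (Finset.sum_coe_sort (oe hG u) fun f => (ed f : LA G) * star (ed f)).symm

/-- `u` is regular without loop -/
theorem gen2 [DecidableEq G.V] (hG : LG G) {X R : Finset G.V} (hC : Clo X R) {u : G.V}
    (hu : Tp X u) (ih : GEN (X.erase u) (R.erase u)) (huR : u ∈ R) (hl : ¬ IsLp G u) :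
    GEN X R := by
  intro ι _ _ a x ha hx h1 h2 hxx
  have hreg : IsReg G u := hC.reg u huR
  refine gen_step hG hC hu ih ha hx h1 h2 hxx (k := 0) (φ := Matrix.of fun _ j => j.elim0)
    (ψ := Matrix.of fun j _ => j.elim0) (fun _ j => j.elim0) (fun j _ => j.elim0) ?_ ?_ ?_ ?_ ?_
    (pi_oe hG huR) ?_ ?_ (Or.inl rfl)
  · ext i j; exact i.elim0
  · ext i j; exact j.elim0
  · ext i j; exact i.elim0
  · ext i j; exact j.elim0
  · ext i j; exact i.elim0
  · intro f
    have hs := mem_oe.1 f.2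
    refine Finset.mem_erase.2 ⟨fun h => hl ⟨f.1, hs, h⟩, ?_⟩
    exact hC.succ f.1 (by rw [hs]; exact huR)
  · intro i j hj
    rw [← sum_oe hG hreg, Matrix.sub_apply, Matrix.mul_apply, Finset.univ_eq_empty,
      Finset.sum_empty, sub_zero]
    have h3 := congrFun (congrFun h2 i) j
    rw [mul_dg_apply, hj] at h3
    exact h3

end DC56
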