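import Pool.Agent.LibDC56.TJ0
import Pool.Agent.LibDC56.TG2

/-!
[DC56 TJ2] INJ, `u` regular without loop. `compress_dg` for `a` and `b` with `pi_oe`, `sum_oe` (TG2.lean): `ME` of families in `X.erase u`, `ME_erase`, `ih`;
`∑ l, mv (r l) = mv u` by `mk_rs`/`mv_eq` (MD, NF).
-/

namespace DC56

open LPA74 Relation Matrix
open DC29 (LG Rch IsLp MRel Mon mv Le exs wm Cl)

variable {G : Gph}

/-- the vertex `u` in a family is replaced by the ranges of the edges out of `u` -/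
theorem TJ2_red (hG : LG G) {X R : Finset G.V} [DecidableEq G.V] (hC : Clo X R) {u : G.V}
    (huR : u ∈ R) (hl : ¬ IsLp G u) {ι : Type} [Fintype ι] [DecidableEq ι] (a : ι → G.V)
    (ha : ∀ i, a i ∈ X) : ∃ (n : ℕ) (b : Fin n → G.V), (∀ j, b j ∈ X.erase u) ∧
      ME (StA R) (dg a) (dg b) ∧ ∑ i, mv (a i) = ∑ j, mv (b j) := by
  classical
  have hreg : IsReg G u := hC.reg u huR
  obtain ⟨n, b, hb, hME, hsum⟩ := compress_dg (pi_oe hG huR) (vx_mem_StA R) (sum_oe hG hreg) a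
  refine ⟨n, b, fun j => ?_, hME, ?_⟩
  · rcases hb j with ⟨i, hi, hj⟩ | ⟨f, hj⟩
    · rw [hj]
      exact Finset.mem_erase.2 ⟨hi, ha i⟩
    · have hs : G.s f.1 = u := mem_oe.1 f.2
      rw [hj]
      refine Finset.mem_erase.2 ⟨fun h => hl ⟨f.1, hs, h⟩, hC.succ f.1 ?_⟩
      rw [hs]
      exact huR
  · rw [hsum]
    obtain ⟨f, hf⟩ := hreg
    have h1 : ∑ l : {f // f ∈ oe hG u}, mv (G.r l.1) = mv u := by
      rw [mv_eq u (oe hG u) ⟨f, mem_oe.2 hf⟩ (fun g => mem_oe)]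
      exact Finset.sum_coe_sort (oe hG u) fun f => mv (G.r f)
    refine Finset.sum_congr rfl fun i _ => ?_
    by_cases hi : a i = u
    · rw [if_pos hi, h1, hi]
    · rw [if_neg hi]

/-- `u` is regular without loop -/
theorem inj2 [DecidableEq G.V] (hG : LG G) {X R : Finset G.V} (hC : Clo X R) {u : G.V}
    (hu : Tp X u) (ih : INJ (X.erase u) (R.erase u)) (huR : u ∈ R) (hl : ¬ IsLp G u) :
    INJ X R := by
  intro ι κ _ _ _ _ a b ha hb hab
  obtain ⟨n, a', ha', hM, hs⟩ := TJ2_red hG hC huR hl a ha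
  obtain ⟨n', b', hb', hM', hs'⟩ := TJ2_red hG hC huR hl b hb
  rw [hs, hs']
  exact ih (Fin n) (Fin n') a' b' ha' hb'
    (ME_erase hG hu ha' hb' ((hM.symm.trans hab).trans hM'))

end DC56
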