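import Mathlib

/-!
[DC56 TPb] ONLY MATHLIB. `det_unit`: `P.det` is a unit of `ℂ[T;T⁻¹]`, so it is `C b * T m` (units of the group ring of `ℤ`; or: `p q = 1`, clear denominators, a
divisor of `X ^ j` in `ℂ[X]` is `C b * X ^ i`, `Polynomial.X` prime: `(dvd_prime_pow ..)`); `toLaurent P'.det = P.det * T (k N)` (`RingHom.map_det`).
`lemmaP`: the complex matrix `P(0)` (`eval 0`) has determinant `0`, so there is `v ≠ 0` with `v ᵥ* P(0) = 0`
(`Matrix.exists_vecMul_eq_zero_iff`); choose `i` with `v i ≠ 0`. Let `B` = the identity matrix with row `i` replaced by `v` (constant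
polynomials): invertible (`det = v i`), inverse `A`. Row `i` of `B * P` vanishes at `0`, so it is `X` times a row: `B P = diag * P'`, and `det B * det P = X * det P'`.
-/

namespace DC56

open Polynomial LaurentPolynomial Matrix

theorem TPb_unit {p : ℂ[X]} {q : ℂ[T;T⁻¹]} (h : toLaurent p * q = 1) :
    ∃ (a : ℂ) (n : ℕ), a ≠ 0 ∧ p = Polynomial.C a * X ^ n := by
  obtain ⟨m, q', hq⟩ := LaurentPolynomial.exists_T_pow q
  have h1 : toLaurent (p * q') = toLaurent (X ^ m : ℂ[X]) := by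
    rw [map_mul, hq, ← mul_assoc, h, one_mul, map_pow, Polynomial.toLaurent_X, T_pow, mul_one]
  have h2 : p * q' = X ^ m := Polynomial.toLaurent_injective h1
  obtain ⟨n, _, hn⟩ := (dvd_prime_pow Polynomial.prime_X m).1 (Dvd.intro _ h2)
  obtain ⟨u, hu⟩ := hn
  obtain ⟨r, hr, hr'⟩ := Polynomial.isUnit_iff.1 u⁻¹.isUnit
  refine ⟨r, n, hr.ne_zero, ?_⟩
  rw [← hu, hr', mul_comm p, ← mul_assoc, Units.inv_mul, one_mul]

/-- the determinant of an invertible Laurent matrix, without denominators -/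
theorem det_unit {k : ℕ} {P Q : Matrix (Fin k) (Fin k) ℂ[T;T⁻¹]} (h : P * Q = 1) {N : ℕ}
    {P' : Matrix (Fin k) (Fin k) ℂ[X]}
    (hP : ∀ i j, toLaurent (P' i j) = P i j * T (N : ℤ)) :
    ∃ (a : ℂ) (n : ℕ), a ≠ 0 ∧ P'.det = Polynomial.C a * X ^ n := by
  have h1 : (P'.map (toLaurent (R := ℂ))) = (T (N : ℤ) : ℂ[T;T⁻¹]) • P := by
    ext1 i j
    rw [Matrix.map_apply, hP, Matrix.smul_apply, smul_eq_mul, mul_comm]
  have h2 : toLaurent P'.det = (T (N : ℤ) : ℂ[T;T⁻¹]) ^ k * P.det := by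
    have h3 := RingHom.map_det (toLaurent (R := ℂ)) P'
    rw [h3, RingHom.mapMatrix_apply, h1, Matrix.det_smul, Fintype.card_fin]
  have h4 : P.det * Q.det = 1 := by rw [← Matrix.det_mul, h, Matrix.det_one]
  apply TPb_unit (q := (T (-(N : ℤ)) : ℂ[T;T⁻¹]) ^ k * Q.det)
  rw [h2]
  have h5 : (T (N : ℤ) : ℂ[T;T⁻¹]) * T (-(N : ℤ)) = 1 := by
    rw [← T_add, add_neg_cancel, T_zero]
  calc (T (N : ℤ) : ℂ[T;T⁻¹]) ^ k * P.det * (T (-(N : ℤ)) ^ k * Q.det)
      = ((T (N : ℤ) : ℂ[T;T⁻¹]) * T (-(N : ℤ))) ^ k * (P.det * Q.det) := by ring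
    _ = 1 := by rw [h5, h4, one_pow, one_mul]

/-- LEMMA P, one step -/
theorem lemmaP {k : ℕ} (P : Matrix (Fin k) (Fin k) ℂ[X]) {a : ℂ} (ha : a ≠ 0) {n : ℕ}
    (h : P.det = Polynomial.C a * X ^ (n + 1)) :
    ∃ (A B : Matrix (Fin k) (Fin k) ℂ[X]) (i : Fin k) (P' : Matrix (Fin k) (Fin k) ℂ[X]) (a' : ℂ),
      A * B = 1 ∧ B * A = 1 ∧ P = A * diagonal (fun j => if j = i then X else 1) * P' ∧
      a' ≠ 0 ∧ P'.det = Polynomial.C a' * X ^ n := by
  have h0 : (P.map (Polynomial.evalRingHom (0 : ℂ))).det = 0 := by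
    have h1 := RingHom.map_det (Polynomial.evalRingHom (0 : ℂ)) P
    rw [RingHom.mapMatrix_apply] at h1
    rw [← h1, h, Polynomial.coe_evalRingHom]
    simp
  obtain ⟨v, hv, hv0⟩ := Matrix.exists_vecMul_eq_zero_iff.2 h0
  obtain ⟨i, hi⟩ := Function.ne_iff.1 hv
  rw [Pi.zero_apply] at hi
  set B0 : Matrix (Fin k) (Fin k) ℂ := (1 : Matrix (Fin k) (Fin k) ℂ).updateRow i v with hB0
  have hdet : B0.det = v i := by
    rw [hB0, ← Matrix.cramer_transpose_apply, Matrix.transpose_one, Matrix.cramer_one]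
    rfl
  have hu : IsUnit B0.det := by
    rw [hdet]
    exact isUnit_iff_ne_zero.2 hi
  set B : Matrix (Fin k) (Fin k) ℂ[X] := (Polynomial.C (R := ℂ)).mapMatrix B0 with hB
  set A : Matrix (Fin k) (Fin k) ℂ[X] := (Polynomial.C (R := ℂ)).mapMatrix B0⁻¹ with hA
  have hAB : A * B = 1 := by
    rw [hA, hB, ← map_mul, Matrix.nonsing_inv_mul _ hu, map_one]
  have hBA : B * A = 1 := by
    rw [hA, hB, ← map_mul, Matrix.mul_nonsing_inv _ hu, map_one]
  have hdvd : ∀ j, X ∣ (B * P) i j := by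
    intro j
    rw [Polynomial.X_dvd_iff, Polynomial.coeff_zero_eq_eval_zero]
    have h1 := congrFun hv0 j
    rw [Pi.zero_apply] at h1
    refine Eq.trans ?_ h1
    rw [Matrix.mul_apply, Polynomial.eval_finsetSum]
    refine Finset.sum_congr rfl fun l _ => ?_
    rw [Polynomial.eval_mul, hB, RingHom.mapMatrix_apply, Matrix.map_apply, hB0,
      Matrix.updateRow_self, Polynomial.eval_C]
    rfl
  choose w hw using hdvd
  set P' : Matrix (Fin k) (Fin k) ℂ[X] := (B * P).updateRow i w with hP'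
  have hD : diagonal (fun j => if j = i then X else 1) * P' = B * P := by
    ext1 l j
    rw [Matrix.diagonal_mul, hP']
    by_cases hl : l = i
    · subst hl
      rw [if_pos rfl, Matrix.updateRow_self, hw j]
    · rw [if_neg hl, Matrix.updateRow_ne hl, one_mul]
  refine ⟨A, B, i, P', v i * a, hAB, hBA, ?_, mul_ne_zero hi ha, ?_⟩
  · rw [Matrix.mul_assoc, hD, ← Matrix.mul_assoc, hAB, Matrix.one_mul]
  · have h1 := congrArg Matrix.det hD
    rw [Matrix.det_mul, Matrix.det_mul, Matrix.det_diagonal, h] at h1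
    have h2 : ∏ j, (if j = i then (X : ℂ[X]) else 1) = X := by
      rw [Finset.prod_ite_eq' Finset.univ i (fun _ => (X : ℂ[X])), if_pos (Finset.mem_univ i)]
    have h3 : B.det = Polynomial.C (v i) := by
      have h4 := RingHom.map_det (Polynomial.C (R := ℂ)) B0
      rw [hB, ← h4, hdet]
    rw [h2, h3] at h1
    apply mul_left_cancel₀ (Polynomial.X_ne_zero (R := ℂ))
    rw [h1, Polynomial.C_mul]
    ring

end DC56
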