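import Pool.Agent.LibDC56.TD

/-!
[DC56 TS] Facts on the algebras `StA R`. First show that `StA R` is contained in the span of the elements
`pe l u * star (pe l' u)`, `PR R l u`, `PR R l' u` (`StA_le`): the span is stable under left multiplication by `vx a`,
`ed f`, `star (ed f)` (`G.s f ∈ R`); `star (ed f) * vx (s f) * star (pe l' (s f)) = vx (r f) * star (pe (l' ++ [f]) (r f))`
(see `b5`, LibLPA74/B5 for a similar computation). Then `vx h * pe l u` is `0` or `G.st l u = h`, and a path from `h ≠ u`, `h ∈ X`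
with sources in `R` has its sources in `R.erase u` if `Tp X u` (it would reach `u`).
`exists_clo`: induction (`LA.induction`) gives a finite set of regular vertices for each element; unions; then `X = R ∪` ranges `∪ Y`.
-/

namespace DC56

open LPA74 Relation
open DC29 (LG Rch IsLp MRel Mon mv Le exs wm Cl)

variable {G : Gph} {R : Finset G.V}

theorem vx_mem_StA (R : Finset G.V) (v : G.V) : vx v ∈ StA R :=
  NonUnitalStarAlgebra.subset_adjoin ℂ _ (Or.inl ⟨v, rfl⟩)

theorem ed_mem_StA {R : Finset G.V} {f : G.Ed} (h : G.s f ∈ R) : ed f ∈ StA R :=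
  NonUnitalStarAlgebra.subset_adjoin ℂ _ (Or.inr ⟨f, h, rfl⟩)

theorem StA_mono {R R' : Finset G.V} (h : R ⊆ R') : StA R ≤ StA R' := by
  unfold StA
  refine NonUnitalStarAlgebra.adjoin_mono ?_
  refine Set.union_subset_union_right _ (Set.image_mono ?_)
  intro f hf
  exact h hf

/-- the spanning set -/
def TS_gen (R : Finset G.V) : Set (LA G) :=
  {x | ∃ l l' u, PR R l u ∧ PR R l' u ∧ x = pe l u * star (pe l' u)}

theorem TS_mem {l l' : List G.Ed} {u : G.V} (h : PR R l u) (h' : PR R l' u) :
    pe l u * star (pe l' u) ∈ Submodule.span ℂ (TS_gen R) :=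
  Submodule.subset_span ⟨l, l', u, h, h', rfl⟩

theorem TS_nil (u : G.V) : PR R [] u := ⟨trivial, fun _ hf => absurd hf List.not_mem_nil⟩

theorem TS_left (z : LA G)
    (h : ∀ l l' u, PR R l u → PR R l' u →
      z * (pe l u * star (pe l' u)) ∈ Submodule.span ℂ (TS_gen R)) {x : LA G}
    (hx : x ∈ Submodule.span ℂ (TS_gen R)) : z * x ∈ Submodule.span ℂ (TS_gen R) := by
  refine Submodule.span_induction (p := fun x _ => z * x ∈ Submodule.span ℂ (TS_gen R))
    ?_ ?_ ?_ ?_ hx
  · rintro x ⟨l, l', u, hl, hl', rfl⟩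
    exact h l l' u hl hl'
  · rw [mul_zero]
    exact Submodule.zero_mem _
  · intro x y _ _ hx hy
    rw [mul_add]
    exact Submodule.add_mem _ hx hy
  · intro c x _ hx
    rw [mul_smul_comm]
    exact Submodule.smul_mem _ _ hx

theorem TS_star {x : LA G} (hx : x ∈ Submodule.span ℂ (TS_gen R)) :
    star x ∈ Submodule.span ℂ (TS_gen R) := by
  refine Submodule.span_induction (p := fun x _ => star x ∈ Submodule.span ℂ (TS_gen R))
    ?_ ?_ ?_ ?_ hx
  · rintro x ⟨l, l', u, hl, hl', rfl⟩
    rw [star_mul, star_star]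
    exact TS_mem hl' hl
  · rw [star_zero]
    exact Submodule.zero_mem _
  · intro x y _ _ hx hy
    rw [star_add]
    exact Submodule.add_mem _ hx hy
  · intro c x _ hx
    rw [star_smul]
    exact Submodule.smul_mem _ _ hx

theorem TS_vx (a : G.V) {x : LA G} (hx : x ∈ Submodule.span ℂ (TS_gen R)) :
    vx a * x ∈ Submodule.span ℂ (TS_gen R) := by
  refine TS_left (vx a) (fun l l' u hl hl' => ?_) hx
  by_cases ha : a = G.st l u
  · rw [← mul_assoc, ha, vx_mul_pe]
    exact TS_mem hl hl'
  · rw [← mul_assoc, vx_mul_pe_ne ha, zero_mul]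
    exact Submodule.zero_mem _

theorem TS_ed {f : G.Ed} (hf : G.s f ∈ R) {x : LA G}
    (hx : x ∈ Submodule.span ℂ (TS_gen R)) : ed f * x ∈ Submodule.span ℂ (TS_gen R) := by
  refine TS_left (ed f) (fun l l' u hl hl' => ?_) hx
  by_cases hr : G.r f = G.st l u
  · have h1 : ed f * (pe l u * star (pe l' u)) = pe (f :: l) u * star (pe l' u) := by
      rw [← mul_assoc]
      rfl
    rw [h1]
    refine TS_mem ⟨⟨hr, hl.1⟩, ?_⟩ hl'
    intro g hg
    rcases List.mem_cons.mp hg with rfl | hg
    · exact hf
    · exact hl.2 g hg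
  · rw [← mul_assoc, ed_mul_pe_ne hr, zero_mul]
    exact Submodule.zero_mem _

theorem TS_st_append (l : List G.Ed) (f : G.Ed) : G.st (l ++ [f]) (G.r f) = G.st l (G.s f) := by
  cases l with
  | nil => rfl
  | cons g l => rfl

theorem TS_IsP_append {l : List G.Ed} {f : G.Ed} (h : G.IsP l (G.s f)) :
    G.IsP (l ++ [f]) (G.r f) := by
  induction l with
  | nil => exact ⟨rfl, trivial⟩
  | cons g l ih =>
    refine ⟨?_, ih h.2⟩
    change G.r g = G.st (l ++ [f]) (G.r f)
    rw [TS_st_append]
    exact h.1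

theorem TS_pe_append (l : List G.Ed) (f : G.Ed) :
    pe (l ++ [f]) (G.r f) = pe l (G.s f) * ed f := by
  induction l with
  | nil =>
    change ed f * vx (G.r f) = vx (G.s f) * ed f
    rw [ed_mul_vx, vx_mul_ed]
  | cons g l ih =>
    change ed g * pe (l ++ [f]) (G.r f) = ed g * pe l (G.s f) * ed f
    rw [ih, mul_assoc]

theorem TS_star_ed {f : G.Ed} (hf : G.s f ∈ R) {x : LA G}
    (hx : x ∈ Submodule.span ℂ (TS_gen R)) : star (ed f) * x ∈ Submodule.span ℂ (TS_gen R) := by
  refine TS_left (star (ed f)) (fun l l' u hl hl' => ?_) hx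
  cases l with
  | nil =>
    by_cases hu : G.s f = u
    · subst hu
      have h1 : star (ed f) * (pe [] (G.s f) * star (pe l' (G.s f))) =
          pe [] (G.r f) * star (pe (l' ++ [f]) (G.r f)) := by
        change star (ed f) * (vx (G.s f) * star (pe l' (G.s f))) =
          vx (G.r f) * star (pe (l' ++ [f]) (G.r f))
        rw [← mul_assoc, star_ed_mul_vx, TS_pe_append, star_mul, ← mul_assoc, vx_mul_star_ed]
      rw [h1]
      refine TS_mem (TS_nil _) ⟨TS_IsP_append hl'.1, ?_⟩
      intro g hg
      rcases List.mem_append.mp hg with hg | hg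
      · exact hl'.2 g hg
      · rw [List.mem_singleton] at hg
        rw [hg]
        exact hf
    · have h1 : star (ed f) * (pe [] u * star (pe l' u)) = 0 := by
        change star (ed f) * (vx u * star (pe l' u)) = 0
        rw [← mul_assoc, star_ed_mul_vx_ne hu, zero_mul]
      rw [h1]
      exact Submodule.zero_mem _
  | cons g l =>
    by_cases hg : f = g
    · subst hg
      have h1 : star (ed f) * (pe (f :: l) u * star (pe l' u)) = pe l u * star (pe l' u) := by
        change star (ed f) * (ed f * pe l u * star (pe l' u)) = pe l u * star (pe l' u)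
        rw [← mul_assoc, ← mul_assoc, star_ed_mul_ed, hl.1.1, vx_mul_pe]
      rw [h1]
      exact TS_mem ⟨hl.1.2, fun g hg => hl.2 g (List.mem_cons_of_mem _ hg)⟩ hl'
    · have h1 : star (ed f) * (pe (g :: l) u * star (pe l' u)) = 0 := by
        change star (ed f) * (ed g * pe l u * star (pe l' u)) = 0
        rw [← mul_assoc, ← mul_assoc, star_ed_mul_ed_ne hg, zero_mul, zero_mul]
      rw [h1]
      exact Submodule.zero_mem _

theorem StA_le {x : LA G} (hx : x ∈ StA R) :
    x ∈ Submodule.span ℂ {x | ∃ l l' u, PR R l u ∧ PR R l' u ∧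
      x = pe l u * star (pe l' u)} := by
  change x ∈ Submodule.span ℂ (TS_gen R)
  have key : x ∈ Submodule.span ℂ (TS_gen R) ∧
      (∀ m ∈ Submodule.span ℂ (TS_gen R), x * m ∈ Submodule.span ℂ (TS_gen R)) ∧
      ∀ m ∈ Submodule.span ℂ (TS_gen R), star x * m ∈ Submodule.span ℂ (TS_gen R) := by
    refine NonUnitalStarAlgebra.adjoin_induction (R := ℂ)
      (p := fun z (_ : z ∈ NonUnitalStarAlgebra.adjoin ℂ
          (Set.range (vx : G.V → LA G) ∪ ed '' {f | G.s f ∈ R})) =>
        z ∈ Submodule.span ℂ (TS_gen R) ∧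
        (∀ m ∈ Submodule.span ℂ (TS_gen R), z * m ∈ Submodule.span ℂ (TS_gen R)) ∧
        ∀ m ∈ Submodule.span ℂ (TS_gen R), star z * m ∈ Submodule.span ℂ (TS_gen R))
      ?_ ?_ ?_ ?_ ?_ ?_ hx
    · rintro z (⟨a, rfl⟩ | ⟨f, hf, rfl⟩)
      · refine ⟨?_, fun m hm => TS_vx a hm, fun m hm => ?_⟩
        · have h1 := TS_mem (TS_nil (R := R) a) (TS_nil (R := R) a)
          have h2 : pe [] a * star (pe [] a) = (vx a : LA G) := by
            change vx a * star (vx a) = (vx a : LA G)
            rw [star_vx, vx_mul_self]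
          rwa [h2] at h1
        · rw [star_vx]
          exact TS_vx a hm
      · refine ⟨?_, fun m hm => TS_ed hf hm, fun m hm => TS_star_ed hf hm⟩
        have h0 : PR R [f] (G.r f) := ⟨⟨rfl, trivial⟩, fun g hg => by
          rw [List.mem_singleton] at hg
          rw [hg]
          exact hf⟩
        have h1 := TS_mem h0 (TS_nil (R := R) (G.r f))
        have h2 : pe [f] (G.r f) * star (pe [] (G.r f)) = (ed f : LA G) := by
          change ed f * vx (G.r f) * star (vx (G.r f)) = (ed f : LA G)
          rw [star_vx, ed_mul_vx, ed_mul_vx]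
        rwa [h2] at h1
    · intro y z _ _ hy hz
      refine ⟨add_mem hy.1 hz.1, fun m hm => ?_, fun m hm => ?_⟩
      · rw [add_mul]
        exact add_mem (hy.2.1 m hm) (hz.2.1 m hm)
      · rw [star_add, add_mul]
        exact add_mem (hy.2.2 m hm) (hz.2.2 m hm)
    · refine ⟨zero_mem _, fun m _ => ?_, fun m _ => ?_⟩
      · rw [zero_mul]
        exact zero_mem _
      · rw [star_zero, zero_mul]
        exact zero_mem _
    · intro y z _ _ hy hz
      refine ⟨hy.2.1 z hz.1, fun m hm => ?_, fun m hm => ?_⟩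
      · rw [mul_assoc]
        exact hy.2.1 _ (hz.2.1 m hm)
      · rw [star_mul, mul_assoc]
        exact hz.2.2 _ (hy.2.2 m hm)
    · intro c z _ hz
      refine ⟨Submodule.smul_mem _ _ hz.1, fun m hm => ?_, fun m hm => ?_⟩
      · rw [smul_mul_assoc]
        exact Submodule.smul_mem _ _ (hz.2.1 m hm)
      · rw [star_smul, smul_mul_assoc]
        exact Submodule.smul_mem _ _ (hz.2.2 m hm)
    · intro z _ hz
      refine ⟨TS_star hz.1, hz.2.2, fun m hm => ?_⟩
      rw [star_star]
      exact hz.2.1 m hm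
  exact key.1

/-- a path reaches the sources of its edges -/
theorem TS_reach {l : List G.Ed} {u : G.V} (h : G.IsP l u) {f : G.Ed} (hf : f ∈ l) :
    Rch G (G.st l u) (G.s f) := by
  induction l with
  | nil => exact absurd hf List.not_mem_nil
  | cons g l ih =>
    rcases List.mem_cons.mp hf with rfl | hf
    · exact ReflTransGen.refl
    · refine ReflTransGen.head ⟨g, rfl, h.1⟩ (ih h.2 hf)

theorem TS_reach_end {l : List G.Ed} {u : G.V} (h : G.IsP l u) : Rch G (G.st l u) u := by
  induction l with
  | nil => exact ReflTransGen.refl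
  | cons g l ih => exact ReflTransGen.head ⟨g, rfl, h.1⟩ (ih h.2)

/-- a linear property of the corner -/
theorem TS_corner {x : LA G} (hx : x ∈ StA R) (a b : G.V) (M : Submodule ℂ (LA G))
    (h : ∀ l l' u, PR R l u → PR R l' u → G.st l u = a → G.st l' u = b →
      pe l u * star (pe l' u) ∈ M) : vx a * x * vx b ∈ M := by
  have hx' := StA_le hx
  refine Submodule.span_induction (p := fun x _ => vx a * x * vx b ∈ M) ?_ ?_ ?_ ?_ hx'
  · rintro x ⟨l, l', u, hl, hl', rfl⟩
    by_cases h1 : a = G.st l u
    · by_cases h2 : b = G.st l' u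
      · have h3 : vx a * (pe l u * star (pe l' u)) * vx b = pe l u * star (pe l' u) := by
          have h4 : star (pe l' u) * vx b = star (pe l' u) := by
            have := congrArg star (vx_mul_pe l' u)
            rw [star_mul, star_vx] at this
            rw [h2]
            exact this
          rw [← mul_assoc, h1, vx_mul_pe, mul_assoc, h4]
        rw [h3]
        exact h l l' u hl hl' h1.symm h2.symm
      · have h4 : star (pe l' u) * vx b = 0 := by
          have := congrArg star (vx_mul_pe_ne (l := l') (u := u) h2)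
          rwa [star_mul, star_vx, star_zero] at this
        rw [mul_assoc, mul_assoc, h4, mul_zero, mul_zero]
        exact zero_mem _
    · rw [← mul_assoc, vx_mul_pe_ne h1, zero_mul, zero_mul]
      exact zero_mem _
  · rw [mul_zero, zero_mul]
    exact zero_mem _
  · intro x y _ _ hx hy
    rw [mul_add, add_mul]
    exact add_mem hx hy
  · intro c x _ hx
    rw [mul_smul_comm, smul_mul_assoc]
    exact Submodule.smul_mem _ _ hx

/-- the corner away from a maximal vertex -/
theorem StA_erase (hG : LG G) {X : Finset G.V} [DecidableEq G.V] {u : G.V} (hu : Tp X u)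
    {x : LA G} (hx : x ∈ StA R) {h h' : G.V} (hh : h ∈ X.erase u) (hh' : h' ∈ X.erase u) :
    vx h * x * vx h' ∈ StA (R.erase u) := by
  have hpath : ∀ l v, PR R l v → G.st l v ∈ X.erase u → pe l v ∈ StA (R.erase u) := by
    intro l v hl hst
    refine pe_mem (fun f hf => ed_mem_StA ?_) (vx_mem_StA _ _)
    rw [Finset.mem_erase]
    refine ⟨fun hfu => ?_, hl.2 f hf⟩
    have h1 := TS_reach hl.1 hf
    rw [hfu] at h1
    exact (Finset.mem_erase.mp hst).1 (hu.2 _ (Finset.mem_erase.mp hst).2 h1)
  exact TS_corner hx h h' (StA (R.erase u)).toNonUnitalSubalgebra.toSubmodule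
    (fun l l' v hl hl' e e' => show pe l v * star (pe l' v) ∈ StA (R.erase u) from
      mul_mem (hpath l v hl (e ▸ hh)) (star_mem (hpath l' v hl' (e' ▸ hh'))))

/-- no edges out of `b`: the corner is `ℂ` -/
theorem StA_scalar {b : G.V} (hb : b ∉ R) {x : LA G} (hx : x ∈ StA R) :
    ∃ k : ℂ, vx b * x * vx b = k • vx b := by
  have hnil : ∀ l v, PR R l v → G.st l v = b → pe l v = vx b ∧ v = b := by
    intro l v hl hst
    cases l with
    | nil =>
      have hvb : v = b := hst
      exact ⟨by rw [hvb]; rfl, hvb⟩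
    | cons g l =>
      exfalso
      apply hb
      have h1 := hl.2 g List.mem_cons_self
      have h2 : G.s g = b := hst
      rwa [h2] at h1
  have h1 : vx b * x * vx b ∈ Submodule.span ℂ {(vx b : LA G)} := by
    refine TS_corner hx b b _ (fun l l' v hl hl' e e' => ?_)
    rw [(hnil l v hl e).1, (hnil l' v hl' e').1, star_vx, vx_mul_self]
    exact Submodule.mem_span_singleton_self _
  obtain ⟨k, hk⟩ := Submodule.mem_span_singleton.mp h1
  exact ⟨k, hk.symm⟩

/-- no edges out of the maximal vertex `u`: the off-diagonal corners are zero -/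
theorem StA_off (hG : LG G) {X : Finset G.V} {u : G.V} (hu : Tp X u) (huR : u ∉ R) {x : LA G}
    (hx : x ∈ StA R) {h : G.V} (hh : h ∈ X) (hne : h ≠ u) :
    vx u * x * vx h = 0 ∧ vx h * x * vx u = 0 := by
  have key : ∀ y ∈ StA R, vx u * y * vx h = 0 := by
    intro y hy
    have h1 : vx u * y * vx h ∈ (⊥ : Submodule ℂ (LA G)) := by
      refine TS_corner hy u h _ (fun l l' v hl hl' e e' => ?_)
      exfalso
      cases l with
      | nil =>
        have hv : v = u := e
        subst hv
        have h2 := TS_reach_end hl'.1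
        rw [e'] at h2
        exact hne (hu.2 h hh h2)
      | cons g l =>
        apply huR
        have h2 := hl.2 g List.mem_cons_self
        have h3 : G.s g = u := e
        rwa [h3] at h2
    exact (Submodule.mem_bot ℂ).mp h1
  refine ⟨key x hx, ?_⟩
  have h1 := congrArg star (key (star x) (star_mem hx))
  rwa [star_mul, star_mul, star_star, star_vx, star_vx, star_zero, ← mul_assoc] at h1

theorem TS_exists (x : LA G) :
    ∃ R : Finset G.V, (∀ v ∈ R, IsReg G v) ∧ x ∈ StA R := by
  classical
  refine LA.induction (p := fun x => ∃ R : Finset G.V, (∀ v ∈ R, IsReg G v) ∧ x ∈ StA R)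
    ?_ ?_ ?_ ?_ ?_ ?_ ?_ x
  · exact fun a => ⟨∅, fun v hv => absurd hv (Finset.notMem_empty v), vx_mem_StA _ _⟩
  · intro f
    refine ⟨{G.s f}, fun v hv => ?_, ed_mem_StA (Finset.mem_singleton_self _)⟩
    rw [Finset.mem_singleton] at hv
    exact ⟨f, hv.symm⟩
  · exact ⟨∅, fun v hv => absurd hv (Finset.notMem_empty v), zero_mem _⟩
  · rintro x y ⟨R, hR, hx⟩ ⟨R', hR', hy⟩
    refine ⟨R ∪ R', fun v hv => ?_, add_mem (StA_mono Finset.subset_union_left hx)
      (StA_mono Finset.subset_union_right hy)⟩
    rcases Finset.mem_union.mp hv with hv | hv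
    · exact hR v hv
    · exact hR' v hv
  · rintro x y ⟨R, hR, hx⟩ ⟨R', hR', hy⟩
    refine ⟨R ∪ R', fun v hv => ?_, mul_mem (StA_mono Finset.subset_union_left hx)
      (StA_mono Finset.subset_union_right hy)⟩
    rcases Finset.mem_union.mp hv with hv | hv
    · exact hR v hv
    · exact hR' v hv
  · rintro c x ⟨R, hR, hx⟩
    exact ⟨R, hR, SMulMemClass.smul_mem c hx⟩
  · rintro x ⟨R, hR, hx⟩
    exact ⟨R, hR, star_mem hx⟩

theorem TS_exists_fin (F : Finset (LA G)) :
    ∃ R : Finset G.V, (∀ v ∈ R, IsReg G v) ∧ ∀ x ∈ F, x ∈ StA R := by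
  classical
  induction F using Finset.induction_on with
  | empty => exact ⟨∅, fun v hv => absurd hv (Finset.notMem_empty v),
      fun x hx => absurd hx (Finset.notMem_empty x)⟩
  | insert x F _ ih =>
    obtain ⟨R, hR, h⟩ := ih
    obtain ⟨R', hR', h'⟩ := TS_exists x
    refine ⟨R ∪ R', fun v hv => ?_, fun y hy => ?_⟩
    · rcases Finset.mem_union.mp hv with hv | hv
      · exact hR v hv
      · exact hR' v hv
    · rcases Finset.mem_insert.mp hy with rfl | hy
      · exact StA_mono Finset.subset_union_right h'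
      · exact StA_mono Finset.subset_union_left (h y hy)

/-- every finite set is in a stage -/
theorem exists_clo (hG : LG G) (F : Finset (LA G)) (Y : Finset G.V) :
    ∃ X R : Finset G.V, Clo X R ∧ Y ⊆ X ∧ ∀ x ∈ F, x ∈ StA R := by
  classical
  obtain ⟨R, hR, h⟩ := TS_exists_fin F
  refine ⟨R ∪ (R.biUnion fun v => (hG.rf v).toFinset.image G.r) ∪ Y, R, ⟨?_, ?_, hR⟩, ?_, h⟩
  · exact Finset.subset_union_left.trans Finset.subset_union_left
  · intro f hf
    refine Finset.mem_union_left _ (Finset.mem_union_right _ ?_)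
    rw [Finset.mem_biUnion]
    refine ⟨G.s f, hf, Finset.mem_image_of_mem _ ?_⟩
    rw [Set.Finite.mem_toFinset]
    rfl
  · exact Finset.subset_union_right

end DC56
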