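import Pool.Agent.LibDC56.TC
import Pool.Agent.LibDC56.TE
import Pool.Agent.LibDC56.TPb
import Pool.Agent.LibDC56.TS

/-!
[DC56 TK] The cokernel of `P(s)`, `det P = a X ^ n`. `of_inv`: `Q = evm e B`, the complement is `0` (`m = 0`). `diag`: `Q` = the diagonal matrix with entries
`vx (s e)`, at `i` `star (ed e)`; the complement is the diagonal matrix with the entry `vx (s e) - ed e * star (ed e) = ∑ f * star f` over the exits
(`vx_sub_sp` with `N = 1`, or `vx_eq_sum`) at `i`: equivalent to the `1 × 1` matrix, to `dg` of the ranges of the exits. `mul`: `Q = Q₂ * Q₁`, the complement is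
`(1 - A Q₁) + A (1 - B Q₂) Q₁`, an orthogonal sum (`ME.orth`, `ME.blocks`), and `A (1 - B Q₂) Q₁ ~ 1 - B Q₂` (`ME.mk'`).
-/

namespace DC56

open LPA74 Relation Matrix Polynomial
open DC29 (LG Rch IsLp MRel Mon mv Le exs wm Cl)

variable {G : Gph} {e : G.Ed} {k : ℕ}

/-- the matrix `P(s)` -/
noncomputable def evm (e : G.Ed) {ι κ : Type} (P : Matrix ι κ ℂ[X]) : Matrix ι κ (LA G) :=
  P.map (ev e)

/-- `P(s)` has a left inverse, and the complement is the sum of the exits, `n` times -/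
def CoK (hG : LG G) (C : NonUnitalStarSubalgebra ℂ (LA G)) (e : G.Ed)
    (P : Matrix (Fin k) (Fin k) ℂ[X]) (n : ℕ) : Prop :=
  ∃ Q : Matrix (Fin k) (Fin k) (LA G), MIn C Q ∧
    Q * evm e P = dg (fun _ : Fin k => G.s e) ∧ dg (fun _ : Fin k => G.s e) * Q = Q ∧
    Q * dg (fun _ : Fin k => G.s e) = Q ∧
    ∃ (m : ℕ) (b : Fin m → G.V), (∀ j, ∃ f ∈ exs hG (G.s e), b j = G.r f) ∧
      ∑ j, mv (b j) = n • wm hG (G.s e) ∧
      ME C (dg (fun _ : Fin k => G.s e) - evm e P * Q) (dg b)

theorem evm_mul (he : G.r e = G.s e) {ι κ ρ : Type} [Fintype κ] (P : Matrix ι κ ℂ[X])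
    (Q : Matrix κ ρ ℂ[X]) : evm e (P * Q) = evm e P * evm e Q := by
  ext1 i j
  change ev e ((P * Q) i j) = (evm e P * evm e Q) i j
  rw [Matrix.mul_apply, Matrix.mul_apply, ev_sum]
  refine Finset.sum_congr rfl fun k _ => ?_
  rw [ev_mul he]
  rfl

theorem evm_one (e : G.Ed) {ι : Type} [DecidableEq ι] :
    evm e (1 : Matrix ι ι ℂ[X]) = dg (fun _ : ι => G.s e) := by
  ext1 i j
  change ev e ((1 : Matrix ι ι ℂ[X]) i j) = Matrix.diagonal (fun _ => vx (G.s e)) i j
  by_cases h : i = j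
  · subst h
    rw [Matrix.one_apply_eq, Matrix.diagonal_apply_eq, ev_one]
  · rw [Matrix.one_apply_ne h, Matrix.diagonal_apply_ne _ h, ev_zero]

theorem TK_left (he : G.r e = G.s e) (P : Matrix (Fin k) (Fin k) ℂ[X]) :
    (dg (fun _ : Fin k => G.s e)) * evm e P = evm e P := by
  ext1 i j
  rw [dg_mul_apply]
  exact vx_mul_ev he _

theorem TK_right (e : G.Ed) (P : Matrix (Fin k) (Fin k) ℂ[X]) :
    evm e P * dg (fun _ : Fin k => G.s e) = evm e P := by
  ext1 i j
  rw [mul_dg_apply]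
  exact ev_mul_vx e _

theorem TK_mem {R : Finset G.V} (hR : G.s e ∈ R) (P : Matrix (Fin k) (Fin k) ℂ[X]) :
    MIn (StA R) (evm e P) := fun _ _ => ev_mem (ed_mem_StA hR) (vx_mem_StA _ _) _

theorem TK_compl {M : Type} [NonUnitalRing M] {D A Q : M} (hD : D * D = D) (h : Q * A = D)
    (h1 : D * A = A) (h3 : D * Q = Q) (h4 : Q * D = Q) :
    (D - A * Q) * (D - A * Q) = D - A * Q := by
  have e1 : D * (A * Q) = A * Q := by rw [← mul_assoc, h1]
  have e2 : A * Q * D = A * Q := by rw [mul_assoc, h4]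
  have e3 : A * Q * (A * Q) = A * Q := by
    rw [mul_assoc, ← mul_assoc Q A Q, h, h3]
  rw [mul_sub, sub_mul, sub_mul, hD, e1, e2, e3, sub_self, sub_zero]

theorem TK_sum {M : Type} [NonUnitalRing M] {D A B Q₁ Q₂ : M} (h3 : D * Q₁ = Q₁) :
    D - A * B * (Q₂ * Q₁) = (D - A * Q₁) + A * (D - B * Q₂) * Q₁ := by
  have e1 : A * (D - B * Q₂) * Q₁ = A * Q₁ - A * B * (Q₂ * Q₁) := by
    rw [mul_sub, sub_mul, mul_assoc A D Q₁, h3, mul_assoc A (B * Q₂) Q₁, mul_assoc B Q₂ Q₁,
      mul_assoc A B (Q₂ * Q₁)]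
  rw [e1]
  abel

theorem TK_yy {M : Type} [NonUnitalRing M] {D A Q₁ E : M} (h : Q₁ * A = D) (hE : D * E = E)
    (hEE : E * E = E) : A * E * Q₁ * (A * E * Q₁) = A * E * Q₁ := by
  have e1 : Q₁ * (A * E * Q₁) = E * Q₁ := by
    rw [← mul_assoc, ← mul_assoc, h, hE]
  rw [mul_assoc, e1, mul_assoc, ← mul_assoc E E Q₁, hEE, ← mul_assoc]

theorem TK_xy {M : Type} [NonUnitalRing M] {D A Q₁ E : M} (h : Q₁ * A = D) (h1 : D * A = A)
    (h2 : A * D = A) : (D - A * Q₁) * (A * E * Q₁) = 0 := by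
  have e1 : (D - A * Q₁) * A = 0 := by
    rw [sub_mul, h1, mul_assoc, h, h2, sub_self]
  rw [← mul_assoc, ← mul_assoc, e1, zero_mul, zero_mul]

theorem TK_yx {M : Type} [NonUnitalRing M] {D A Q₁ E : M} (h : Q₁ * A = D) (h3 : D * Q₁ = Q₁)
    (h4 : Q₁ * D = Q₁) : A * E * Q₁ * (D - A * Q₁) = 0 := by
  have e1 : Q₁ * (D - A * Q₁) = 0 := by
    rw [mul_sub, h4, ← mul_assoc, h, h3, sub_self]
  rw [mul_assoc, e1, mul_zero]

theorem CoK.of_inv {hG : LG G} {R : Finset G.V} (he : G.r e = G.s e) (hR : G.s e ∈ R)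
    {A B : Matrix (Fin k) (Fin k) ℂ[X]} (h : A * B = 1) (h' : B * A = 1) :
    CoK hG (StA R) e A 0 := by
  refine ⟨evm e B, TK_mem hR B, ?_, TK_left he B, TK_right e B, 0, Fin.elim0,
    fun j => j.elim0, ?_, ?_⟩
  · rw [← evm_mul he, h', evm_one]
  · rw [Finset.univ_eq_empty, Finset.sum_empty, zero_nsmul]
  · rw [← evm_mul he, h, evm_one, sub_self]
    refine ⟨0, 0, fun i j => j.elim0, fun i j => i.elim0, ?_, ?_, ?_, ?_, ?_, ?_⟩
    · ext1 i j
      rw [Matrix.mul_apply, Finset.univ_eq_empty, Finset.sum_empty]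
      rfl
    · ext1 i
      exact i.elim0
    · ext1 i j
      exact j.elim0
    · ext1 i j
      exact j.elim0
    · ext1 i
      exact i.elim0
    · ext1 i
      exact i.elim0

theorem CoK.diag {hG : LG G} {R : Finset G.V} (he : G.r e = G.s e) (hR : G.s e ∈ R)
    (i : Fin k) : CoK hG (StA R) e (diagonal fun j => if j = i then X else 1) 1 := by
  classical
  have hP : evm e (diagonal fun j => if j = i then X else 1) =
      Matrix.diagonal (fun j : Fin k => if j = i then sp e 1 else (vx (G.s e) : LA G)) := by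
    ext1 a b
    change ev e (diagonal (fun j => if j = i then (X : ℂ[X]) else 1) a b) = _
    by_cases hab : a = b
    · subst hab
      rw [Matrix.diagonal_apply_eq, Matrix.diagonal_apply_eq]
      split_ifs with h
      · rw [← ev_X_pow, pow_one]
      · rw [ev_one]
    · rw [Matrix.diagonal_apply_ne _ hab, Matrix.diagonal_apply_ne _ hab, ev_zero]
  have hstar1 : vx (G.s e) * star (sp e 1) = star (sp e 1) := by
    have := congrArg star (sp_mul_vx e 1)
    rwa [star_mul, star_vx] at this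
  have hstar2 : star (sp e 1) * vx (G.s e) = star (sp e 1) := by
    have := congrArg star (vx_mul_sp he 1)
    rwa [star_mul, star_vx] at this
  have hspm : sp e 1 ∈ StA R := sp_mem (ed_mem_StA hR) (vx_mem_StA _ _) 1
  -- the enumeration of the exits
  obtain ⟨e0⟩ : Nonempty (Fin (Fintype.card {f // f ∈ exs hG (G.s e)}) ≃
      {f // f ∈ exs hG (G.s e)}) := ⟨(Fintype.equivFin _).symm⟩
  have hsum : vx (G.s e) - sp e 1 * star (sp e 1) =
      ∑ l, ed (e0 l).1 * star (ed (e0 l).1) := by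
    rw [vx_sub_sp hG he 1, Finset.sum_range_one,
      Equiv.sum_comp e0 (fun f : {f // f ∈ exs hG (G.s e)} => ed f.1 * star (ed f.1)),
      ← Finset.sum_coe_sort (exs hG (G.s e))]
    refine Finset.sum_congr rfl fun f _ => ?_
    have hf : G.s f.1 = G.s e := (mem_exs.1 f.2).1
    have h2 := vx_mul_ed f.1
    rw [hf] at h2
    have h1 : sp e 0 * ed f.1 = ed f.1 := by
      rw [sp_zero, h2]
    rw [h1]
  have hQD : (Matrix.diagonal (fun j : Fin k => if j = i then star (sp e 1) else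
      (vx (G.s e) : LA G))) * evm e (diagonal fun j => if j = i then X else 1) =
      dg (fun _ : Fin k => G.s e) := by
    rw [hP, Matrix.diagonal_mul_diagonal]
    unfold dg
    congr 1
    funext j
    split_ifs
    · exact star_sp_mul_sp he 1
    · exact vx_mul_self _
  have hcomp : (dg (fun _ : Fin k => G.s e)) - evm e (diagonal fun j => if j = i then X else 1) *
      (Matrix.diagonal (fun j : Fin k => if j = i then star (sp e 1) else
      (vx (G.s e) : LA G))) =
      Matrix.diagonal (fun j : Fin k => if j = i then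
        ∑ l, ed (e0 l).1 * star (ed (e0 l).1) else (0 : LA G)) := by
    rw [hP, Matrix.diagonal_mul_diagonal]
    unfold dg
    rw [Matrix.diagonal_sub]
    congr 1
    funext j
    split_ifs
    · exact hsum
    · rw [vx_mul_self, sub_self]
  refine ⟨Matrix.diagonal (fun j : Fin k => if j = i then star (sp e 1) else
    (vx (G.s e) : LA G)), ?_, hQD, ?_, ?_, Fintype.card {f // f ∈ exs hG (G.s e)},
    fun l => G.r (e0 l).1, fun j => ⟨(e0 j).1, (e0 j).2, rfl⟩, ?_, ?_⟩
  · intro a b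
    by_cases hab : a = b
    · subst hab
      rw [Matrix.diagonal_apply_eq]
      split_ifs
      · exact star_mem hspm
      · exact vx_mem_StA _ _
    · rw [Matrix.diagonal_apply_ne _ hab]
      exact zero_mem _
  · unfold dg
    rw [Matrix.diagonal_mul_diagonal]
    congr 1
    funext j
    split_ifs
    · exact hstar1
    · exact vx_mul_self _
  · unfold dg
    rw [Matrix.diagonal_mul_diagonal]
    congr 1
    funext j
    split_ifs
    · exact hstar2
    · exact vx_mul_self _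
  · rw [Equiv.sum_comp e0 (fun f : {f // f ∈ exs hG (G.s e)} => mv (G.r f.1)), one_nsmul, wm,
      ← Finset.sum_coe_sort (exs hG (G.s e))]
  · rw [hcomp]
    have hmem : ∀ l, ed (e0 l).1 ∈ StA R := fun l => ed_mem_StA (by
      rw [(mem_exs.1 (e0 l).2).1]
      exact hR)
    have hzy : ∀ l l', star (ed (e0 l).1) * ed (e0 l').1 =
        if l = l' then (vx (G.r (e0 l).1) : LA G) else 0 := by
      intro l l'
      split_ifs with hl
      · subst hl
        exact star_ed_mul_ed _
      · refine star_ed_mul_ed_ne fun h => hl ?_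
        exact e0.injective (Subtype.ext h)
    obtain ⟨y, hy⟩ : ∃ y : Matrix (Fin k) (Fin (Fintype.card {f // f ∈ exs hG (G.s e)})) (LA G),
        y = fun a l => if a = i then ed (e0 l).1 else 0 := ⟨_, rfl⟩
    obtain ⟨z, hz⟩ : ∃ z : Matrix (Fin (Fintype.card {f // f ∈ exs hG (G.s e)})) (Fin k) (LA G),
        z = fun l a => if a = i then star (ed (e0 l).1) else 0 := ⟨_, rfl⟩
    have h1 : y * z = Matrix.diagonal (fun j : Fin k => if j = i then
        ∑ l, ed (e0 l).1 * star (ed (e0 l).1) else (0 : LA G)) := by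
      ext1 a b
      rw [Matrix.mul_apply, hy, hz]
      by_cases ha : a = i
      · by_cases hb : b = i
        · rw [ha, hb, Matrix.diagonal_apply_eq, if_pos rfl]
          refine Finset.sum_congr rfl fun l _ => ?_
          simp only [if_true]
        · rw [ha, Matrix.diagonal_apply_ne _ (fun h => hb h.symm)]
          refine Finset.sum_eq_zero fun l _ => ?_
          simp only [if_neg hb, mul_zero]
      · have h2 : Matrix.diagonal (fun j : Fin k => if j = i then
            ∑ l, ed (e0 l).1 * star (ed (e0 l).1) else (0 : LA G)) a b = 0 := by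
          by_cases hab : a = b
          · subst hab
            rw [Matrix.diagonal_apply_eq, if_neg ha]
          · rw [Matrix.diagonal_apply_ne _ hab]
        rw [h2]
        refine Finset.sum_eq_zero fun l _ => ?_
        simp only [if_neg ha, zero_mul]
    have h2 : z * y = dg fun l => G.r (e0 l).1 := by
      ext1 l l'
      rw [Matrix.mul_apply, Finset.sum_eq_single i]
      · rw [hy, hz]
        simp only [if_true]
        rw [hzy]
        unfold dg
        by_cases hl : l = l'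
        · subst hl
          rw [if_pos rfl, Matrix.diagonal_apply_eq]
        · rw [if_neg hl, Matrix.diagonal_apply_ne _ hl]
      · intro b _ hb
        rw [hz]
        simp only [if_neg hb, zero_mul]
      · intro h
        exact absurd (Finset.mem_univ i) h
    have h3 : y * dg (fun l => G.r (e0 l).1) = y := by
      ext1 a l
      rw [mul_dg_apply, hy]
      by_cases ha : a = i
      · simp only [if_pos ha]
        exact ed_mul_vx _
      · simp only [if_neg ha, zero_mul]
    refine ME.mk' (y := y) (z := z) ?_ ?_ h1 h2 ?_ (dg_mul_dg _)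
    · intro a l
      rw [hy]
      by_cases ha : a = i
      · simp only [if_pos ha]
        exact hmem l
      · simp only [if_neg ha]
        exact zero_mem _
    · intro l a
      rw [hz]
      by_cases ha : a = i
      · simp only [if_pos ha]
        exact star_mem (hmem l)
      · simp only [if_neg ha]
        exact zero_mem _
    · rw [← h1, Matrix.mul_assoc, ← Matrix.mul_assoc z y z, h2, ← Matrix.mul_assoc, h3]

theorem CoK.mul {hG : LG G} {R : Finset G.V} (he : G.r e = G.s e) (hR : G.s e ∈ R)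
    {A B : Matrix (Fin k) (Fin k) ℂ[X]} {m n : ℕ} (h : CoK hG (StA R) e A m)
    (h' : CoK hG (StA R) e B n) : CoK hG (StA R) e (A * B) (m + n) := by
  obtain ⟨Q₁, hQ₁, hA, hl₁, hr₁, m₁, b₁, hb₁, hs₁, hM₁⟩ := h
  obtain ⟨Q₂, hQ₂, hB, hl₂, hr₂, m₂, b₂, hb₂, hs₂, hM₂⟩ := h'
  have hDD : (dg (fun _ : Fin k => G.s e)) * (dg (fun _ : Fin k => G.s e)) = dg (fun _ : Fin k => G.s e) := dg_mul_dg _
  have hDm : MIn (StA R) (dg (fun _ : Fin k => G.s e)) := MIn.dg fun _ => vx_mem_StA _ _
  have hE : (dg (fun _ : Fin k => G.s e)) * ((dg (fun _ : Fin k => G.s e)) - evm e B * Q₂) =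
      (dg (fun _ : Fin k => G.s e)) - evm e B * Q₂ := by
    rw [Matrix.mul_sub, hDD, ← Matrix.mul_assoc, TK_left he]
  have hEE : ((dg (fun _ : Fin k => G.s e)) - evm e B * Q₂) *
      ((dg (fun _ : Fin k => G.s e)) - evm e B * Q₂) = (dg (fun _ : Fin k => G.s e)) - evm e B * Q₂ :=
    TK_compl hDD hB (TK_left he B) hl₂ hr₂
  have hxx : ((dg (fun _ : Fin k => G.s e)) - evm e A * Q₁) *
      ((dg (fun _ : Fin k => G.s e)) - evm e A * Q₁) = (dg (fun _ : Fin k => G.s e)) - evm e A * Q₁ :=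
    TK_compl hDD hA (TK_left he A) hl₁ hr₁
  have hyy : evm e A * ((dg (fun _ : Fin k => G.s e)) - evm e B * Q₂) * Q₁ *
      (evm e A * ((dg (fun _ : Fin k => G.s e)) - evm e B * Q₂) * Q₁) =
      evm e A * ((dg (fun _ : Fin k => G.s e)) - evm e B * Q₂) * Q₁ := TK_yy hA hE hEE
  have hxy : ((dg (fun _ : Fin k => G.s e)) - evm e A * Q₁) *
      (evm e A * ((dg (fun _ : Fin k => G.s e)) - evm e B * Q₂) * Q₁) = 0 :=
    TK_xy hA (TK_left he A) (TK_right e A)
  have hyx : evm e A * ((dg (fun _ : Fin k => G.s e)) - evm e B * Q₂) * Q₁ *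
      ((dg (fun _ : Fin k => G.s e)) - evm e A * Q₁) = 0 := TK_yx hA hl₁ hr₁
  have hEm : MIn (StA R) ((dg (fun _ : Fin k => G.s e)) - evm e B * Q₂) :=
    hDm.sub ((TK_mem hR B).mul hQ₂)
  have hym : MIn (StA R) (evm e A * ((dg (fun _ : Fin k => G.s e)) - evm e B * Q₂) * Q₁) :=
    ((TK_mem hR A).mul hEm).mul hQ₁
  have hxm : MIn (StA R) ((dg (fun _ : Fin k => G.s e)) - evm e A * Q₁) :=
    hDm.sub ((TK_mem hR A).mul hQ₁)
  have hcomp : (dg (fun _ : Fin k => G.s e)) - evm e (A * B) * (Q₂ * Q₁) =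
      ((dg (fun _ : Fin k => G.s e)) - evm e A * Q₁) +
        evm e A * ((dg (fun _ : Fin k => G.s e)) - evm e B * Q₂) * Q₁ := by
    rw [evm_mul he]
    exact TK_sum hl₁
  have hyE : ME (StA R) (evm e A * ((dg (fun _ : Fin k => G.s e)) - evm e B * Q₂) * Q₁)
      ((dg (fun _ : Fin k => G.s e)) - evm e B * Q₂) := by
    refine ME.mk' (y := evm e A * ((dg (fun _ : Fin k => G.s e)) - evm e B * Q₂))
      (z := ((dg (fun _ : Fin k => G.s e)) - evm e B * Q₂) * Q₁) ((TK_mem hR A).mul hEm) (hEm.mul hQ₁)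
      ?_ ?_ hyy hEE
    · rw [← Matrix.mul_assoc, Matrix.mul_assoc (evm e A), hEE]
    · rw [Matrix.mul_assoc, ← Matrix.mul_assoc Q₁, hA, hE, hEE]
  have htot : ME (StA R) ((dg (fun _ : Fin k => G.s e)) - evm e (A * B) * (Q₂ * Q₁))
      (dg (Sum.elim b₁ b₂)) := by
    rw [hcomp, dg_sum]
    exact (ME.orth hxm hym hxx hyy hxy hyx).trans (ME.blocks hM₁ (hyE.trans hM₂))
  refine ⟨Q₂ * Q₁, hQ₂.mul hQ₁, ?_, ?_, ?_, m₁ + m₂,
    fun j => Sum.elim b₁ b₂ (finSumFinEquiv.symm j), ?_, ?_, ?_⟩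
  · rw [evm_mul he, Matrix.mul_assoc, ← Matrix.mul_assoc Q₁, hA, TK_left he, hB]
  · rw [← Matrix.mul_assoc, hl₂]
  · rw [Matrix.mul_assoc, hr₁]
  · intro j
    change ∃ f ∈ exs hG (G.s e), Sum.elim b₁ b₂ (finSumFinEquiv.symm j) = G.r f
    obtain ⟨t, ht⟩ : ∃ t, t = finSumFinEquiv.symm j := ⟨_, rfl⟩
    rw [← ht]
    cases t with
    | inl a => exact hb₁ a
    | inr a => exact hb₂ a
  · rw [Equiv.sum_comp finSumFinEquiv.symm (fun t => mv (Sum.elim b₁ b₂ t)),
      Fintype.sum_sum_type]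
    simp only [Sum.elim_inl, Sum.elim_inr]
    rw [hs₁, hs₂, add_nsmul]
  · refine htot.trans (ME.dg_equiv finSumFinEquiv (fun i => ?_) (fun i => vx_mem_StA _ _))
    rw [Equiv.symm_apply_apply]

theorem CoK.of_det {hG : LG G} {R : Finset G.V} (he : G.r e = G.s e) (hR : G.s e ∈ R) {n : ℕ}
    {a : ℂ} (ha : a ≠ 0) (P : Matrix (Fin k) (Fin k) ℂ[X])
    (h : P.det = Polynomial.C a * X ^ n) : CoK hG (StA R) e P n := by
  induction n generalizing a P with
  | zero =>
    rw [pow_zero, mul_one] at h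
    have h1 : IsUnit P.det := by
      rw [h]
      exact (Polynomial.isUnit_C).2 (isUnit_iff_ne_zero.2 ha)
    exact CoK.of_inv he hR (Matrix.mul_nonsing_inv P h1) (Matrix.nonsing_inv_mul P h1)
  | succ n ih =>
    obtain ⟨A, B, i, P', a', h1, h2, h3, h4, h5⟩ := lemmaP P ha h
    rw [h3]
    have h6 := ((CoK.of_inv (hG := hG) he hR h1 h2).mul he hR (CoK.diag he hR i)).mul he hR
      (ih h4 P' h5)
    convert h6 using 1
    omega

end DC56
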