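import Pool.Agent.LibDC56.TJ0
import Pool.Agent.LibDC56.TK
import Pool.Agent.LibDC56.TPa
import Pool.Agent.LibDC56.TG3

/-!
[DC56 TJ3] INJ, `u` a loop vertex.
-/

namespace DC56

open LPA74 Relation Matrix
open DC29 (LG Rch IsLp MRel Mon mv Le exs wm Cl)
open LaurentPolynomial (T)

variable {G : Gph}

theorem absorb_nsmul (hG : LG G) {c : G.V} (hc : IsLp G c) {k : ℕ} (hk : k ≠ 0) (t : ℕ) :
    k • mv c + t • wm hG c = k • mv c := by
  obtain ⟨k, rfl⟩ := Nat.exists_eq_succ_of_ne_zero hk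
  have h : mv c + wm hG c = mv c := by
    rw [← mk_es]
    exact mv_loop hG hc
  induction t with
  | zero => rw [zero_nsmul, add_zero]
  | succ t ih =>
    rw [succ_nsmul (wm hG c) t, ← add_assoc, ih, succ_nsmul (mv c) k, add_assoc, h]

section nu

variable {A : Type} [NonUnitalNonAssocSemiring A] {m₁ m₂ n₁ n₂ k₁ k₂ : Type}
  [Fintype n₁] [Fintype n₂] [Fintype k₁]

theorem fc_mul_fr (A₁ : Matrix m₁ n₁ A) (A₂ : Matrix m₁ n₂ A) (B₁ : Matrix n₁ k₁ A)
    (B₂ : Matrix n₂ k₁ A) : fromCols A₁ A₂ * fromRows B₁ B₂ = A₁ * B₁ + A₂ * B₂ := by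
  ext1 i j
  rw [Matrix.mul_apply, Fintype.sum_sum_type]
  rfl

theorem fc_mul_fb (A₁ : Matrix m₁ n₁ A) (A₂ : Matrix m₁ n₂ A) (B₁₁ : Matrix n₁ k₁ A)
    (B₁₂ : Matrix n₁ k₂ A) (B₂₁ : Matrix n₂ k₁ A) (B₂₂ : Matrix n₂ k₂ A) :
    fromCols A₁ A₂ * fromBlocks B₁₁ B₁₂ B₂₁ B₂₂ =
      fromCols (A₁ * B₁₁ + A₂ * B₂₁) (A₁ * B₁₂ + A₂ * B₂₂) := by
  ext1 i j
  rw [Matrix.mul_apply, Fintype.sum_sum_type]
  rcases j with j | j <;> rfl

theorem fr_mul_fc (A₁ : Matrix m₁ k₁ A) (A₂ : Matrix m₂ k₁ A) (B₁ : Matrix k₁ n₁ A)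
    (B₂ : Matrix k₁ n₂ A) : fromRows A₁ A₂ * fromCols B₁ B₂ =
      fromBlocks (A₁ * B₁) (A₁ * B₂) (A₂ * B₁) (A₂ * B₂) := by
  ext1 i j
  rw [Matrix.mul_apply]
  rcases i with i | i <;> rcases j with j | j <;> rfl

theorem fb_sub {B m₁ m₂ n₁ n₂ : Type} [AddGroup B] (A₁₁ B₁₁ : Matrix m₁ n₁ B)
    (A₁₂ B₁₂ : Matrix m₁ n₂ B) (A₂₁ B₂₁ : Matrix m₂ n₁ B) (A₂₂ B₂₂ : Matrix m₂ n₂ B) :
    fromBlocks A₁₁ A₁₂ A₂₁ A₂₂ - fromBlocks B₁₁ B₁₂ B₂₁ B₂₂ =
      fromBlocks (A₁₁ - B₁₁) (A₁₂ - B₁₂) (A₂₁ - B₂₁) (A₂₂ - B₂₂) := by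
  ext1 i j
  rcases i with i | i <;> rcases j with j | j <;> rfl

end nu

/-- the symbols of an equivalence of families with separated loop vertices -/
theorem symm_block [Countable G.Ed] (hG : LG G) {X R : Finset G.V} {e : G.Ed}
    (he : G.r e = G.s e) (hu : Tp X (G.s e)) {k m l n : ℕ} {d : Fin m → G.V} {d' : Fin n → G.V}
    (hd : ∀ j, d j ∈ X ∧ d j ≠ G.s e) (hd' : ∀ j, d' j ∈ X ∧ d' j ≠ G.s e)
    {Y : Matrix (Fin k ⊕ Fin m) (Fin l ⊕ Fin n) (LA G)}
    {Z : Matrix (Fin l ⊕ Fin n) (Fin k ⊕ Fin m) (LA G)}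
    (hY1 : dg (Sum.elim (fun _ : Fin k => G.s e) d) * Y = Y)
    (hZ1 : dg (Sum.elim (fun _ : Fin l => G.s e) d') * Z = Z)
    (hYZ : Y * Z = dg (Sum.elim (fun _ : Fin k => G.s e) d))
    {P : Matrix (Fin k ⊕ Fin m) (Fin l ⊕ Fin n) (LaurentPolynomial ℂ)}
    {Q : Matrix (Fin l ⊕ Fin n) (Fin k ⊕ Fin m) (LaurentPolynomial ℂ)}
    (hP : ∀ i j, Sy e (Y i j) (P i j)) (hQ : ∀ i j, Sy e (Z i j) (Q i j)) :
    P.toBlocks₁₁ * Q.toBlocks₁₁ = 1 := by
  ext1 i j
  have h1 := Sy.matMul he hP hQ (Sum.inl i) (Sum.inl j)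
  rw [hYZ] at h1
  have h2 : Sy e (dg (Sum.elim (fun _ : Fin k => G.s e) d) (Sum.inl i) (Sum.inl j))
      ((1 : Matrix (Fin k) (Fin k) (LaurentPolynomial ℂ)) i j) := by
    rw [dg, diagonal_apply, Matrix.one_apply]
    by_cases hij : i = j
    · rw [if_pos (by rw [hij]), if_pos hij]
      have h3 := Sy.ev he 1
      rwa [ev_one, map_one] at h3
    · rw [if_neg (fun h => hij (Sum.inl_injective h)), if_neg hij]
      exact Sy.zero e
  rw [← Sy.unique he h1 h2, Matrix.mul_apply, Matrix.mul_apply, Fintype.sum_sum_type]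
  have h3 : ∀ x : Fin n, Q (Sum.inr x) (Sum.inl j) = 0 := by
    intro x
    refine Sy.unique he (hQ _ _) (Sy.h hG he (h := d' x) (fun h => (hd' x).2 (hu.2 _ (hd' x).1 h))
      ?_)
    have h4 := dg_mul_apply (Sum.elim (fun _ : Fin l => G.s e) d') Z (Sum.inr x) (Sum.inl j)
    rw [hZ1] at h4
    exact h4.symm
  simp only [h3, mul_zero, Finset.sum_const_zero, add_zero]
  rfl

theorem exists_sym (hG : LG G) {X : Finset G.V} {e : G.Ed} (he : G.r e = G.s e)
    (hu : Tp X (G.s e)) {k m : ℕ} {κ : Type} [Fintype κ] {d : Fin m → G.V}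
    (hd : ∀ j, d j ∈ X ∧ d j ≠ G.s e) {Y : Matrix (Fin k ⊕ Fin m) κ (LA G)}
    (hY1 : dg (Sum.elim (fun _ : Fin k => G.s e) d) * Y = Y) :
    ∃ P : Matrix (Fin k ⊕ Fin m) κ (LaurentPolynomial ℂ), (∀ i j, Sy e (Y i j) (P i j)) ∧
      ∀ i j, P (Sum.inr i) j = 0 := by
  have h1 : ∀ (i : Fin k) j, ∃ p, Sy e (Y (Sum.inl i) j) p := by
    intro i j
    refine Sy.exists_c hG he ?_
    have h4 := dg_mul_apply (Sum.elim (fun _ : Fin k => G.s e) d) Y (Sum.inl i) j
    rw [hY1] at h4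
    exact h4.symm
  choose p hp using h1
  refine ⟨Matrix.of fun i j => Sum.elim (fun i => p i j) (fun _ => 0) i, ?_, fun i j => rfl⟩
  rintro (i | i) j
  · exact hp i j
  · refine Sy.h hG he (h := d i) (fun h => (hd i).2 (hu.2 _ (hd i).1 h)) ?_
    have h4 := dg_mul_apply (Sum.elim (fun _ : Fin k => G.s e) d) Y (Sum.inr i) j
    rw [hY1] at h4
    exact h4.symm

/-- `u` is a loop vertex -/
theorem inj3 [DecidableEq G.V] [Countable G.Ed] (hG : LG G) {X R : Finset G.V} (hC : Clo X R)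
    {u : G.V} (hu : Tp X u) (ih : INJ (X.erase u) (R.erase u)) (huR : u ∈ R)
    (hl : IsLp G u) : INJ X R := by
  obtain ⟨e, rfl, he⟩ := hl
  refine inj_red (u := G.s e) fun k l m n d d' hd hd' hME => ?_
  have hv := vx_mem_StA R
  have hce : ed e ∈ StA R := ed_mem_StA huR
  have hsp : ∀ n, sp e n ∈ StA R := sp_mem hce (hv _)
  obtain ⟨Y, Z, hY, hZ, hYZ, hZY, hY1, hY2, hZ1, hZ2⟩ := hME
  obtain ⟨P, hP, hP0⟩ := exists_sym hG he hu hd hY1
  obtain ⟨Q, hQ, hQ0⟩ := exists_sym hG he hu hd' hZ1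
  have hPQ := symm_block (R := R) hG he hu hd hd' hY1 hZ1 hYZ hP hQ
  have hQP := symm_block (R := R) hG he hu hd' hd hZ1 hY1 hZY hQ hP
  have hkl : k = l := card_eq_of_inv hPQ hQP
  subst hkl
  obtain ⟨M, hM⟩ := exists_max (ι := Fin k ⊕ Fin m) (κ := Fin k) fun i j =>
    (hP i (Sum.inl j)).up he
  choose q hq hq' using hM
  let P' : Matrix (Fin k) (Fin k) (Polynomial ℂ) := Matrix.of fun i j => q (Sum.inl i) j
  obtain ⟨a, n', ha, hdet⟩ := det_unit (P' := P') hPQ (N := M) fun i j => hq' (Sum.inl i) j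
  obtain ⟨Q', mQ, hQ1, hQ2, hQ3, m', b₂, hb₂, hs₂, hE₂⟩ :=
    CoK.of_det (hG := hG) he huR ha P' hdet
  -- the matrices
  let φ : Matrix (Fin k ⊕ Fin m) (Fin k) (LA G) := Matrix.of fun i j => Y i (Sum.inl j) * sp e M
  let ψ : Matrix (Fin k) (Fin k ⊕ Fin m) (LA G) := Matrix.of fun i j =>
    star (sp e M) * Z (Sum.inl i) j
  have hφ : φ = fromRows (evm e P') 0 := by
    ext1 i j
    rcases i with i | i
    · exact hq (Sum.inl i) j
    · change Y (Sum.inr i) (Sum.inl j) * sp e M = 0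
      rw [hq (Sum.inr i) j]
      have e1 : q (Sum.inr i) j = 0 := by
        apply Polynomial.toLaurent_injective
        rw [hq', hP0, zero_mul, map_zero]
      rw [e1, ev_zero]
  have mφ : MIn (StA R) φ := fun i j => mul_mem (hY _ _) (hsp M)
  have mψ : MIn (StA R) ψ := fun i j => mul_mem (star_mem (hsp M)) (hZ _ _)
  have mψ' : MIn (StA R) (fromCols Q' (0 : Matrix (Fin k) (Fin m) (LA G))) := by
    intro i j
    rcases j with j | j
    · exact mQ i j
    · exact zero_mem _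
  have e1 : ψ * φ = dg (fun _ : Fin k => G.s e) := by
    ext1 i j
    have e2 : (ψ * φ) i j = star (sp e M) * (Z * Y) (Sum.inl i) (Sum.inl j) * sp e M := by
      rw [Matrix.mul_apply, Matrix.mul_apply, Finset.mul_sum, Finset.sum_mul]
      refine Finset.sum_congr rfl fun x _ => ?_
      change star (sp e M) * Z (Sum.inl i) x * (Y x (Sum.inl j) * sp e M) = _
      simp only [mul_assoc]
    rw [e2, hZY, dg, dg, diagonal_apply, diagonal_apply]
    by_cases hij : i = j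
    · rw [if_pos (by rw [hij]), if_pos hij]
      change star (sp e M) * vx (G.s e) * sp e M = vx (G.s e)
      rw [mul_assoc, vx_mul_sp he, star_sp_mul_sp he]
    · rw [if_neg (fun h => hij (Sum.inl_injective h)), if_neg hij, mul_zero, zero_mul]
  have e2 : fromCols Q' (0 : Matrix (Fin k) (Fin m) (LA G)) * φ =
      dg (fun _ : Fin k => G.s e) := by
    rw [hφ, fc_mul_fr, hQ1, Matrix.zero_mul, add_zero]
  have f1 : dg (Sum.elim (fun _ : Fin k => G.s e) d) * φ = φ := by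
    ext1 i j
    rw [dg_mul_apply]
    change vx _ * (Y i (Sum.inl j) * sp e M) = Y i (Sum.inl j) * sp e M
    rw [← mul_assoc, ← dg_mul_apply, hY1]
  have f2 : φ * dg (fun _ : Fin k => G.s e) = φ := by
    ext1 i j
    rw [mul_dg_apply]
    change Y i (Sum.inl j) * sp e M * vx (G.s e) = Y i (Sum.inl j) * sp e M
    rw [mul_assoc, sp_mul_vx]
  have f3 : ψ * dg (Sum.elim (fun _ : Fin k => G.s e) d) = ψ := by
    ext1 i j
    rw [mul_dg_apply]
    change star (sp e M) * Z (Sum.inl i) j * vx _ = star (sp e M) * Z (Sum.inl i) j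
    rw [mul_assoc, ← mul_dg_apply, hZ2]
  have f4 : fromCols Q' (0 : Matrix (Fin k) (Fin m) (LA G)) *
      dg (Sum.elim (fun _ : Fin k => G.s e) d) = fromCols Q' 0 := by
    rw [dg_sum, fc_mul_fb, hQ3]
    simp
  have g1 := ME.compl (fun i => hv _) mφ mψ mψ' e1 e2 f1 f2 f3 f4
  -- the right complement
  have g2 : dg (Sum.elim (fun _ : Fin k => G.s e) d) -
      φ * fromCols Q' (0 : Matrix (Fin k) (Fin m) (LA G)) =
      fromBlocks (dg (fun _ : Fin k => G.s e) - evm e P' * Q') 0 0 (dg d) := by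
    rw [hφ, fr_mul_fc, dg_sum]
    rw [fb_sub]
    simp
  have g3 : ME (StA R) (dg (Sum.elim (fun _ : Fin k => G.s e) d) -
      φ * fromCols Q' (0 : Matrix (Fin k) (Fin m) (LA G))) (dg (Sum.elim b₂ d)) := by
    rw [g2, dg_sum]
    exact hE₂.blocks (ME.refl (MIn.dg fun i => hv _) (dg_mul_dg d))
  -- the left complement
  have hpi := pi_sp hG he M huR
  obtain ⟨n₃, b₃, hb₃, hE₃, hs₃⟩ := pi_dg hpi hv (Fin k)
  rw [sum_pi_sp hG he M] at hE₃
  set t : LA G := vx (G.s e) - sp e M * star (sp e M) with ht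
  have htt : t * t = t := by
    have h5 : (vx (G.s e) : LA G) * (sp e M * star (sp e M)) = sp e M * star (sp e M) := by
      rw [← mul_assoc, vx_mul_sp he]
    have h6 : sp e M * star (sp e M) * vx (G.s e) = sp e M * star (sp e M) := by
      have h7 := congrArg star (vx_mul_sp he M)
      rw [star_mul, star_vx] at h7
      rw [mul_assoc, h7]
    have h8 : sp e M * star (sp e M) * (sp e M * star (sp e M)) = sp e M * star (sp e M) := by
      rw [mul_assoc, ← mul_assoc (star (sp e M)), star_sp_mul_sp he, ← mul_assoc, sp_mul_vx]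
    rw [ht, sub_mul, mul_sub, mul_sub, vx_mul_self, h5, h6, h8]
    simp
  let J : Matrix (Fin k ⊕ Fin n) (Fin k ⊕ Fin n) (LA G) :=
    fromBlocks (DS (Fin k) t) 0 0 (dg d')
  have hJ : J = fromBlocks (DS (Fin k) t) 0 0 (dg d') := rfl
  have hDtt : DS (Fin k) t * DS (Fin k) t = DS (Fin k) t := by
    rw [Matrix.diagonal_mul_diagonal]
    simp only [htt]
  have hJJ : J * J = J := by
    rw [hJ, fromBlocks_multiply, hDtt, dg_mul_dg]
    simp
  have mJ : MIn (StA R) J := by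
    rintro (i | i) (j | j)
    · change DS (Fin k) t i j ∈ _
      rw [DS_apply]
      split_ifs
      · exact sub_mem (hv _) (mul_mem (hsp M) (star_mem (hsp M)))
      · exact zero_mem _
    · exact zero_mem _
    · exact zero_mem _
    · exact MIn.dg (fun i => hv _) i j
  have hJb : J = dg (Sum.elim (fun _ : Fin k => G.s e) d') -
      fromBlocks (DS (Fin k) (sp e M * star (sp e M))) 0 0 0 := by
    have h9 : DS (Fin k) t = dg (fun _ : Fin k => G.s e) -
        DS (Fin k) (sp e M * star (sp e M)) := by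
      rw [dg, Matrix.diagonal_sub]
    rw [hJ, dg_sum, h9, fb_sub]
    simp
  have hJd : J * dg (Sum.elim (fun _ : Fin k => G.s e) d') = J := by
    have h9 : DS (Fin k) t * dg (fun _ : Fin k => G.s e) = DS (Fin k) t := by
      rw [dg, Matrix.diagonal_mul_diagonal]
      congr 1
      funext i
      rw [ht, sub_mul, vx_mul_self, mul_assoc]
      have h7 := congrArg star (vx_mul_sp he M)
      rw [star_mul, star_vx] at h7
      rw [h7]
    rw [hJ, dg_sum, fromBlocks_multiply, h9, dg_mul_dg]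
    simp
  have hYJZ : Y * J * Z = dg (Sum.elim (fun _ : Fin k => G.s e) d) - φ * ψ := by
    rw [hJb, Matrix.mul_sub, hY2, Matrix.sub_mul, hYZ]
    congr 1
    ext1 i j
    rw [Matrix.mul_apply, Matrix.mul_apply, Fintype.sum_sum_type]
    have h9 : ∀ x : Fin k, (Y * fromBlocks (DS (Fin k) (sp e M * star (sp e M))) 0 0
        (0 : Matrix (Fin n) (Fin n) (LA G))) i (Sum.inl x) =
        Y i (Sum.inl x) * (sp e M * star (sp e M)) := by
      intro x
      rw [Matrix.mul_apply, Fintype.sum_sum_type]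
      have h10 : ∀ y : Fin k, Y i (Sum.inl y) *
          fromBlocks (DS (Fin k) (sp e M * star (sp e M))) 0 0
          (0 : Matrix (Fin n) (Fin n) (LA G)) (Sum.inl y) (Sum.inl x) =
          if y = x then Y i (Sum.inl x) * (sp e M * star (sp e M)) else 0 := by
        intro y
        change Y i (Sum.inl y) * DS (Fin k) (sp e M * star (sp e M)) y x = _
        rw [DS_apply]
        split_ifs with h
        · rw [h]
        · rw [mul_zero]
      have h11 : ∀ y : Fin n, Y i (Sum.inr y) *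
          fromBlocks (DS (Fin k) (sp e M * star (sp e M))) 0 0
          (0 : Matrix (Fin n) (Fin n) (LA G)) (Sum.inr y) (Sum.inl x) = 0 := by
        intro y
        change Y i (Sum.inr y) * 0 = 0
        rw [mul_zero]
      simp only [h10, h11, Finset.sum_ite_eq', Finset.mem_univ, if_true, Finset.sum_const_zero,
        add_zero]
    have h12 : ∀ x : Fin n, (Y * fromBlocks (DS (Fin k) (sp e M * star (sp e M))) 0 0
        (0 : Matrix (Fin n) (Fin n) (LA G))) i (Sum.inr x) = 0 := by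
      intro x
      rw [Matrix.mul_apply, Fintype.sum_sum_type]
      have h10 : ∀ y : Fin k, Y i (Sum.inl y) *
          fromBlocks (DS (Fin k) (sp e M * star (sp e M))) 0 0
          (0 : Matrix (Fin n) (Fin n) (LA G)) (Sum.inl y) (Sum.inr x) = 0 := by
        intro y
        change Y i (Sum.inl y) * 0 = 0
        rw [mul_zero]
      have h11 : ∀ y : Fin n, Y i (Sum.inr y) *
          fromBlocks (DS (Fin k) (sp e M * star (sp e M))) 0 0
          (0 : Matrix (Fin n) (Fin n) (LA G)) (Sum.inr y) (Sum.inr x) = 0 := by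
        intro y
        change Y i (Sum.inr y) * 0 = 0
        rw [mul_zero]
      simp only [h10, h11, Finset.sum_const_zero, add_zero]
    simp only [h9, h12, zero_mul, Finset.sum_const_zero, add_zero]
    refine Finset.sum_congr rfl fun x _ => ?_
    change Y i (Sum.inl x) * (sp e M * star (sp e M)) * Z (Sum.inl x) j =
      Y i (Sum.inl x) * sp e M * (star (sp e M) * Z (Sum.inl x) j)
    simp only [mul_assoc]
  have g4 : ME (StA R) (dg (Sum.elim (fun _ : Fin k => G.s e) d) - φ * ψ) J := by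
    rw [← hYJZ]
    have h13 : Y * J * (J * Z) = Y * J * Z := by
      rw [Matrix.mul_assoc, ← Matrix.mul_assoc J, hJJ, ← Matrix.mul_assoc]
    have h14 : J * Z * (Y * J) = J := by
      rw [Matrix.mul_assoc, ← Matrix.mul_assoc Z, hZY, ← Matrix.mul_assoc, hJd, hJJ]
    refine ME.mk' (hY.mul mJ) (mJ.mul hZ) h13 h14 ?_ hJJ
    rw [← h13, Matrix.mul_assoc (Y * J), ← Matrix.mul_assoc (J * Z), h14,
      ← Matrix.mul_assoc J J, hJJ]
  have g5 : ME (StA R) J (dg (Sum.elim b₃ d')) := by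
    rw [hJ, dg_sum]
    exact hE₃.blocks (ME.refl (MIn.dg fun i => hv _) (dg_mul_dg d'))
  -- the induction hypothesis
  have g6 : ME (StA R) (dg (Sum.elim b₃ d')) (dg (Sum.elim b₂ d)) :=
    ((g4.trans g5).symm.trans g1).trans g3
  have hexX : ∀ f ∈ exs hG (G.s e), G.r f ∈ X.erase (G.s e) := by
    intro f hf
    rw [mem_exs] at hf
    exact Finset.mem_erase.2 ⟨hf.2, hC.succ f (by rw [hf.1]; exact huR)⟩
  have g7 := ih _ _ _ _ (fun i => by
    rcases i with i | i
    · obtain ⟨l, hl⟩ := hb₃ i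
      change b₃ i ∈ _
      rw [hl]
      exact hexX _ l.2.2
    · exact Finset.mem_erase.2 ⟨(hd' i).2, (hd' i).1⟩) (fun i => by
    rcases i with i | i
    · obtain ⟨f, hf, hl⟩ := hb₂ i
      change b₂ i ∈ _
      rw [hl]
      exact hexX _ hf
    · exact Finset.mem_erase.2 ⟨(hd i).2, (hd i).1⟩) (ME_erase hG hu (fun i => by
    rcases i with i | i
    · obtain ⟨l, hl⟩ := hb₃ i
      change b₃ i ∈ _
      rw [hl]
      exact hexX _ l.2.2
    · exact Finset.mem_erase.2 ⟨(hd' i).2, (hd' i).1⟩) (fun i => by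
    rcases i with i | i
    · obtain ⟨f, hf, hl⟩ := hb₂ i
      change b₂ i ∈ _
      rw [hl]
      exact hexX _ hf
    · exact Finset.mem_erase.2 ⟨(hd i).2, (hd i).1⟩) g6)
  rw [Fintype.sum_sum_type, Fintype.sum_sum_type] at g7
  simp only [Sum.elim_inl, Sum.elim_inr] at g7
  have g8 : ∑ l : Fin M × {f // f ∈ exs hG (G.s e)}, mv (G.r l.2.1) =
      M • wm hG (G.s e) := by
    rw [Fintype.sum_prod_type]
    simp only [Finset.sum_const, Finset.card_univ, Fintype.card_fin]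
    congr 1
    exact Finset.sum_coe_sort (exs hG (G.s e)) fun f => mv (G.r f)
  rw [hs₃, hs₂, g8, Fintype.card_fin, ← mul_smul] at g7
  by_cases hk : k = 0
  · subst hk
    have h15 : n' = 0 := by
      rw [Matrix.det_isEmpty] at hdet
      have h16 := congrArg Polynomial.natDegree hdet
      rw [Polynomial.natDegree_one, Polynomial.natDegree_C_mul_X_pow n' a ha] at h16
      exact h16.symm
    rw [h15, zero_mul, zero_nsmul, zero_add, zero_add] at g7
    rw [zero_nsmul, zero_add, zero_add, g7]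
  · have hlp : IsLp G (G.s e) := ⟨e, rfl, he⟩
    rw [← absorb_nsmul hG hlp hk n', add_assoc, ← g7, ← add_assoc, absorb_nsmul hG hlp hk,
      absorb_nsmul hG hlp hk]

end DC56
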