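import Pool.Agent.LibDC56.TG1
import Pool.Agent.LibDC56.TG3
import Pool.Agent.LibDC56.TJ1
import Pool.Agent.LibDC56.TJ2
import Pool.Agent.LibDC56.TJ3
import Pool.Agent.LibLPA74.EQ

/-!
[DC56 TF] Section 3, results: `exists_cl` and `Cl.unique`.
-/

namespace DC56

open LPA74 Relation Matrix
open DC29 (LG Rch IsLp MRel Mon mv Le exs wm Cl)

variable {G : Gph}

theorem clo_erase [DecidableEq G.V] (hG : LG G) {X R : Finset G.V} (hC : Clo X R) {u : G.V}
    (hu : Tp X u) : Clo (X.erase u) (R.erase u) := by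
  refine ⟨Finset.erase_subset_erase _ hC.sub, fun f hf => ?_,
    fun v hv => hC.reg v (Finset.mem_of_mem_erase hv)⟩
  rw [Finset.mem_erase] at hf ⊢
  refine ⟨fun h => hf.1 ?_, hC.succ f hf.2⟩
  exact hu.2 _ (hC.sub hf.2) (ReflTransGen.single ⟨f, rfl, h⟩)

theorem gen_inj [Countable G.Ed] (hG : LG G) {X R : Finset G.V} (hC : Clo X R) :
    GEN X R ∧ INJ X R := by
  classical
  induction hn : X.card generalizing X R with
  | zero =>
    have hX : X = ∅ := Finset.card_eq_zero.1 hn
    subst hX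
    refine ⟨fun ι _ _ a x ha hx h1 h2 h3 => ?_, fun ι κ _ _ _ _ a b ha hb h => ?_⟩
    · have hι : IsEmpty ι := ⟨fun i => Finset.notMem_empty _ (ha i)⟩
      refine ⟨0, Fin.elim0, fun j => j.elim0, ?_⟩
      refine ⟨fun i => isEmptyElim i, fun i => i.elim0, fun i => isEmptyElim i,
        fun i => i.elim0, ?_, ?_, ?_, ?_, ?_, ?_⟩
      · ext i; exact isEmptyElim i
      · ext i; exact i.elim0
      · ext i; exact isEmptyElim i
      · ext i; exact isEmptyElim i
      · ext i; exact i.elim0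
      · ext i; exact i.elim0
    · have hι : IsEmpty ι := ⟨fun i => Finset.notMem_empty _ (ha i)⟩
      have hκ : IsEmpty κ := ⟨fun i => Finset.notMem_empty _ (hb i)⟩
      rw [Finset.univ_eq_empty, Finset.univ_eq_empty, Finset.sum_empty, Finset.sum_empty]
  | succ n ih =>
    obtain ⟨u, hu, htop⟩ := exists_top hG X (Finset.card_pos.1 (by omega))
    have hT : Tp X u := ⟨hu, htop⟩
    obtain ⟨ihg, ihi⟩ := ih (clo_erase hG hC hT) (by rw [Finset.card_erase_of_mem hu, hn]; rfl)
    by_cases huR : u ∈ R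
    · by_cases hl : IsLp G u
      · exact ⟨gen3 hG hC hT ihg huR hl, inj3 hG hC hT ihi huR hl⟩
      · exact ⟨gen2 hG hC hT ihg huR hl, inj2 hG hC hT ihi huR hl⟩
    · exact ⟨gen1 hG hC hT ihg huR, inj1 hG hC hT ihi huR⟩

theorem Cl_unique [Countable G.Ed] (hG : LG G) {x x' : LA G} {m m' : Mon G} (h : Cl x m)
    (h' : Cl x' m') (hx : Eqv x x') : m = m' := by
  classical
  obtain ⟨n, a, y, z, e1, e2, e3, e4, rfl⟩ := h
  obtain ⟨n', a', y', z', e1', e2', e3', e4', rfl⟩ := h'
  obtain ⟨p, q, hpq, hqp, hp, hq⟩ := hx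
  have hxy : ∀ i, x * y i = y i := by
    intro i
    rw [e1, Finset.sum_mul, Finset.sum_eq_single i]
    · rw [mul_assoc, e2, if_pos rfl, e3]
    · intro j _ hj
      rw [mul_assoc, e2, if_neg hj, mul_zero]
    · intro h
      exact absurd (Finset.mem_univ i) h
  have hxy' : ∀ i, x' * y' i = y' i := by
    intro i
    rw [e1', Finset.sum_mul, Finset.sum_eq_single i]
    · rw [mul_assoc, e2', if_pos rfl, e3']
    · intro j _ hj
      rw [mul_assoc, e2', if_neg hj, mul_zero]
    · intro h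
      exact absurd (Finset.mem_univ i) h
  let Y : Matrix (Fin n) (Fin n') (LA G) := Matrix.of fun i j => z i * p * y' j
  let Z : Matrix (Fin n') (Fin n) (LA G) := Matrix.of fun j i => z' j * q * y i
  obtain ⟨X, R, hC, hX, hR⟩ := exists_clo hG
    ((Finset.univ.image fun ij : Fin n × Fin n' => z ij.1 * p * y' ij.2) ∪
      (Finset.univ.image fun ij : Fin n × Fin n' => z' ij.2 * q * y ij.1))
    (Finset.univ.image a ∪ Finset.univ.image a')
  refine (gen_inj hG hC).2 (Fin n) (Fin n') a a'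
    (fun i => hX (Finset.mem_union_left _ (Finset.mem_image_of_mem _ (Finset.mem_univ i))))
    (fun i => hX (Finset.mem_union_right _ (Finset.mem_image_of_mem _ (Finset.mem_univ i))))
    ⟨Y, Z, ?_, ?_, ?_, ?_, ?_, ?_, ?_, ?_⟩
  · intro i j
    exact hR _ (Finset.mem_union_left _ (Finset.mem_image_of_mem
      (fun ij : Fin n × Fin n' => z ij.1 * p * y' ij.2) (Finset.mem_univ (i, j))))
  · intro j i
    exact hR _ (Finset.mem_union_right _ (Finset.mem_image_of_mem
      (fun ij : Fin n × Fin n' => z' ij.2 * q * y ij.1) (Finset.mem_univ (i, j))))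
  · ext1 i k
    rw [Matrix.mul_apply, dg, Matrix.diagonal_apply, ← e2 i k]
    calc ∑ j, z i * p * y' j * (z' j * q * y k)
        = z i * p * (∑ j, y' j * z' j) * q * y k := by
          simp only [Finset.mul_sum, Finset.sum_mul, mul_assoc]
      _ = z i * (p * q * p) * q * y k := by
          rw [← e1', ← hqp]
          simp only [mul_assoc]
      _ = z i * y k := by
          rw [hp, mul_assoc (z i), hpq, mul_assoc, hxy]
  · ext1 i k
    rw [Matrix.mul_apply, dg, Matrix.diagonal_apply, ← e2' i k]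
    calc ∑ j, z' i * q * y j * (z j * p * y' k)
        = z' i * q * (∑ j, y j * z j) * p * y' k := by
          simp only [Finset.mul_sum, Finset.sum_mul, mul_assoc]
      _ = z' i * (q * p * q) * p * y' k := by
          rw [← e1, ← hpq]
          simp only [mul_assoc]
      _ = z' i * y' k := by
          rw [hq, mul_assoc (z' i), hqp, mul_assoc, hxy']
  · ext1 i j
    rw [dg_mul_apply]
    change vx (a i) * (z i * p * y' j) = z i * p * y' j
    rw [← mul_assoc, ← mul_assoc, e4]
  · ext1 i j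
    rw [mul_dg_apply]
    change z i * p * y' j * vx (a' j) = z i * p * y' j
    rw [mul_assoc, e3']
  · ext1 i j
    rw [dg_mul_apply]
    change vx (a' i) * (z' i * q * y j) = z' i * q * y j
    rw [← mul_assoc, ← mul_assoc, e4']
  · ext1 i j
    rw [mul_dg_apply]
    change z' i * q * y j * vx (a j) = z' i * q * y j
    rw [mul_assoc, e3]

/-- local units -/
theorem exists_unit (x : LA G) : ∃ S : Finset G.V, ∀ T : Finset G.V, S ⊆ T →
    (∑ v ∈ T, vx v) * x = x ∧ x * (∑ v ∈ T, vx v) = x := by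
  classical
  have hvx : ∀ (a : G.V) (T : Finset G.V), a ∈ T → (∑ v ∈ T, vx v) * vx a = (vx a : LA G) ∧
      vx a * (∑ v ∈ T, vx v) = (vx a : LA G) := by
    intro a T haT
    constructor
    · rw [Finset.sum_mul, Finset.sum_eq_single a]
      · exact vx_mul_self a
      · intro b _ hb
        exact vx_mul_ne hb
      · intro h
        exact absurd haT h
    · rw [Finset.mul_sum, Finset.sum_eq_single a]
      · exact vx_mul_self a
      · intro b _ hb
        exact vx_mul_ne (Ne.symm hb)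
      · intro h
        exact absurd haT h
  refine LA.induction (p := fun x => ∃ S : Finset G.V, ∀ T : Finset G.V, S ⊆ T →
    (∑ v ∈ T, vx v) * x = x ∧ x * (∑ v ∈ T, vx v) = x) ?_ ?_ ?_ ?_ ?_ ?_ ?_ x
  · intro a
    refine ⟨{a}, fun T hT => hvx a T (hT (Finset.mem_singleton_self a))⟩
  · intro f
    refine ⟨{G.s f, G.r f}, fun T hT => ⟨?_, ?_⟩⟩
    · rw [← vx_mul_ed f, ← mul_assoc,
        (hvx (G.s f) T (hT (Finset.mem_insert_self _ _))).1]
    · rw [← ed_mul_vx f, mul_assoc, (hvx (G.r f) T (hT (Finset.mem_insert_of_mem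
        (Finset.mem_singleton_self _)))).2]
  · exact ⟨∅, fun T _ => ⟨mul_zero _, zero_mul _⟩⟩
  · rintro x y ⟨S, hS⟩ ⟨S', hS'⟩
    refine ⟨S ∪ S', fun T hT => ?_⟩
    obtain ⟨h1, h2⟩ := hS T (Finset.subset_union_left.trans hT)
    obtain ⟨h3, h4⟩ := hS' T (Finset.subset_union_right.trans hT)
    exact ⟨by rw [mul_add, h1, h3], by rw [add_mul, h2, h4]⟩
  · rintro x y ⟨S, hS⟩ ⟨S', hS'⟩
    refine ⟨S ∪ S', fun T hT => ?_⟩
    obtain ⟨h1, h2⟩ := hS T (Finset.subset_union_left.trans hT)
    obtain ⟨h3, h4⟩ := hS' T (Finset.subset_union_right.trans hT)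
    exact ⟨by rw [← mul_assoc, h1], by rw [mul_assoc, h4]⟩
  · rintro c x ⟨S, hS⟩
    refine ⟨S, fun T hT => ?_⟩
    obtain ⟨h1, h2⟩ := hS T hT
    exact ⟨by rw [mul_smul_comm, h1], by rw [smul_mul_assoc, h2]⟩
  · rintro x ⟨S, hS⟩
    refine ⟨S, fun T hT => ?_⟩
    obtain ⟨h1, h2⟩ := hS T hT
    have h3 : star (∑ v ∈ T, vx v : LA G) = ∑ v ∈ T, vx v := by
      rw [star_sum]
      exact Finset.sum_congr rfl fun v _ => star_vx v
    constructor
    · have h4 := congrArg star h2
      rwa [star_mul, h3] at h4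
    · have h4 := congrArg star h1
      rwa [star_mul, h3] at h4

theorem exists_cl [Countable G.Ed] (hG : LG G) {x : LA G} (hx : x * x = x)
    (F : Finset (LA G)) : ∃ (n : ℕ) (a : Fin n → G.V) (y z : Fin n → LA G),
      x = ∑ i, y i * z i ∧ (∀ i j, z i * y j = if i = j then vx (a i) else 0) ∧
      (∀ i, y i * vx (a i) = y i) ∧ (∀ i, vx (a i) * z i = z i) ∧
      ∀ i, IsLp G (a i) ∨ ∀ f ∈ F, ∃ k : ℂ, z i * f * y i = k • vx (a i) := by
  classical
  obtain ⟨S, hS⟩ := exists_unit x
  obtain ⟨hS1, hS2⟩ := hS S (Finset.Subset.refl S)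
  obtain ⟨X, R, hC, hX, hR⟩ := exists_clo hG (insert x F) S
  have hv := vx_mem_StA (G := G) R
  have hsum : ∑ v : {v // v ∈ S}, (vx v.1 : LA G) = ∑ v ∈ S, vx v :=
    Finset.sum_coe_sort S fun v => (vx v : LA G)
  let x' : Matrix {v // v ∈ S} {v // v ∈ S} (LA G) := Matrix.of fun i j => vx i.1 * x * vx j.1
  have hx' : ∀ i j, x' i j = vx i.1 * x * vx j.1 := fun i j => rfl
  obtain ⟨n, b, hb, Y, Z, hY, hZ, hYZ, hZY, hY1, hY2, hZ1, hZ2⟩ := (gen_inj hG hC).1
    {v // v ∈ S} (fun v => v.1) x' (fun i => hX i.2)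
    (fun i j => mul_mem (mul_mem (hv _) (hR x (Finset.mem_insert_self x F))) (hv _))
    (by
      ext1 i j
      rw [dg_mul_apply, hx', ← mul_assoc, ← mul_assoc, vx_mul_self])
    (by
      ext1 i j
      rw [mul_dg_apply, hx', mul_assoc, vx_mul_self])
    (by
      ext1 i j
      rw [Matrix.mul_apply]
      simp only [hx']
      calc ∑ k : {v // v ∈ S}, vx i.1 * x * vx k.1 * (vx k.1 * x * vx j.1)
          = vx i.1 * x * (∑ k : {v // v ∈ S}, vx k.1) * x * vx j.1 := by
            simp only [Finset.mul_sum, Finset.sum_mul]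
            refine Finset.sum_congr rfl fun k _ => ?_
            rw [← mul_assoc, ← mul_assoc, mul_assoc (vx i.1 * x) (vx k.1), vx_mul_self]
        _ = vx i.1 * x * vx j.1 := by
            rw [hsum, mul_assoc (vx i.1) x, hS2, mul_assoc (vx i.1), hx])
  have hY3 : ∀ i j, vx i.1 * Y i j = Y i j := by
    intro i j
    have h3 : dg (fun v : {v // v ∈ S} => v.1) * x' = x' := by
      ext1 i j
      rw [dg_mul_apply, hx', ← mul_assoc, ← mul_assoc, vx_mul_self]
    have h4 : dg (fun v : {v // v ∈ S} => v.1) * Y = Y := by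
      rw [← hY1, ← Matrix.mul_assoc, h3]
    have h5 := congrFun (congrFun h4 i) j
    rwa [dg_mul_apply] at h5
  have hZ3 : ∀ i j, Z i j * vx j.1 = Z i j := by
    intro i j
    have h3 : x' * dg (fun v : {v // v ∈ S} => v.1) = x' := by
      ext1 i j
      rw [mul_dg_apply, hx', mul_assoc, vx_mul_self]
    have h4 : Z * dg (fun v : {v // v ∈ S} => v.1) = Z := by
      rw [← hZ2, Matrix.mul_assoc, h3]
    have h5 := congrFun (congrFun h4 i) j
    rwa [mul_dg_apply] at h5
  have hY4 : ∀ i j, Y i j * vx (b j) = Y i j := by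
    intro i j
    have h5 := congrFun (congrFun hY2 i) j
    rwa [mul_dg_apply] at h5
  have hZ4 : ∀ i j, vx (b i) * Z i j = Z i j := by
    intro i j
    have h5 := congrFun (congrFun hZ1 i) j
    rwa [dg_mul_apply] at h5
  have mY : ∀ j, ∑ i, Y i j ∈ StA R := fun j => sum_mem fun i _ => hY i j
  have mZ : ∀ j, ∑ i, Z j i ∈ StA R := fun j => sum_mem fun i _ => hZ j i
  have rY : ∀ j, (∑ i, Y i j) * vx (b j) = ∑ i, Y i j := by
    intro j
    rw [Finset.sum_mul]
    exact Finset.sum_congr rfl fun i _ => hY4 i j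
  have rZ : ∀ j, vx (b j) * (∑ i, Z j i) = ∑ i, Z j i := by
    intro j
    rw [Finset.mul_sum]
    exact Finset.sum_congr rfl fun i _ => hZ4 j i
  refine ⟨n, b, fun j => ∑ i, Y i j, fun j => ∑ i, Z j i, ?_, ?_, rY, rZ, ?_⟩
  · have h6 : ∑ j, (∑ i, Y i j) * (∑ i, Z j i) = ∑ i, ∑ k, x' i k := by
      calc ∑ j, (∑ i, Y i j) * (∑ i, Z j i) = ∑ j, ∑ i, ∑ k, Y i j * Z j k := by
            refine Finset.sum_congr rfl fun j _ => ?_
            rw [Finset.sum_mul_sum]
        _ = ∑ i, ∑ k, ∑ j, Y i j * Z j k := by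
            rw [Finset.sum_comm]
            refine Finset.sum_congr rfl fun i _ => ?_
            rw [Finset.sum_comm]
        _ = ∑ i, ∑ k, x' i k := by
            refine Finset.sum_congr rfl fun i _ => Finset.sum_congr rfl fun k _ => ?_
            rw [← hYZ, Matrix.mul_apply]
    rw [h6]
    simp only [hx']
    calc x = (∑ v ∈ S, vx v) * x * (∑ v ∈ S, vx v) := by rw [hS1, hS2]
      _ = ∑ i : {v // v ∈ S}, ∑ k : {v // v ∈ S}, vx i.1 * x * vx k.1 := by
          rw [← hsum, Finset.sum_mul, Finset.sum_mul]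
          refine Finset.sum_congr rfl fun i _ => ?_
          rw [Finset.mul_sum]
  · intro i j
    have h7 : ∀ k l : {v // v ∈ S}, k ≠ l → Z i k * Y l j = 0 := by
      intro k l hkl
      rw [← hZ3 i k, ← hY3 l j, mul_assoc, ← mul_assoc (vx k.1),
        vx_mul_ne (fun h => hkl (Subtype.ext h)), zero_mul, mul_zero]
    calc (∑ k, Z i k) * (∑ l, Y l j) = ∑ k, ∑ l, Z i k * Y l j := by
          rw [Finset.sum_mul_sum]
      _ = ∑ k, Z i k * Y k j := by
          refine Finset.sum_congr rfl fun k _ => ?_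
          rw [Finset.sum_eq_single k]
          · intro l _ hl
            exact h7 k l (Ne.symm hl)
          · intro h
            exact absurd (Finset.mem_univ k) h
      _ = (Z * Y) i j := by rw [Matrix.mul_apply]
      _ = _ := by rw [hZY, dg, Matrix.diagonal_apply]
  · intro i
    rcases (hb i).2 with h8 | h8
    · refine Or.inr fun f hf => ?_
      obtain ⟨k, hk⟩ := StA_scalar h8 (mul_mem (mul_mem (mZ i)
        (hR f (Finset.mem_insert_of_mem hf))) (mY i))
      refine ⟨k, ?_⟩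
      rw [← hk]
      change (∑ l, Z i l) * f * (∑ l, Y l i) = vx (b i) * ((∑ l, Z i l) * f * (∑ l, Y l i)) *
        vx (b i)
      rw [← mul_assoc, ← mul_assoc, rZ, mul_assoc _ _ (vx (b i)), rY]
    · exact Or.inl h8

end DC56
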