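import Pool.Agent.LibDC56.TC
import Pool.Agent.LibDC56.TS

/-!
[DC56 TG0] The common step of GEN. `x' = x - φ ψ` is idempotent and orthogonal to `φ ψ`; `compress` (TC) with `hw`, `h3` gives `y` over a
family `b` in `X.erase u`; the entries of `y = dg b * y * dg b` are in `StA (R.erase u)` (`StA_erase`), so `ih` applies:
`y ~ dg b'`, `ME.mono`. `φ ψ ~ dg (fun _ : Fin k => u)` (`ME.mk'`), `ME.orth`, `ME.blocks`, `dg_sum`, reindex `Fin k ⊕ Fin n ≃ Fin (k + n)`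
(`ME.dg_equiv`, `finSumFinEquiv`).
-/

namespace DC56

open LPA74 Relation Matrix
open DC29 (LG Rch IsLp MRel Mon mv Le exs wm Cl)

variable {G : Gph}

theorem gen_step [DecidableEq G.V] (hG : LG G) {X R : Finset G.V} (hC : Clo X R) {u : G.V}
    (hu : Tp X u) (ih : GEN (X.erase u) (R.erase u)) {ι : Type} [Fintype ι] [DecidableEq ι]
    {a : ι → G.V} {x : Matrix ι ι (LA G)} (ha : ∀ i, a i ∈ X) (hx : MIn (StA R) x)
    (h1 : dg a * x = x) (h2 : x * dg a = x) (hxx : x * x = x) {k : ℕ}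
    {φ : Matrix ι (Fin k) (LA G)} {ψ : Matrix (Fin k) ι (LA G)} (hφ : MIn (StA R) φ)
    (hψ : MIn (StA R) ψ) (e1 : ψ * φ = dg (fun _ : Fin k => u)) (e2 : x * φ = φ) (e3 : ψ * x = ψ)
    (e4 : φ * dg (fun _ : Fin k => u) = φ)
    (e5 : dg (fun _ : Fin k => u) * ψ = ψ) {Λ : Type} [Fintype Λ]
    {w : Λ → LA G} {r : Λ → G.V} (hw : PI (StA R) u w r) (hr : ∀ l, r l ∈ X.erase u)
    (h3 : ∀ i j, a j = u → (x - φ * ψ) i j * ∑ l, w l * star (w l) = (x - φ * ψ) i j)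
    (hk : k = 0 ∨ u ∉ R ∨ IsLp G u) :
    ∃ (n : ℕ) (b : Fin n → G.V), (∀ j, b j ∈ X ∧ (b j ∉ R ∨ IsLp G (b j))) ∧
      ME (StA R) x (dg b) := by
  have hv := vx_mem_StA R
  -- the projection `P = φ ψ`
  have hPP : φ * ψ * (φ * ψ) = φ * ψ := by
    rw [Matrix.mul_assoc, ← Matrix.mul_assoc ψ, e1, ← Matrix.mul_assoc, e4]
  have hxP : x * (φ * ψ) = φ * ψ := by rw [← Matrix.mul_assoc, e2]
  have hPx : φ * ψ * x = φ * ψ := by rw [Matrix.mul_assoc, e3]
  have haφ : dg a * φ = φ := by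
    conv_lhs => rw [← e2, ← Matrix.mul_assoc, h1, e2]
  have hψa : ψ * dg a = ψ := by
    conv_lhs => rw [← e3, Matrix.mul_assoc, h2, e3]
  have hP : MIn (StA R) (φ * ψ) := hφ.mul hψ
  have hx' : MIn (StA R) (x - φ * ψ) := hx.sub hP
  have hxx' : (x - φ * ψ) * (x - φ * ψ) = x - φ * ψ := by
    rw [Matrix.sub_mul, Matrix.mul_sub, Matrix.mul_sub, hxx, hxP, hPx, hPP]
    simp
  have hPx' : φ * ψ * (x - φ * ψ) = 0 := by
    rw [Matrix.mul_sub, hPx, hPP, sub_self]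
  have hx'P : (x - φ * ψ) * (φ * ψ) = 0 := by
    rw [Matrix.sub_mul, hxP, hPP, sub_self]
  have h1' : dg a * (x - φ * ψ) = x - φ * ψ := by
    rw [Matrix.mul_sub, h1, ← Matrix.mul_assoc, haφ]
  have h2' : (x - φ * ψ) * dg a = x - φ * ψ := by
    rw [Matrix.sub_mul, h2, Matrix.mul_assoc, hψa]
  obtain ⟨n, b, y, hb, hy, hy1, hy2, hyy, hME⟩ := compress hw hv hx' hxx' h1' h2' h3
  have hbX : ∀ j, b j ∈ X.erase u := by
    intro j
    rcases hb j with ⟨i, hi, hj⟩ | ⟨l, hj⟩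
    · rw [hj]
      exact Finset.mem_erase.2 ⟨hi, ha i⟩
    · rw [hj]
      exact hr l
  have hy' : MIn (StA (R.erase u)) y := by
    intro i j
    have e6 : y i j = vx (b i) * y i j * vx (b j) := by
      rw [← dg_mul_apply, hy1, ← mul_dg_apply, hy2]
    rw [e6]
    exact StA_erase hG hu (hy i j) (hbX i) (hbX j)
  obtain ⟨n', b', hb', hME'⟩ := ih (Fin n) b y hbX hy' hy1 hy2 hyy
  have hME2 : ME (StA R) (x - φ * ψ) (dg b') :=
    hME.trans (hME'.mono (StA_mono (Finset.erase_subset _ _)))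
  have hME3 : ME (StA R) (φ * ψ) (dg fun _ : Fin k => u) :=
    ME.mk' hφ hψ rfl e1 hPP (dg_mul_dg _)
  have hME4 := (ME.orth hP hx' hPP hxx' hPx' hx'P).trans (hME3.blocks hME2)
  rw [add_sub_cancel, ← dg_sum] at hME4
  have hME5 := hME4.trans (ME.dg_equiv (C := StA R) (a := Sum.elim (fun _ : Fin k => u) b')
    (b := fun i => Sum.elim (fun _ : Fin k => u) b' (finSumFinEquiv.symm i)) finSumFinEquiv
    (fun i => by rw [Equiv.symm_apply_apply]) fun i => hv _)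
  refine ⟨k + n', _, fun j => ?_, hME5⟩
  rcases h : finSumFinEquiv.symm j with i | i
  · simp only [h, Sum.elim_inl]
    refine ⟨hu.1, ?_⟩
    rcases hk with hk | hk
    · subst hk
      exact i.elim0
    · exact hk
  · simp only [h, Sum.elim_inr]
    have h5 := hb' i
    rw [Finset.mem_erase, Finset.mem_erase] at h5
    refine ⟨h5.1.2, ?_⟩
    rcases h5.2 with h6 | h6
    · left
      intro h7
      exact h6 ⟨h5.1.1, h7⟩
    · exact Or.inr h6

end DC56
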