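import Pool.Agent.LibDC56.TG0
import Pool.Agent.LibDC56.TPa
import Pool.Agent.LibLPA74.R1

/-!
[DC56 TG1] GEN, no edges out of `u`. By `StA_scalar` the entries `x i j` with `a i = a j = u` are `P i j • vx u`, by `StA_off` those with
exactly one of `a i`, `a j` equal to `u` are zero; `P i j = 0` unless `a i = a j = u`; `P` is an idempotent complex matrix (`vx_ne_zero`,
LibLPA74/R1), `split_idem`: `P = M N`, `N M = 1`; `M i k = (P M) i k = 0` for `a i ≠ u`. `φ i k = M i k • vx u`, `ψ k j = N k j • vx u`,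
`gen_step` with `Λ = Empty` (`(x - φ ψ) i j = 0` for `a j = u`).
-/

namespace DC56

open LPA74 Relation Matrix
open DC29 (LG Rch IsLp MRel Mon mv Le exs wm Cl)

variable {G : Gph}

/-- no edges out of `u` in the stage -/
theorem gen1 [DecidableEq G.V] [Countable G.Ed] (hG : LG G) {X R : Finset G.V} (hC : Clo X R) {u : G.V}
    (hu : Tp X u) (ih : GEN (X.erase u) (R.erase u)) (huR : u ∉ R) : GEN X R := by
  intro ι _ _ a x ha hx h1 h2 hxx
  have hv : ∀ v, vx v ∈ StA R := vx_mem_StA R
  have hl : ∀ i j, vx (a i) * x i j = x i j := by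
    intro i j
    have h3 := congrFun (congrFun h1 i) j
    rwa [dg_mul_apply] at h3
  have hr : ∀ i j, x i j * vx (a j) = x i j := by
    intro i j
    have h3 := congrFun (congrFun h2 i) j
    rwa [mul_dg_apply] at h3
  -- the off-diagonal entries
  have off1 : ∀ i j, a i = u → a j ≠ u → x i j = 0 := by
    intro i j hi hj
    have h3 := (StA_off hG hu huR (hx i j) (ha j) hj).1
    rw [← hi, hl, hr] at h3
    exact h3
  have off2 : ∀ i j, a i ≠ u → a j = u → x i j = 0 := by
    intro i j hi hj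
    have h3 := (StA_off hG hu huR (hx i j) (ha i) hi).2
    rw [hl, ← hj, hr] at h3
    exact h3
  have hP0 : ∀ i j, ∃ c : ℂ, (a i = u → a j = u → x i j = c • vx u) ∧
      (¬ (a i = u ∧ a j = u) → c = 0) := by
    intro i j
    by_cases h : a i = u ∧ a j = u
    · obtain ⟨c, hc⟩ := StA_scalar huR (hx i j)
      refine ⟨c, fun _ _ => ?_, fun h' => absurd h h'⟩
      rw [← hc]
      have h4 := hl i j
      have h5 := hr i j
      rw [h.1] at h4
      rw [h.2] at h5
      rw [h4, h5]
    · exact ⟨0, fun h3 h4 => absurd ⟨h3, h4⟩ h, fun _ => rfl⟩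
  choose P hP1 hP2 using hP0
  have hne : (vx u : LA G) ≠ 0 := vx_ne_zero u
  have hvv : (vx u : LA G) * vx u = vx u := vx_mul_self u
  have hsm : ∀ c d : ℂ, (c • vx u : LA G) * (d • vx u) = (c * d) • vx u := by
    intro c d
    rw [smul_mul_smul_comm, hvv]
  have hPP : (Matrix.of P) * (Matrix.of P) = (Matrix.of P : Matrix ι ι ℂ) := by
    ext i j
    rw [Matrix.mul_apply, Matrix.of_apply]
    simp only [Matrix.of_apply]
    by_cases h : a i = u ∧ a j = u
    · have h3 : (x * x) i j = x i j := by rw [hxx]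
      rw [Matrix.mul_apply, hP1 i j h.1 h.2] at h3
      have h4 : ∑ k, x i k * x k j = (∑ k, P i k * P k j) • vx u := by
        rw [Finset.sum_smul]
        refine Finset.sum_congr rfl fun k _ => ?_
        by_cases hk : a k = u
        · rw [hP1 i k h.1 hk, hP1 k j hk h.2, hsm]
        · rw [off1 i k h.1 hk, zero_mul, hP2 i k fun h5 => hk h5.2, zero_mul, zero_smul]
      rw [h4] at h3
      have h5 : ((∑ k, P i k * P k j) - P i j) • (vx u : LA G) = 0 := by
        rw [sub_smul, h3, sub_self]
      exact sub_eq_zero.1 ((smul_eq_zero.1 h5).resolve_right hne)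
    · rw [hP2 i j h]
      apply Finset.sum_eq_zero
      intro k _
      by_cases hi : a i = u
      · rw [hP2 k j fun h5 => h ⟨hi, h5.2⟩, mul_zero]
      · rw [hP2 i k fun h5 => hi h5.1, zero_mul]
  obtain ⟨k, M, N, hMN, hNM⟩ := split_idem _ hPP
  have hMNa : ∀ i j, ∑ l, M i l * N l j = P i j := by
    intro i j
    have h3 := congrFun (congrFun hMN i) j
    rwa [Matrix.mul_apply] at h3
  have hPM : ∀ i l, ∑ j, P i j * M j l = M i l := by
    intro i l
    have h3 : (Matrix.of P) * M = M := by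
      rw [← hMN, Matrix.mul_assoc, hNM, Matrix.mul_one]
    have h4 := congrFun (congrFun h3 i) l
    rwa [Matrix.mul_apply] at h4
  have hNP : ∀ l j, ∑ i, N l i * P i j = N l j := by
    intro l j
    have h3 : N * (Matrix.of P) = N := by
      rw [← hMN, ← Matrix.mul_assoc, hNM, Matrix.one_mul]
    have h4 := congrFun (congrFun h3 l) j
    rwa [Matrix.mul_apply] at h4
  have hM0 : ∀ i l, a i ≠ u → M i l = 0 := by
    intro i l hi
    rw [← hPM]
    apply Finset.sum_eq_zero
    intro j _
    rw [hP2 i j fun h5 => hi h5.1, zero_mul]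
  have hN0 : ∀ l j, a j ≠ u → N l j = 0 := by
    intro l j hj
    rw [← hNP]
    apply Finset.sum_eq_zero
    intro i _
    rw [hP2 i j fun h5 => hj h5.2, mul_zero]
  obtain ⟨φ, hφ⟩ : ∃ φ : Matrix ι (Fin k) (LA G), ∀ i l, φ i l = M i l • vx u :=
    ⟨Matrix.of fun i l => M i l • vx u, fun _ _ => rfl⟩
  obtain ⟨ψ, hψ⟩ : ∃ ψ : Matrix (Fin k) ι (LA G), ∀ l j, ψ l j = N l j • vx u :=
    ⟨Matrix.of fun l j => N l j • vx u, fun _ _ => rfl⟩
  refine gen_step hG hC hu ih ha hx h1 h2 hxx (k := k) (φ := φ)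
    (ψ := ψ) (fun i l => by rw [hφ]; exact SMulMemClass.smul_mem _ (hv u))
    (fun l j => by rw [hψ]; exact SMulMemClass.smul_mem _ (hv u)) ?_ ?_ ?_ ?_ ?_
    (Λ := Empty) (w := fun l => l.elim) (r := fun l => l.elim)
    ⟨fun l => l.elim, fun l => l.elim, fun l => l.elim, fun l => l.elim⟩ (fun l => l.elim) ?_
    (Or.inr (Or.inl huR))
  · ext l l'
    rw [Matrix.mul_apply]
    simp only [hφ, hψ]
    have h3 : (∑ i, (N l i • (vx u : LA G)) * (M i l' • vx u)) = ((N * M) l l') • vx u := by
      rw [Matrix.mul_apply, Finset.sum_smul]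
      exact Finset.sum_congr rfl fun i _ => hsm _ _
    rw [h3, hNM]
    by_cases hll : l = l'
    · rw [hll, Matrix.one_apply_eq, one_smul, dg, Matrix.diagonal_apply_eq]
    · rw [Matrix.one_apply_ne hll, zero_smul, dg, Matrix.diagonal_apply_ne _ hll]
  · ext i l
    rw [Matrix.mul_apply]
    simp only [hφ]
    by_cases hi : a i = u
    · rw [← hPM i l, Finset.sum_smul]
      refine Finset.sum_congr rfl fun j _ => ?_
      by_cases hj : a j = u
      · rw [hP1 i j hi hj, hsm]
      · rw [hM0 j l hj, zero_smul, mul_zero, mul_zero, zero_smul]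
    · rw [hM0 i l hi, zero_smul]
      apply Finset.sum_eq_zero
      intro j _
      by_cases hj : a j = u
      · rw [off2 i j hi hj, zero_mul]
      · rw [hM0 j l hj, zero_smul, mul_zero]
  · ext l j
    rw [Matrix.mul_apply]
    simp only [hψ]
    by_cases hj : a j = u
    · rw [← hNP l j, Finset.sum_smul]
      refine Finset.sum_congr rfl fun i _ => ?_
      by_cases hi : a i = u
      · rw [hP1 i j hi hj, hsm]
      · rw [hN0 l i hi, zero_smul, zero_mul, zero_mul, zero_smul]
    · rw [hN0 l j hj, zero_smul]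
      apply Finset.sum_eq_zero
      intro i _
      by_cases hi : a i = u
      · rw [off1 i j hi hj, mul_zero]
      · rw [hN0 l i hi, zero_smul, zero_mul]
  · ext i l
    exact (mul_dg_apply (fun _ : Fin k => u) φ i l).trans (by rw [hφ, smul_mul_assoc, hvv])
  · ext l j
    exact (dg_mul_apply (fun _ : Fin k => u) ψ l j).trans (by rw [hψ, mul_smul_comm, hvv])
  · intro i j hj
    rw [Finset.univ_eq_empty, Finset.sum_empty, mul_zero, Matrix.sub_apply, Matrix.mul_apply]
    simp only [hφ, hψ]
    have h3 : (∑ l, (M i l • (vx u : LA G)) * (N l j • vx u)) = P i j • vx u := by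
      rw [← hMNa i j, Finset.sum_smul]
      exact Finset.sum_congr rfl fun l _ => hsm _ _
    rw [h3]
    by_cases hi : a i = u
    · rw [hP1 i j hi hj, sub_self]
    · rw [off2 i j hi hj, hP2 i j fun h5 => hi h5.1, zero_smul, sub_self]

end DC56
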