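import Pool.Agent.LibDC56.TE
import Pool.Agent.LibLPA74.R1

/-!
[DC56 TI] The powers of a loop are linearly independent. For a complex number `k` of absolute value `1` the elements
`vx a`, `k • ed f` are a Cuntz-Krieger family (`CK`), so `LA.lift` gives `φ` with `φ (sp e n) = k ^ n • sp e n`. If
`∑ q_n sp e n = 0` apply this for infinitely many `k` (or `deg + 1`, Vandermonde: `Matrix.det_vandermonde_ne_zero_iff`; or consider
for a linear functional `ℓ` on `LA G` the polynomial `∑ q_n ℓ (sp e n) X ^ n`, which has infinitely many zeros, so that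
`q_n ℓ (sp e n) = 0` for all `ℓ`, `Module.forall_dual_apply_eq_zero_iff`). Then `q_n • sp e n = 0`; multiply by
`star (sp e n)`: `q_n • vx = 0`, `vx_ne_zero`.
-/

namespace DC56

open LPA74 Relation Polynomial
open DC29 (LG Rch IsLp MRel Mon mv Le exs wm Cl)

variable {G : Gph} {e : G.Ed}

theorem TI_lift (e : G.Ed) {k : ℂ} (hk : k * starRingEnd ℂ k = 1) :
    ∃ φ : LA G →⋆ₙₐ[ℂ] LA G, ∀ n, φ (sp e n) = k ^ n • sp e n := by
  have hk' : starRingEnd ℂ k * k = 1 := by rw [mul_comm, hk]
  have hck : CK G (fun a => (vx a : LA G)) (fun f => k • (ed f : LA G)) := by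
    refine ⟨fun a => vx_mul_self a, fun a => star_vx a, fun a b h => vx_mul_ne h, ?_, ?_, ?_, ?_, ?_⟩
    · intro f
      rw [mul_smul_comm, vx_mul_ed]
    · intro f
      rw [smul_mul_assoc, ed_mul_vx]
    · intro f
      rw [star_smul, smul_mul_smul_comm, star_ed_mul_ed]
      change (starRingEnd ℂ k * k) • (vx (G.r f) : LA G) = _
      rw [hk', one_smul]
    · intro f f' h
      rw [star_smul, smul_mul_smul_comm, star_ed_mul_ed_ne h, smul_zero]
    · intro a S h0 h
      rw [vx_eq_sum a S h0 h]
      refine Finset.sum_congr rfl fun f _ => ?_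
      rw [star_smul, smul_mul_smul_comm]
      change _ = (k * starRingEnd ℂ k) • (ed f * star (ed f) : LA G)
      rw [hk, one_smul]
  obtain ⟨φ, h1, h2⟩ := LA.lift hck
  refine ⟨φ, fun n => ?_⟩
  induction n with
  | zero => rw [sp_zero, h1, pow_zero, one_smul]
  | succ n ih =>
    rw [sp_succ, map_mul, h2, ih, smul_mul_smul_comm, pow_succ']

theorem ev_inj [Countable G.Ed] (he : G.r e = G.s e) {q : ℂ[X]} (h : ev e q = 0) : q = 0 := by
  ext n
  rw [coeff_zero]
  by_contra hn
  -- for every functional
  have h1 : q.coeff n • sp e n = 0 := by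
    rw [← Module.forall_dual_apply_eq_zero_iff ℂ]
    intro l
    -- the polynomial
    let P : ℂ[X] := ∑ i ∈ q.support, Polynomial.C (q.coeff i * l (sp e i)) * X ^ i
    have hP : ∀ k : ℂ, k * starRingEnd ℂ k = 1 → P.eval k = 0 := by
      intro k hk
      obtain ⟨φ, hφ⟩ := TI_lift e hk
      have h2 : l (φ (ev e q)) = 0 := by rw [h, map_zero, map_zero]
      rw [ev, Polynomial.sum_def, map_sum, map_sum] at h2
      rw [← h2]
      change Polynomial.eval k (∑ i ∈ q.support, Polynomial.C (q.coeff i * l (sp e i)) * X ^ i) = _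
      rw [Polynomial.eval_finsetSum]
      refine Finset.sum_congr rfl fun i _ => ?_
      rw [Polynomial.eval_mul, Polynomial.eval_C, Polynomial.eval_pow, Polynomial.eval_X, map_smul,
        map_smul, hφ, map_smul, smul_eq_mul, smul_eq_mul]
      ring
    have hP0 : P = 0 := by
      refine Polynomial.eq_zero_of_infinite_isRoot P ?_
      have h0 : Infinite Circle := by
        rw [Circle.argEquiv.infinite_iff]
        exact (Set.Ioc_infinite (by linarith [Real.pi_pos])).to_subtype
      have h3 : Set.Infinite (Set.range fun t : Circle => (t : ℂ)) :=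
        Set.infinite_range_of_injective Subtype.val_injective
      refine h3.mono ?_
      rintro _ ⟨t, rfl⟩
      refine hP _ ?_
      rw [Complex.mul_conj, Circle.normSq_coe]
      rfl
    have h4 : P.coeff n = q.coeff n * l (sp e n) := by
      change Polynomial.coeff (∑ i ∈ q.support, Polynomial.C (q.coeff i * l (sp e i)) * X ^ i) n = _
      rw [Polynomial.finsetSum_coeff]
      simp only [Polynomial.coeff_C_mul_X_pow]
      rw [Finset.sum_ite_eq, if_pos (Polynomial.mem_support_iff.2 hn)]
    rw [map_smul, smul_eq_mul, ← h4, hP0, coeff_zero]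
  have h2 : sp e n = 0 := (smul_eq_zero.1 h1).resolve_left hn
  have h3 := star_sp_mul_sp he n
  rw [h2, mul_zero] at h3
  exact vx_ne_zero _ h3.symm

end DC56
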