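import Pool.Agent.LibDC56.TC
import Pool.Agent.LibDC56.TS

/-!
[DC56 TJ0] Reductions for INJ.
-/

namespace DC56

open LPA74 Relation Matrix
open DC29 (LG Rch IsLp MRel Mon mv Le exs wm Cl)

variable {G : Gph}

theorem ME_erase [DecidableEq G.V] (hG : LG G) {X R : Finset G.V} {u : G.V} (hu : Tp X u)
    {ι κ : Type} [Fintype ι] [DecidableEq ι] [Fintype κ] [DecidableEq κ] {a : ι → G.V}
    {b : κ → G.V} (ha : ∀ i, a i ∈ X.erase u) (hb : ∀ j, b j ∈ X.erase u)
    (h : ME (StA R) (dg a) (dg b)) : ME (StA (R.erase u)) (dg a) (dg b) := by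
  obtain ⟨y, z, hy, hz, h1, h2, h3, h4, h5, h6⟩ := h
  refine ⟨y, z, ?_, ?_, h1, h2, h3, h4, h5, h6⟩
  · intro i j
    have e1 : y i j = vx (a i) * y i j * vx (b j) := by
      rw [← dg_mul_apply, h3, ← mul_dg_apply, h4]
    rw [e1]
    exact StA_erase hG hu (hy i j) (ha i) (hb j)
  · intro i j
    have e1 : z i j = vx (b i) * z i j * vx (a j) := by
      rw [← dg_mul_apply, h5, ← mul_dg_apply, h6]
    rw [e1]
    exact StA_erase hG hu (hz i j) (hb i) (ha j)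

/-- reduction to families where the vertex `u` is separated -/
theorem inj_red {X R : Finset G.V} {u : G.V}
    (h : ∀ (k l m n : ℕ) (d : Fin m → G.V) (d' : Fin n → G.V), (∀ j, d j ∈ X ∧ d j ≠ u) →
      (∀ j, d' j ∈ X ∧ d' j ≠ u) → ME (StA R) (dg (Sum.elim (fun _ : Fin k => u) d))
        (dg (Sum.elim (fun _ : Fin l => u) d')) →
      k • mv u + ∑ j, mv (d j) = l • mv u + ∑ j, mv (d' j)) : INJ X R := by
  intro ι κ _ _ _ _ a b ha hb hab
  obtain ⟨k, m, d, hd, h1, h2⟩ := split_dg (C := StA R) (vx_mem_StA R) a u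
  obtain ⟨l, n, d', hd', h1', h2'⟩ := split_dg (C := StA R) (vx_mem_StA R) b u
  rw [h2, h2']
  refine h k l m n d d' ?_ ?_ ((h1.symm.trans hab).trans h1')
  · intro j
    obtain ⟨i, hi, hj⟩ := hd j
    rw [hj]
    exact ⟨ha i, hi⟩
  · intro j
    obtain ⟨i, hi, hj⟩ := hd' j
    rw [hj]
    exact ⟨hb i, hi⟩

end DC56
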