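import Pool.Agent.LibDC56.TD

/-!
[DC56 TM] Calculus of `ME` (equivalence of idempotent matrices). `Matrix.mul_assoc` holds for matrices
over non-unital rings. `ME.mk'`: replace `y`, `z` by `x y x'`, `x' z x`. `ME.orth`: with
`y = fromCols x x2`, `z = fromRows x x2`. `ME.dg_equiv`: permutation matrices of vertices.
-/

namespace DC56

open LPA74 Relation Matrix
open DC29 (LG Rch IsLp MRel Mon mv Le exs wm Cl)

variable {G : Gph} {C C' : NonUnitalStarSubalgebra ℂ (LA G)}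
  {ι κ ρ τ : Type} [Fintype ι] [Fintype κ] [Fintype ρ] [Fintype τ]

section TM_aux

variable {R : Type*} [NonUnitalNonAssocSemiring R] {m n m₁ m₂ n₁ n₂ : Type}

theorem TM_fromCols_mul_fromRows [Fintype n₁] [Fintype n₂] (A₁ : Matrix m n₁ R)
    (A₂ : Matrix m n₂ R) (B₁ : Matrix n₁ n R) (B₂ : Matrix n₂ n R) :
    fromCols A₁ A₂ * fromRows B₁ B₂ = A₁ * B₁ + A₂ * B₂ := by
  ext i j
  simp [mul_apply]

theorem TM_fromRows_mul_fromCols [Fintype n] (A₁ : Matrix m₁ n R) (A₂ : Matrix m₂ n R)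
    (B₁ : Matrix n n₁ R) (B₂ : Matrix n n₂ R) :
    fromRows A₁ A₂ * fromCols B₁ B₂ =
      fromBlocks (A₁ * B₁) (A₁ * B₂) (A₂ * B₁) (A₂ * B₂) := by
  ext (i | i) (j | j) <;> simp [mul_apply]

theorem TM_mul_fromCols [Fintype n] (A : Matrix m n R) (B₁ : Matrix n n₁ R)
    (B₂ : Matrix n n₂ R) : A * fromCols B₁ B₂ = fromCols (A * B₁) (A * B₂) := by
  ext i (j | j) <;> simp [mul_apply]

theorem TM_fromRows_mul [Fintype n] (A₁ : Matrix m₁ n R) (A₂ : Matrix m₂ n R)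
    (B : Matrix n m R) : fromRows A₁ A₂ * B = fromRows (A₁ * B) (A₂ * B) := by
  ext (i | i) j <;> simp [mul_apply]

theorem TM_fromCols_mul_fromBlocks [Fintype m₁] [Fintype m₂] (A₁ : Matrix m m₁ R)
    (A₂ : Matrix m m₂ R) (B₁₁ : Matrix m₁ n₁ R) (B₁₂ : Matrix m₁ n₂ R) (B₂₁ : Matrix m₂ n₁ R)
    (B₂₂ : Matrix m₂ n₂ R) : fromCols A₁ A₂ * fromBlocks B₁₁ B₁₂ B₂₁ B₂₂ =
      fromCols (A₁ * B₁₁ + A₂ * B₂₁) (A₁ * B₁₂ + A₂ * B₂₂) := by
  ext i (j | j) <;> simp [mul_apply]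

theorem TM_fromBlocks_mul_fromRows [Fintype n₁] [Fintype n₂] (A₁ : Matrix n₁ n R)
    (A₂ : Matrix n₂ n R) (B₁₁ : Matrix m₁ n₁ R) (B₁₂ : Matrix m₁ n₂ R) (B₂₁ : Matrix m₂ n₁ R)
    (B₂₂ : Matrix m₂ n₂ R) : fromBlocks B₁₁ B₁₂ B₂₁ B₂₂ * fromRows A₁ A₂ =
      fromRows (B₁₁ * A₁ + B₁₂ * A₂) (B₂₁ * A₁ + B₂₂ * A₂) := by
  ext (i | i) j <;> simp [mul_apply]

end TM_aux

theorem MIn.mul {x : Matrix ι κ (LA G)} {y : Matrix κ ρ (LA G)} (hx : MIn C x) (hy : MIn C y) :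
    MIn C (x * y) := by
  intro i j
  rw [Matrix.mul_apply]
  exact sum_mem fun k _ => mul_mem (hx i k) (hy k j)

theorem MIn.add {x y : Matrix ι κ (LA G)} (hx : MIn C x) (hy : MIn C y) : MIn C (x + y) :=
  fun i j => add_mem (hx i j) (hy i j)

theorem MIn.sub {x y : Matrix ι κ (LA G)} (hx : MIn C x) (hy : MIn C y) : MIn C (x - y) :=
  fun i j => sub_mem (hx i j) (hy i j)

theorem MIn.dg [DecidableEq ι] {a : ι → G.V} (h : ∀ i, vx (a i) ∈ C) : MIn C (dg a) := by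
  intro i j
  unfold DC56.dg
  rw [Matrix.diagonal_apply]
  split_ifs
  · exact h i
  · exact zero_mem C

theorem TM_zero : MIn C (0 : Matrix ι κ (LA G)) := fun _ _ => zero_mem C

theorem TM_blocks {x : Matrix ι κ (LA G)} {y : Matrix ρ τ (LA G)} (hx : MIn C x)
    (hy : MIn C y) : MIn C (fromBlocks x 0 0 y) := by
  rintro (i | i) (j | j)
  · exact hx i j
  · exact zero_mem C
  · exact zero_mem C
  · exact hy i j

theorem MIn.conj {x : Matrix ι κ (LA G)} (hx : MIn C x) : MIn C xᴴ :=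
  fun i j => star_mem (hx j i)

theorem dg_mul_dg [DecidableEq ι] (a : ι → G.V) : dg a * dg a = dg a := by
  unfold dg
  rw [Matrix.diagonal_mul_diagonal]
  congr 1
  funext i
  exact vx_mul_self (a i)

theorem dg_mul_apply [DecidableEq ι] (a : ι → G.V) (x : Matrix ι κ (LA G)) (i : ι) (j : κ) :
    (dg a * x) i j = vx (a i) * x i j :=
  Matrix.diagonal_mul _ _ _ _

theorem mul_dg_apply [DecidableEq κ] (a : κ → G.V) (x : Matrix ι κ (LA G)) (i : ι) (j : κ) :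
    (x * dg a) i j = x i j * vx (a j) :=
  Matrix.mul_diagonal _ _ _ _

theorem dg_sum [DecidableEq ι] [DecidableEq κ] (a : ι → G.V) (b : κ → G.V) :
    dg (Sum.elim a b) = fromBlocks (dg a) 0 0 (dg b) := by
  unfold dg
  rw [Matrix.fromBlocks_diagonal]
  congr 1
  funext i
  rcases i with i | i <;> rfl

theorem ME.symm {x : Matrix ι ι (LA G)} {y : Matrix κ κ (LA G)} (h : ME C x y) : ME C y x := by
  obtain ⟨u, v, hu, hv, h1, h2, h3, h4, h5, h6⟩ := h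
  exact ⟨v, u, hv, hu, h2, h1, h5, h6, h3, h4⟩

theorem ME.trans {x : Matrix ι ι (LA G)} {y : Matrix κ κ (LA G)} {z : Matrix ρ ρ (LA G)}
    (h : ME C x y) (h' : ME C y z) : ME C x z := by
  obtain ⟨u, v, hu, hv, h1, h2, h3, h4, h5, h6⟩ := h
  obtain ⟨u', v', hu', hv', k1, k2, k3, k4, k5, k6⟩ := h'
  refine ⟨u * u', v' * v, hu.mul hu', hv'.mul hv, ?_, ?_, ?_, ?_, ?_, ?_⟩
  · rw [Matrix.mul_assoc, ← Matrix.mul_assoc u' v' v, k1, h5, h1]
  · rw [Matrix.mul_assoc, ← Matrix.mul_assoc v u u', h2, k3, k2]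
  · rw [← Matrix.mul_assoc, h3]
  · rw [Matrix.mul_assoc, k4]
  · rw [← Matrix.mul_assoc, k5]
  · rw [Matrix.mul_assoc, h6]

theorem ME.refl {x : Matrix ι ι (LA G)} (hx : MIn C x) (h : x * x = x) : ME C x x :=
  ⟨x, x, hx, hx, h, h, h, h, h, h⟩

theorem ME.mono (hC : C ≤ C') {x : Matrix ι ι (LA G)} {y : Matrix κ κ (LA G)} (h : ME C x y) :
    ME C' x y := by
  obtain ⟨u, v, hu, hv, h1⟩ := h
  exact ⟨u, v, fun i j => hC (hu i j), fun i j => hC (hv i j), h1⟩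

theorem ME.mk' {x : Matrix ι ι (LA G)} {x' : Matrix κ κ (LA G)} {y : Matrix ι κ (LA G)}
    {z : Matrix κ ι (LA G)} (hy : MIn C y) (hz : MIn C z) (h1 : y * z = x) (h2 : z * y = x')
    (hx : x * x = x) (hx' : x' * x' = x') : ME C x x' := by
  have hxC : MIn C x := h1 ▸ hy.mul hz
  have hxC' : MIn C x' := h2 ▸ hz.mul hy
  -- `x * y = y * x'`, `x' * z = z * x`
  have e1 : x * y = y * x' := by rw [← h1, ← h2, Matrix.mul_assoc]
  have e2 : x' * z = z * x := by rw [← h1, ← h2, Matrix.mul_assoc]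
  have e3 : x * y * x' = x * y := by
    rw [Matrix.mul_assoc, ← e1, ← Matrix.mul_assoc, hx]
  have e4 : x' * z * x = x' * z := by
    rw [Matrix.mul_assoc, ← e2, ← Matrix.mul_assoc, hx']
  refine ⟨x * y, x' * z, hxC.mul hy, hxC'.mul hz, ?_, ?_, ?_, e3, ?_, e4⟩
  · rw [← Matrix.mul_assoc, e3, Matrix.mul_assoc, h1, hx]
  · rw [← Matrix.mul_assoc, e4, Matrix.mul_assoc, h2, hx']
  · rw [← Matrix.mul_assoc, hx]
  · rw [← Matrix.mul_assoc, hx']

/-- direct sums -/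
theorem ME.blocks {x : Matrix ι ι (LA G)} {x' : Matrix κ κ (LA G)} {y : Matrix ρ ρ (LA G)}
    {y' : Matrix τ τ (LA G)} (h : ME C x x') (h' : ME C y y') :
    ME C (fromBlocks x 0 0 y) (fromBlocks x' 0 0 y') := by
  obtain ⟨u, v, hu, hv, h1, h2, h3, h4, h5, h6⟩ := h
  obtain ⟨u', v', hu', hv', k1, k2, k3, k4, k5, k6⟩ := h'
  refine ⟨fromBlocks u 0 0 u', fromBlocks v 0 0 v', TM_blocks hu hu', TM_blocks hv hv',
    ?_, ?_, ?_, ?_, ?_, ?_⟩ <;>
  rw [Matrix.fromBlocks_multiply] <;>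
  simp only [Matrix.mul_zero, Matrix.zero_mul, add_zero, zero_add, h1, h2, h3, h4, h5, h6, k1, k2,
    k3, k4, k5, k6]

/-- orthogonal sums -/
theorem ME.orth {x y : Matrix ι ι (LA G)} (hx : MIn C x) (hy : MIn C y) (hxx : x * x = x)
    (hyy : y * y = y) (hxy : x * y = 0) (hyx : y * x = 0) :
    ME C (x + y) (fromBlocks x 0 0 y) := by
  refine ⟨fromCols x y, fromRows x y, ?_, ?_, ?_, ?_, ?_, ?_, ?_, ?_⟩
  · rintro i (j | j)
    · exact hx i j
    · exact hy i j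
  · rintro (i | i) j
    · exact hx i j
    · exact hy i j
  · rw [TM_fromCols_mul_fromRows, hxx, hyy]
  · rw [TM_fromRows_mul_fromCols, hxx, hyy, hxy, hyx]
  · rw [TM_mul_fromCols, Matrix.add_mul, Matrix.add_mul, hxx, hyy, hxy, hyx, add_zero, zero_add]
  · rw [TM_fromCols_mul_fromBlocks, Matrix.mul_zero, Matrix.mul_zero, hxx, hyy, add_zero,
      zero_add]
  · rw [TM_fromBlocks_mul_fromRows, Matrix.zero_mul, Matrix.zero_mul, hxx, hyy, add_zero,
      zero_add]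
  · rw [TM_fromRows_mul, Matrix.mul_add, Matrix.mul_add, hxx, hyy, hxy, hyx, add_zero, zero_add]

/-- reindexing -/
theorem ME.dg_equiv [DecidableEq ι] [DecidableEq κ] {a : ι → G.V} {b : κ → G.V} (e : ι ≃ κ)
    (h : ∀ i, a i = b (e i)) (hC : ∀ i, vx (a i) ∈ C) : ME C (dg a) (dg b) := by
  have hdb : dg b = (dg a).submatrix e.symm e.symm := by
    ext i j
    rw [Matrix.submatrix_apply]
    unfold dg
    rw [Matrix.diagonal_apply, Matrix.diagonal_apply]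
    by_cases hij : i = j
    · rw [if_pos hij, if_pos (congrArg e.symm hij), h, Equiv.apply_symm_apply]
    · rw [if_neg hij, if_neg fun h' => hij (e.symm.injective h')]
  have hM := MIn.dg (C := C) hC
  refine ME.mk' (y := (dg a).submatrix id e.symm) (z := (dg a).submatrix e.symm id)
    (fun i j => hM _ _) (fun i j => hM _ _) ?_ ?_ (dg_mul_dg a) (dg_mul_dg b)
  · rw [Matrix.submatrix_mul_equiv, dg_mul_dg]
    rfl
  · have h1 := Matrix.submatrix_mul_equiv (dg a) (dg a) (e.symm : κ → ι) (Equiv.refl ι)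
      (e.symm : κ → ι)
    rw [dg_mul_dg, ← hdb] at h1
    exact h1

/-- the complement of a left invertible map does not depend on the left inverse -/
theorem ME.compl [DecidableEq ι] [DecidableEq κ] {a : ι → G.V} {b : κ → G.V}
    {φ : Matrix ι κ (LA G)} {ψ ψ' : Matrix κ ι (LA G)} (hC : ∀ i, vx (a i) ∈ C)
    (hφ : MIn C φ) (hψ : MIn C ψ) (hψ' : MIn C ψ') (h : ψ * φ = dg b) (h' : ψ' * φ = dg b)
    (h1 : dg a * φ = φ) (h2 : φ * dg b = φ) (h3 : ψ * dg a = ψ) (h3' : ψ' * dg a = ψ') :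
    ME C (dg a - φ * ψ) (dg a - φ * ψ') := by
  have key : ∀ χ χ' : Matrix κ ι (LA G), χ * φ = dg b → χ * dg a = χ →
      (dg a - φ * χ) * (dg a - φ * χ') = dg a - φ * χ := by
    intro χ χ' hχ hχa
    rw [Matrix.sub_mul, Matrix.mul_sub, Matrix.mul_sub, dg_mul_dg, ← Matrix.mul_assoc (dg a) φ χ',
      h1, Matrix.mul_assoc φ χ (dg a), hχa, Matrix.mul_assoc φ χ (φ * χ'),
      ← Matrix.mul_assoc χ φ χ', hχ, ← Matrix.mul_assoc φ (dg b) χ', h2]
    abel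
  have hM := MIn.dg (C := C) hC
  exact ME.mk' (y := dg a - φ * ψ) (z := dg a - φ * ψ') (hM.sub (hφ.mul hψ)) (hM.sub (hφ.mul hψ'))
    (key ψ ψ' h h3) (key ψ' ψ h' h3') (key ψ ψ h h3) (key ψ' ψ' h' h3')

end DC56
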